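import Pool.Agent.Lib.MP_afd523_nt_P.PFin

/-!
Project NP (MP_afd523_nt): the count in all cosets, by double counting.
-/

namespace Pool.Agent.NP

open Finset Complex MeasureTheory Pool.Agent.NV Pool.Agent.NVT

/-- characters of the coset are primitive -/
private theorem PAll_prim {p k j : ℕ} [Fact p.Prime] (hjk : j < k) (hd : p ^ j ∣ p ^ k)
    (ψ : DirichletCharacter ℂ (p ^ k)) (hψ : ψ.IsPrimitive) (χ : DirichletCharacter ℂ (p ^ j)) :
    (ψ * DirichletCharacter.changeLevel hd χ).IsPrimitive := by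
  have hp : p.Prime := Fact.out
  have hne : NeZero (p ^ j) := ⟨(pow_pos hp.pos j).ne'⟩
  have hne' : NeZero (p ^ k) := ⟨(pow_pos hp.pos k).ne'⟩
  set X := ψ * DirichletCharacter.changeLevel hd χ with hX
  have h1 : ψ = X * (DirichletCharacter.changeLevel hd χ)⁻¹ := by
    rw [hX, mul_inv_cancel_right]
  have h2 := DirichletCharacter.conductor_mul_dvd_lcm_conductor X
    (DirichletCharacter.changeLevel hd χ)⁻¹
  rw [← h1, DirichletCharacter.conductor_inv, DirichletCharacter.conductor_changeLevel] at h2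
  have h3 : ψ.conductor = p ^ k := hψ
  rw [h3] at h2
  have h4 : p ^ k ∣ Nat.lcm X.conductor (p ^ j) :=
    h2.trans (Nat.lcm_dvd (Nat.dvd_lcm_left _ _)
      ((DirichletCharacter.conductor_dvd_level χ).trans (Nat.dvd_lcm_right _ _)))
  obtain ⟨i, hi, hi'⟩ := (Nat.dvd_prime_pow hp).1 X.conductor_dvd_level
  have h5 : k ≤ i := by
    by_contra hlt
    have h6 : Nat.lcm X.conductor (p ^ j) ∣ p ^ (k - 1) := by
      apply Nat.lcm_dvd
      · rw [hi']
        exact pow_dvd_pow p (by omega)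
      · exact pow_dvd_pow p (by omega)
    have h7 := (Nat.pow_dvd_pow_iff_le_right hp.one_lt).1 (h4.trans h6)
    omega
  have h6 : i = k := by omega
  change X.conductor = p ^ k
  rw [hi', h6]

/-- the value at minus one -/
private theorem PAll_neg {n m : ℕ} [NeZero n] [NeZero m] (h : m ∣ n)
    (χ : DirichletCharacter ℂ n) (χ' : DirichletCharacter ℂ m) :
    (χ * DirichletCharacter.changeLevel h χ') (-1) = χ (-1) * χ' (-1) := by
  have h1 : ZMod.castHom h (ZMod m) (-1) = -1 := by rw [map_neg, map_one]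
  rw [coset_apply, h1]

/-- double counting -/
private theorem PAll_double {p k j i : ℕ} [Fact p.Prime] (hij : i ≤ j) (hjk : j < k)
    (hd : p ^ j ∣ p ^ k) (ψ : DirichletCharacter ℂ (p ^ k)) (hψ : ψ.IsPrimitive) {η : ℝ}
    (h : ∀ (hd' : p ^ i ∣ p ^ k) (ψ : DirichletCharacter ℂ (p ^ k)), ψ.IsPrimitive →
      ∀ s : ℂ, s = 1 ∨ s = -1 → η * (Nat.totient (p ^ i) : ℝ) ≤
      Nat.card {χ : DirichletCharacter ℂ (p ^ i) // χ (-1) = s ∧ DirichletCharacter.LFunction
        (ψ * DirichletCharacter.changeLevel hd' χ) (1 / 2) ≠ 0}) (s : ℂ) (hs : s = 1 ∨ s = -1) :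
    η * (Nat.totient (p ^ j) : ℝ) ≤
      Nat.card {χ : DirichletCharacter ℂ (p ^ j) // χ (-1) = s ∧ DirichletCharacter.LFunction
        (ψ * DirichletCharacter.changeLevel hd χ) (1 / 2) ≠ 0} := by
  classical
  have hp : p.Prime := Fact.out
  have hne : NeZero (p ^ j) := ⟨(pow_pos hp.pos j).ne'⟩
  have hne' : NeZero (p ^ k) := ⟨(pow_pos hp.pos k).ne'⟩
  have hne'' : NeZero (p ^ i) := ⟨(pow_pos hp.pos i).ne'⟩
  have hdi : p ^ i ∣ p ^ j := pow_dvd_pow p hij
  obtain ⟨F, hF⟩ : ∃ F : DirichletCharacter ℂ (p ^ j) → ℝ, F = fun χ => if (χ (-1) = s ∧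
    DirichletCharacter.LFunction (ψ * DirichletCharacter.changeLevel hd χ) (1 / 2) ≠ 0) then
      (1 : ℝ) else 0 := ⟨_, rfl⟩
  have h1 : ((Nat.card {χ : DirichletCharacter ℂ (p ^ j) // χ (-1) = s ∧
      DirichletCharacter.LFunction (ψ * DirichletCharacter.changeLevel hd χ) (1 / 2) ≠ 0} : ℕ) :
      ℝ) = ∑ χ, F χ := by
    rw [hF, Finset.sum_boole, Nat.card_eq_fintype_card, Fintype.card_subtype]
  have h2 : ∀ χ' : DirichletCharacter ℂ (p ^ i),
      ∑ χ : DirichletCharacter ℂ (p ^ j), F (χ * DirichletCharacter.changeLevel hdi χ') =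
        ∑ χ, F χ := fun χ' =>
    Equiv.sum_comp (Equiv.mulRight (DirichletCharacter.changeLevel hdi χ')) F
  have hsq : s * s = 1 := by
    rcases hs with rfl | rfl <;> norm_num
  have h3 : ∀ χ : DirichletCharacter ℂ (p ^ j), η * (Nat.totient (p ^ i) : ℝ) ≤
      ∑ χ' : DirichletCharacter ℂ (p ^ i), F (χ * DirichletCharacter.changeLevel hdi χ') := by
    intro χ
    have hχ : χ (-1) * χ (-1) = 1 := by
      rw [← map_mul]
      simp
    have hpm : χ (-1) = 1 ∨ χ (-1) = -1 := mul_self_eq_one_iff.1 hχ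
    have h4 := h (hdi.trans hd) (ψ * DirichletCharacter.changeLevel hd χ)
      (PAll_prim hjk hd ψ hψ χ) (s * χ (-1)) (by
        rcases hs with rfl | rfl <;> rcases hpm with h5 | h5 <;> rw [h5] <;> norm_num)
    refine h4.trans (le_of_eq ?_)
    rw [hF, Finset.sum_boole, Nat.card_eq_fintype_card, Fintype.card_subtype]
    congr 2
    ext χ'
    simp only [Finset.mem_filter, Finset.mem_univ, true_and]
    rw [PAll_neg hdi, map_mul (DirichletCharacter.changeLevel hd), ← mul_assoc,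
      ← DirichletCharacter.changeLevel_trans]
    refine and_congr ?_ Iff.rfl
    constructor
    · intro h5
      rw [h5, mul_comm s, ← mul_assoc, hχ, one_mul]
    · intro h5
      rw [← h5, mul_comm, ← mul_assoc, hχ, one_mul]
  have hcj : Fintype.card (DirichletCharacter ℂ (p ^ j)) = Nat.totient (p ^ j) := by
    rw [← Nat.card_eq_fintype_card]
    exact DirichletCharacter.card_eq_totient_of_hasEnoughRootsOfUnity ℂ (p ^ j)
  have hci : Fintype.card (DirichletCharacter ℂ (p ^ i)) = Nat.totient (p ^ i) := by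
    rw [← Nat.card_eq_fintype_card]
    exact DirichletCharacter.card_eq_totient_of_hasEnoughRootsOfUnity ℂ (p ^ i)
  have h4 : (Nat.totient (p ^ j) : ℝ) * (η * (Nat.totient (p ^ i) : ℝ)) ≤
      Nat.totient (p ^ i) * ∑ χ, F χ := by
    calc (Nat.totient (p ^ j) : ℝ) * (η * (Nat.totient (p ^ i) : ℝ)) =
        ∑ _χ : DirichletCharacter ℂ (p ^ j), η * (Nat.totient (p ^ i) : ℝ) := by
          rw [Finset.sum_const, Finset.card_univ, hcj, nsmul_eq_mul]
      _ ≤ ∑ χ : DirichletCharacter ℂ (p ^ j), ∑ χ' : DirichletCharacter ℂ (p ^ i),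
          F (χ * DirichletCharacter.changeLevel hdi χ') := Finset.sum_le_sum fun χ _ => h3 χ
      _ = ∑ χ' : DirichletCharacter ℂ (p ^ i), ∑ χ : DirichletCharacter ℂ (p ^ j),
          F (χ * DirichletCharacter.changeLevel hdi χ') := Finset.sum_comm
      _ = ∑ _χ' : DirichletCharacter ℂ (p ^ i), ∑ χ, F χ :=
          Finset.sum_congr rfl fun χ' _ => h2 χ'
      _ = Nat.totient (p ^ i) * ∑ χ, F χ := by
          rw [Finset.sum_const, Finset.card_univ, hci, nsmul_eq_mul]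
  have hφ : (0 : ℝ) < Nat.totient (p ^ i) := by
    exact_mod_cast Nat.totient_pos.2 (pow_pos hp.pos i)
  rw [h1]
  refine le_of_mul_le_mul_left ?_ hφ
  calc (Nat.totient (p ^ i) : ℝ) * (η * (Nat.totient (p ^ j) : ℝ)) =
      (Nat.totient (p ^ j) : ℝ) * (η * (Nat.totient (p ^ i) : ℝ)) := by ring
    _ ≤ _ := h4

/-- module PAll -/
theorem all (ε : ℝ) (hε : 0 < ε) : ∃ η : ℝ, 0 < η ∧
    ∃ k₀ : ℕ, ∀ (p k j : ℕ) [Fact p.Prime], k₀ ≤ k → (1 / 3 + ε) * k ≤ j → j < k →
    ∀ (hd : p ^ j ∣ p ^ k) (ψ : DirichletCharacter ℂ (p ^ k)), ψ.IsPrimitive →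
    ∀ s : ℂ, s = 1 ∨ s = -1 → η * (Nat.totient (p ^ j) : ℝ) ≤
      Nat.card {χ : DirichletCharacter ℂ (p ^ j) // χ (-1) = s ∧ DirichletCharacter.LFunction
        (ψ * DirichletCharacter.changeLevel hd χ) (1 / 2) ≠ 0} := by
  obtain ⟨η, hη, k₁, h⟩ := thin (min ε (1 / 10)) (lt_min hε (by norm_num))
    ((min_le_right _ _).trans (by norm_num))
  refine ⟨η, hη, max k₁ 8, ?_⟩
  intro p k j _ hk hj hjk hd ψ hψ s hs
  have hk1 : k₁ ≤ k := (le_max_left _ _).trans hk
  have hk8 : 8 ≤ k := (le_max_right _ _).trans hk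
  have hkR : (8 : ℝ) ≤ k := by exact_mod_cast hk8
  have hε1 : min ε (1 / 10) ≤ ε := min_le_left _ _
  have hε2 : min ε (1 / 10 : ℝ) ≤ 1 / 10 := min_le_right _ _
  rcases Nat.lt_or_ge k (2 * j) with h2 | h2
  · have hi : (1 / 3 + min ε (1 / 10)) * (k : ℝ) ≤ ((k / 2 : ℕ) : ℝ) := by
      have h3 : (k : ℝ) ≤ 2 * ((k / 2 : ℕ) : ℝ) + 1 := by
        have : k ≤ 2 * (k / 2) + 1 := by omega
        exact_mod_cast this
      nlinarith
    exact PAll_double (i := k / 2) (by omega) hjk hd ψ hψ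
      (fun hd' ψ' hψ' => h p k (k / 2) hk1 hi (by omega) hd' ψ' hψ') s hs
  · exact h p k j hk1 (by nlinarith) h2 hd ψ hψ s hs

end Pool.Agent.NP
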