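import Pool.Agent.Lib.MP_afd523_nt_P.PDefs
import Pool.Agent.Lib.MP_afd523_nt_W.WSpace
import Pool.Agent.Lib.MP_afd523_nt_W.WTw

/-!
Project NP (MP_afd523_nt): sums over the points of the circle given by the squares.
-/

namespace Pool.Agent.NP

open Finset Complex MeasureTheory Pool.Agent.NV Pool.Agent.NVW

private theorem PFib_card0 {n N : ℕ} {S : Finset ℕ} (hS : ∀ t ∈ S, t < n * N)
    (hc : ∀ t ∈ S, ∀ t' ∈ S, (n : ℤ) ∣ (t : ℤ) - t') : S.card ≤ N := by
  rw [← Finset.card_range N]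
  refine Finset.card_le_card_of_injOn (fun t => t / n) ?_ ?_
  · intro t ht
    rw [Finset.coe_range, Set.mem_Iio]
    exact Nat.div_lt_of_lt_mul (hS t ht)
  · intro t ht t' ht' h
    simp only at h
    have h1 : t % n = t' % n := by
      have h2 : t' ≡ t [MOD n] := (Nat.modEq_iff_dvd).2 (hc t ht t' ht')
      exact h2.symm
    rw [← Nat.div_add_mod t n, ← Nat.div_add_mod t' n, h, h1]

private theorem PFib_card {p i b : ℕ} (hp : p.Prime) (hb : b ≤ i) {S : Finset ℕ}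
    (hS : ∀ t ∈ S, t < p ^ i)
    (hc : ∀ t ∈ S, ∀ t' ∈ S, ((p ^ b : ℕ) : ℤ) ∣ 2 * ((t : ℤ) - t')) :
    S.card ≤ 2 * p ^ (i - b) := by
  have hpp : 0 < p ^ (i - b) := pow_pos hp.pos _
  by_cases hp2 : p = 2
  · subst hp2
    rcases Nat.eq_zero_or_pos b with rfl | hb0
    · have h1 : S ⊆ range (2 ^ i) := fun t ht => Finset.mem_range.2 (hS t ht)
      have h2 := Finset.card_le_card h1
      rw [Finset.card_range] at h2
      rw [Nat.sub_zero]
      omega
    · obtain ⟨c, rfl⟩ : ∃ c, b = c + 1 := ⟨b - 1, by omega⟩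
      refine PFib_card0 (n := 2 ^ c) ?_ ?_
      · intro t ht
        have h1 := hS t ht
        have h2 : 2 ^ c * (2 * 2 ^ (i - (c + 1))) = 2 ^ i := by
          rw [← pow_succ', ← pow_add]
          congr 1
          omega
        omega
      · intro t ht t' ht'
        have h1 := hc t ht t' ht'
        have h2 : ((2 ^ (c + 1) : ℕ) : ℤ) = 2 * ((2 ^ c : ℕ) : ℤ) := by
          push_cast
          ring
        rw [h2] at h1
        exact Int.dvd_of_mul_dvd_mul_left (by norm_num) h1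
  · have h0 : S.card ≤ p ^ (i - b) := by
      refine PFib_card0 (n := p ^ b) ?_ ?_
      · intro t ht
        have h1 := hS t ht
        have h2 : p ^ b * p ^ (i - b) = p ^ i := by
          rw [← pow_add]
          congr 1
          omega
        omega
      · intro t ht t' ht'
        have h1 := hc t ht t' ht'
        have h2 : IsCoprime ((p ^ b : ℕ) : ℤ) 2 := by
          have h3 : Nat.Coprime (p ^ b) 2 :=
            Nat.Coprime.pow_left b ((Nat.coprime_primes hp Nat.prime_two).2 hp2)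
          exact_mod_cast Nat.isCoprime_iff_coprime.2 h3
        exact h2.dvd_of_dvd_mul_left h1
    omega

private theorem PFib_dich {p b : ℕ} (hp : p.Prime) {u v : ℤ} (hu : ¬ (p : ℤ) ∣ u)
    (hv : ¬ (p : ℤ) ∣ v) (h : ((p ^ b : ℕ) : ℤ) ∣ (u - v) * (u + v)) :
    ((p ^ b : ℕ) : ℤ) ∣ 2 * (u - v) ∨ ((p ^ b : ℕ) : ℤ) ∣ 2 * (u + v) := by
  have hpz : Prime (p : ℤ) := Nat.prime_iff_prime_int.1 hp
  by_cases hp2 : p = 2
  · subst hp2
    have hu1 : u % 2 = 1 := by
      rcases Int.emod_two_eq_zero_or_one u with h0 | h0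
      · exact absurd (Int.dvd_of_emod_eq_zero h0) hu
      · exact h0
    have hv1 : v % 2 = 1 := by
      rcases Int.emod_two_eq_zero_or_one v with h0 | h0
      · exact absurd (Int.dvd_of_emod_eq_zero h0) hv
      · exact h0
    have hodd : ∀ w : ℤ, w % 2 = 1 → IsCoprime ((2 ^ b : ℕ) : ℤ) w := by
      intro w hw
      push_cast
      refine IsCoprime.pow_left ?_
      rw [Int.isCoprime_iff_gcd_eq_one, Int.gcd_comm, ← Int.isCoprime_iff_gcd_eq_one]
      exact ⟨1, -(w / 2), by omega⟩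
    by_cases h4 : (u - v) % 4 = 0
    · left
      obtain ⟨w, hw⟩ : ∃ w, u + v = 2 * w := ⟨(u + v) / 2, by omega⟩
      have hw1 : w % 2 = 1 := by omega
      rw [hw] at h
      have h5 : ((2 ^ b : ℕ) : ℤ) ∣ w * (2 * (u - v)) := by
        have h6 : (u - v) * (2 * w) = w * (2 * (u - v)) := by ring
        rwa [h6] at h
      exact (hodd w hw1).dvd_of_dvd_mul_left h5
    · right
      obtain ⟨w, hw⟩ : ∃ w, u - v = 2 * w := ⟨(u - v) / 2, by omega⟩
      have hw1 : w % 2 = 1 := by omega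
      rw [hw] at h
      have h5 : ((2 ^ b : ℕ) : ℤ) ∣ w * (2 * (u + v)) := by
        have h6 : (2 * w) * (u + v) = w * (2 * (u + v)) := by ring
        rwa [h6] at h
      exact (hodd w hw1).dvd_of_dvd_mul_left h5
  · have h2 : ¬ ((p : ℤ) ∣ u - v ∧ (p : ℤ) ∣ u + v) := by
      rintro ⟨h3, h4⟩
      have h5 : (p : ℤ) ∣ 2 * u := by
        have := dvd_add h3 h4
        have h6 : u - v + (u + v) = 2 * u := by ring
        rwa [h6] at this
      rcases hpz.dvd_or_dvd h5 with h6 | h6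
      · have h7 : p ∣ 2 := by exact_mod_cast h6
        exact hp2 ((Nat.prime_dvd_prime_iff_eq hp Nat.prime_two).1 h7)
      · exact hu h6
    rcases not_and_or.1 h2 with h3 | h3
    · right
      have h4 : IsCoprime ((p ^ b : ℕ) : ℤ) (u - v) := by
        push_cast
        exact IsCoprime.pow_left ((Prime.coprime_iff_not_dvd hpz).2 h3)
      exact (h4.dvd_of_dvd_mul_left h).mul_left 2
    · left
      have h4 : IsCoprime ((p ^ b : ℕ) : ℤ) (u + v) := by
        push_cast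
        exact IsCoprime.pow_left ((Prime.coprime_iff_not_dvd hpz).2 h3)
      exact (h4.dvd_of_dvd_mul_right h).mul_left 2

/-- the sum over the points `ψ (1 + p^(a+i) c x^(-2))` -/
theorem fib {p k a i b : ℕ} [Fact p.Prime] (hk : k = a + i + b) (hb : b ≤ i) (ha : 1 ≤ a)
    (hi : 1 ≤ i) {ψ : DirichletCharacter ℂ (p ^ k)} (hψ : ψ.IsPrimitive) (D M x₀ : ℕ)
    (hD : D.Coprime p) (hM : M.Coprime p) {L : ℝ} (hL : 0 ≤ L) :
    ∑ s ∈ (range (p ^ i)).filter (fun s => (x₀ + M * s).Coprime p),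
      gb L (ψ (1 + (p : ZMod (p ^ k)) ^ (a + i) * (-(D * M : ZMod (p ^ k)) *
          (((x₀ + M * s : ℕ) : ZMod (p ^ k))⁻¹) ^ 2))) ≤
      4 * (p : ℝ) ^ (i - b) * (2 * L + (p : ℝ) ^ b * (1 + Real.log ((p : ℝ) ^ b))) := by
  have hp : p.Prime := Fact.out
  have hne : NeZero (p ^ k) := ⟨(pow_pos hp.pos k).ne'⟩
  have hpb : 0 < p ^ b := pow_pos hp.pos b
  obtain ⟨ζ, hζd⟩ : ∃ ζ : ℂ, ζ = ψ (1 + (p : ZMod (p ^ k)) ^ (a + i)) := ⟨_, rfl⟩
  have hζ : IsPrimitiveRoot ζ (p ^ b) := by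
    have h1 := psi_root (s := a + i) (by omega) (by omega) (by omega) hψ
    have h2 : k - (a + i) = b := by omega
    rw [hζd]
    rwa [h2] at h1
  obtain ⟨y, hy⟩ : ∃ y : ℕ → ZMod (p ^ k), y = fun s => -(D * M : ZMod (p ^ k)) *
    (((x₀ + M * s : ℕ) : ZMod (p ^ k))⁻¹) ^ 2 := ⟨_, rfl⟩
  have hz : ∀ s, ψ (1 + (p : ZMod (p ^ k)) ^ (a + i) * y s) = ζ ^ ((y s).val % p ^ b) := by
    intro s
    have h := psi_pow (s := a + i) (by omega) ψ 1 (y s).val
    rw [one_mul, ZMod.natCast_zmod_val, mul_one] at h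
    rw [h, ← hζd]
    conv_lhs => rw [← Nat.mod_add_div (y s).val (p ^ b), pow_add, pow_mul, hζ.pow_eq_one, one_pow,
      mul_one]
  obtain ⟨F, hF⟩ : ∃ F : Finset ℕ, F = (range (p ^ i)).filter
    (fun s => (x₀ + M * s).Coprime p) := ⟨_, rfl⟩
  have hunit : ∀ s ∈ F, IsUnit ((x₀ + M * s : ℕ) : ZMod (p ^ k)) := by
    intro s hs
    rw [hF, Finset.mem_filter] at hs
    exact (ZMod.isUnit_iff_coprime _ _).2 (hs.2.pow_right k)
  have hDM : IsUnit (-(D * M : ZMod (p ^ k))) := by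
    have h1 : IsUnit ((D * M : ℕ) : ZMod (p ^ k)) :=
      (ZMod.isUnit_iff_coprime _ _).2 ((Nat.Coprime.mul_left hD hM).pow_right k)
    push_cast at h1
    exact h1.neg
  -- the fibres
  have hfib : ∀ r, (F.filter (fun s => (y s).val % p ^ b = r)).card ≤ 4 * p ^ (i - b) := by
    intro r
    rcases (F.filter (fun s => (y s).val % p ^ b = r)).eq_empty_or_nonempty with h0 | ⟨s₁, hs₁⟩
    · rw [h0]
      simp
    have hlt : ∀ s ∈ F.filter (fun s => (y s).val % p ^ b = r), s < p ^ i := by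
      intro s hs
      rw [Finset.mem_filter, hF, Finset.mem_filter, Finset.mem_range] at hs
      exact hs.1.1
    have hnd : ∀ s ∈ F.filter (fun s => (y s).val % p ^ b = r),
        ¬ (p : ℤ) ∣ ((x₀ + M * s : ℕ) : ℤ) := by
      intro s hs h1
      rw [Finset.mem_filter, hF, Finset.mem_filter] at hs
      have h2 : p ∣ x₀ + M * s := by exact_mod_cast h1
      have h3 := hs.1.2
      rw [Nat.coprime_comm] at h3
      exact (Nat.Prime.coprime_iff_not_dvd hp).1 h3 h2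
    have hsq : ∀ s ∈ F.filter (fun s => (y s).val % p ^ b = r),
        ((p ^ b : ℕ) : ℤ) ∣ (((x₀ + M * s : ℕ) : ℤ) - ((x₀ + M * s₁ : ℕ) : ℤ)) *
          (((x₀ + M * s : ℕ) : ℤ) + ((x₀ + M * s₁ : ℕ) : ℤ)) := by
      intro s hs
      rw [Finset.mem_filter] at hs
      rw [Finset.mem_filter] at hs₁
      have hm : (y s).val % p ^ b = (y s₁).val % p ^ b := by rw [hs.2, hs₁.2]
      have h1 : ((p ^ b : ℕ) : ℤ) ∣ ((y s₁).val : ℤ) - ((y s).val : ℤ) :=
        (Nat.modEq_iff_dvd).1 hm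
      obtain ⟨c, hc⟩ := h1
      have h2 : y s₁ - y s = ((p ^ b : ℕ) : ZMod (p ^ k)) * (c : ZMod (p ^ k)) := by
        have h3 := congrArg (fun z : ℤ => (z : ZMod (p ^ k))) hc
        simp only [Int.cast_sub, Int.cast_mul, Int.cast_natCast, ZMod.natCast_zmod_val] at h3
        exact h3
      have e1 := ZMod.mul_inv_of_unit _ (hunit s hs.1)
      have e2 := ZMod.mul_inv_of_unit _ (hunit s₁ hs₁.1)
      have e3 := ZMod.mul_inv_of_unit _ hDM
      rw [hy] at h2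
      simp only at h2
      obtain ⟨X, hX⟩ : ∃ X : ZMod (p ^ k), X = ((x₀ + M * s : ℕ) : ZMod (p ^ k)) := ⟨_, rfl⟩
      obtain ⟨X₁, hX₁⟩ : ∃ X : ZMod (p ^ k), X = ((x₀ + M * s₁ : ℕ) : ZMod (p ^ k)) := ⟨_, rfl⟩
      obtain ⟨E, hE⟩ : ∃ E : ZMod (p ^ k), E = -(D * M : ZMod (p ^ k)) := ⟨_, rfl⟩
      rw [← hX] at h2 e1
      rw [← hX₁] at h2 e2
      rw [← hE] at h2 e3
      have h4 : (X - X₁) * (X + X₁) = ((p ^ b : ℕ) : ZMod (p ^ k)) *
          ((c : ZMod (p ^ k)) * E⁻¹ * X ^ 2 * X₁ ^ 2) := by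
        linear_combination (E⁻¹ * X ^ 2 * X₁ ^ 2) * h2 -
          X ^ 2 * e3 + X₁ ^ 2 * e3 -
          (X ^ 2 * (E * E⁻¹) * (X₁ * X₁⁻¹ + 1)) * e2 +
          (X₁ ^ 2 * (E * E⁻¹) * (X * X⁻¹ + 1)) * e1
      obtain ⟨w, hw⟩ : ∃ w : ZMod (p ^ k), w = (c : ZMod (p ^ k)) * E⁻¹ * X ^ 2 * X₁ ^ 2 := ⟨_, rfl⟩
      have h5 : (((((x₀ + M * s : ℕ) : ℤ) - ((x₀ + M * s₁ : ℕ) : ℤ)) *
          (((x₀ + M * s : ℕ) : ℤ) + ((x₀ + M * s₁ : ℕ) : ℤ)) : ℤ) : ZMod (p ^ k)) =
          ((((p ^ b : ℕ) : ℤ) * (w.val : ℤ) : ℤ) : ZMod (p ^ k)) := by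
        rw [Int.cast_mul, Int.cast_sub, Int.cast_add, Int.cast_natCast, Int.cast_natCast,
          Int.cast_mul, Int.cast_natCast, Int.cast_natCast, ZMod.natCast_zmod_val, ← hX, ← hX₁, h4,
          hw]
      have h6 := (ZMod.intCast_eq_intCast_iff_dvd_sub _ _ _).1 h5
      have h7 : ((p ^ b : ℕ) : ℤ) ∣ ((p ^ k : ℕ) : ℤ) := by
        exact_mod_cast pow_dvd_pow p (by omega : b ≤ k)
      have h8 := h7.trans h6
      have h9 : ((p ^ b : ℕ) : ℤ) ∣ ((p ^ b : ℕ) : ℤ) * (w.val : ℤ) := dvd_mul_right _ _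
      have := dvd_sub h9 h8
      simpa using this
    obtain ⟨A, hA⟩ : ∃ A : Finset ℕ, A = (F.filter (fun s => (y s).val % p ^ b = r)).filter
      (fun s => ((p ^ b : ℕ) : ℤ) ∣ 2 * (((x₀ + M * s : ℕ) : ℤ) - ((x₀ + M * s₁ : ℕ) : ℤ))) :=
      ⟨_, rfl⟩
    obtain ⟨B, hB⟩ : ∃ B : Finset ℕ, B = (F.filter (fun s => (y s).val % p ^ b = r)).filter
      (fun s => ((p ^ b : ℕ) : ℤ) ∣ 2 * (((x₀ + M * s : ℕ) : ℤ) + ((x₀ + M * s₁ : ℕ) : ℤ))) :=
      ⟨_, rfl⟩
    have hsub : F.filter (fun s => (y s).val % p ^ b = r) ⊆ A ∪ B := by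
      intro s hs
      rw [Finset.mem_union, hA, hB]
      rcases PFib_dich hp (hnd s hs) (hnd s₁ hs₁) (hsq s hs) with h1 | h1
      · exact Or.inl (Finset.mem_filter.2 ⟨hs, h1⟩)
      · exact Or.inr (Finset.mem_filter.2 ⟨hs, h1⟩)
    have hMc : IsCoprime ((p ^ b : ℕ) : ℤ) (M : ℤ) := by
      exact_mod_cast Nat.isCoprime_iff_coprime.2 (hM.symm.pow_left b)
    have hAc : A.card ≤ 2 * p ^ (i - b) := by
      refine PFib_card hp hb ?_ ?_
      · intro t ht
        rw [hA, Finset.mem_filter] at ht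
        exact hlt t ht.1
      · intro t ht t' ht'
        rw [hA, Finset.mem_filter] at ht ht'
        have h1 := dvd_sub ht.2 ht'.2
        have h2 : 2 * (((x₀ + M * t : ℕ) : ℤ) - ((x₀ + M * s₁ : ℕ) : ℤ)) -
            2 * (((x₀ + M * t' : ℕ) : ℤ) - ((x₀ + M * s₁ : ℕ) : ℤ)) =
            (M : ℤ) * (2 * ((t : ℤ) - t')) := by
          push_cast
          ring
        rw [h2] at h1
        exact hMc.dvd_of_dvd_mul_left h1
    have hBc : B.card ≤ 2 * p ^ (i - b) := by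
      refine PFib_card hp hb ?_ ?_
      · intro t ht
        rw [hB, Finset.mem_filter] at ht
        exact hlt t ht.1
      · intro t ht t' ht'
        rw [hB, Finset.mem_filter] at ht ht'
        have h1 := dvd_sub ht.2 ht'.2
        have h2 : 2 * (((x₀ + M * t : ℕ) : ℤ) + ((x₀ + M * s₁ : ℕ) : ℤ)) -
            2 * (((x₀ + M * t' : ℕ) : ℤ) + ((x₀ + M * s₁ : ℕ) : ℤ)) =
            (M : ℤ) * (2 * ((t : ℤ) - t')) := by
          push_cast
          ring
        rw [h2] at h1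
        exact hMc.dvd_of_dvd_mul_left h1
    have h1 := Finset.card_le_card hsub
    have h2 := Finset.card_union_le A B
    omega
  rw [← hF]
  calc ∑ s ∈ F, gb L (ψ (1 + (p : ZMod (p ^ k)) ^ (a + i) * (-(D * M : ZMod (p ^ k)) *
          (((x₀ + M * s : ℕ) : ZMod (p ^ k))⁻¹) ^ 2)))
      = ∑ s ∈ F, gb L (ζ ^ ((y s).val % p ^ b)) := by
        refine Finset.sum_congr rfl fun s _ => ?_
        rw [← hz s, hy]
    _ = ∑ r ∈ range (p ^ b), ∑ s ∈ F.filter (fun s => (y s).val % p ^ b = r),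
          gb L (ζ ^ ((y s).val % p ^ b)) :=
        (Finset.sum_fiberwise_of_maps_to
          (fun s _ => Finset.mem_range.2 (Nat.mod_lt _ hpb)) _).symm
    _ = ∑ r ∈ range (p ^ b), ((F.filter (fun s => (y s).val % p ^ b = r)).card : ℝ) *
          gb L (ζ ^ r) := by
        refine Finset.sum_congr rfl fun r _ => ?_
        rw [← nsmul_eq_mul, ← Finset.sum_const]
        refine Finset.sum_congr rfl fun s hs => ?_
        rw [(Finset.mem_filter.1 hs).2]
    _ ≤ ∑ r ∈ range (p ^ b), (4 * (p : ℝ) ^ (i - b)) * gb L (1 * ζ ^ r) := by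
        refine Finset.sum_le_sum fun r _ => ?_
        rw [one_mul]
        refine mul_le_mul_of_nonneg_right ?_ (gb_nonneg hL _).1
        have h1 := hfib r
        exact_mod_cast h1
    _ = (4 * (p : ℝ) ^ (i - b)) * ∑ r ∈ range (p ^ b), gb L (1 * ζ ^ r) := by
        rw [Finset.mul_sum]
    _ ≤ (4 * (p : ℝ) ^ (i - b)) *
        (2 * L + (p ^ b : ℕ) * (1 + Real.log ((p ^ b : ℕ)))) := by
        refine mul_le_mul_of_nonneg_left ?_ (by positivity)
        exact space hpb (by simp) hζ hL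
    _ = _ := by push_cast; ring

end Pool.Agent.NP
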