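import Pool.Agent.Lib.MP_afd523_nt_P.PLin
import Pool.Agent.Lib.MP_afd523_nt_P.PFib

/-!
Project NP (MP_afd523_nt): the correlation sums.
-/

namespace Pool.Agent.NP

open Finset Complex MeasureTheory Pool.Agent.NV Pool.Agent.NVW

private theorem PCorr_norm {p k : ℕ} [Fact p.Prime] {s : ℕ} (hs : k ≤ 2 * s)
    (ψ : DirichletCharacter ℂ (p ^ k)) (a : ZMod (p ^ k)) :
    ‖ψ (1 + (p : ZMod (p ^ k)) ^ s * a)‖ = 1 := by
  have hp : p.Prime := Fact.out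
  refine norm_eq_one_of_pow_eq_one (n := p ^ k) ?_ (pow_pos hp.pos k).ne'
  rw [← psi_pow hs]
  have : ((p ^ k : ℕ) : ZMod (p ^ k)) = 0 := ZMod.natCast_self _
  rw [this, mul_zero, mul_zero, add_zero, map_one]

/-- the correlation with a given valuation -/
theorem corr2 {p k a i b : ℕ} [Fact p.Prime] (hk : k = a + i + b) (hb : b ≤ i) (ha : 1 ≤ a)
    (hi : 1 ≤ i) (h2 : k ≤ 2 * a + i) {ψ : DirichletCharacter ℂ (p ^ k)} (hψ : ψ.IsPrimitive)
    (x₀ M D S : ℕ) (hD : D.Coprime p) (hM : M.Coprime p) :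
    ‖∑ s ∈ range S, ψ ((x₀ + M * s + p ^ a * D : ℕ) : ZMod (p ^ k)) *
      (starRingEnd ℂ) (ψ ((x₀ + M * s : ℕ) : ZMod (p ^ k)))‖ ≤
      4 * (p : ℝ) ^ (i - b) * (2 * ((S : ℝ) / (p : ℝ) ^ i + 1) +
        (p : ℝ) ^ b * (1 + Real.log ((p : ℝ) ^ b))) := by
  have hp : p.Prime := Fact.out
  obtain ⟨P, hP⟩ : ∃ P, P = p ^ i := ⟨_, rfl⟩
  have hP0 : 0 < P := hP ▸ pow_pos hp.pos i
  obtain ⟨F, hF⟩ : ∃ F : ℕ → ℂ, F = fun s => ψ ((x₀ + M * s + p ^ a * D : ℕ) : ZMod (p ^ k)) *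
      (starRingEnd ℂ) (ψ ((x₀ + M * s : ℕ) : ZMod (p ^ k))) := ⟨_, rfl⟩
  obtain ⟨z, hz⟩ : ∃ z : ℕ → ℂ, z = fun s => ψ (1 + (p : ZMod (p ^ k)) ^ (a + i) *
      (-(D * M : ZMod (p ^ k)) * (((x₀ + M * s : ℕ) : ZMod (p ^ k))⁻¹) ^ 2)) := ⟨_, rfl⟩
  obtain ⟨L, hLdef⟩ : ∃ L : ℝ, L = (S : ℝ) / (p : ℝ) ^ i + 1 := ⟨_, rfl⟩
  have hL : 0 ≤ L := by rw [hLdef]; positivity
  -- number of terms of a progression
  obtain ⟨N, hN⟩ : ∃ N : ℕ → ℕ, N = fun t₀ => if t₀ < S then (S - 1 - t₀) / P + 1 else 0 :=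
    ⟨_, rfl⟩
  have hNiff : ∀ t₀ t₁ : ℕ, t₁ < N t₀ ↔ t₀ + P * t₁ < S := by
    intro t₀ t₁
    simp only [hN]
    split_ifs with h1
    · rw [Nat.lt_add_one_iff, Nat.le_div_iff_mul_le hP0, mul_comm t₁ P]
      omega
    · constructor
      · intro h2; omega
      · intro h2
        have : 0 ≤ P * t₁ := Nat.zero_le _
        omega
  have hNle : ∀ t₀, (N t₀ : ℝ) ≤ L := by
    intro t₀
    simp only [hN]
    split_ifs with h1
    · push_cast
      rw [hLdef]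
      have h2 : (((S - 1 - t₀) / P : ℕ) : ℝ) ≤ ((S - 1 - t₀ : ℕ) : ℝ) / (P : ℝ) := Nat.cast_div_le
      have h3 : ((S - 1 - t₀ : ℕ) : ℝ) / (P : ℝ) ≤ (S : ℝ) / (P : ℝ) := by
        have h4 : ((S - 1 - t₀ : ℕ) : ℝ) ≤ S := by exact_mod_cast (by omega : S - 1 - t₀ ≤ S)
        gcongr
      have h5 : (P : ℝ) = (p : ℝ) ^ i := by rw [hP]; push_cast; rfl
      rw [h5] at h2 h3
      linarith
    · simp only [Nat.cast_zero]; exact hL
  have hsplit : ∑ t ∈ range S, F t = ∑ t₀ ∈ range P, ∑ t₁ ∈ range (N t₀), F (t₀ + P * t₁) := by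
    rw [← Finset.sum_fiberwise_of_maps_to (s := range S) (t := range P) (g := fun t => t % P)
      (fun t _ => Finset.mem_range.2 (Nat.mod_lt t hP0))]
    refine Finset.sum_congr rfl fun t₀ ht₀ => ?_
    rw [Finset.mem_range] at ht₀
    refine Finset.sum_nbij' (fun t => t / P) (fun t₁ => t₀ + P * t₁) ?_ ?_ ?_ ?_ ?_
    · intro t ht
      rw [Finset.mem_filter, Finset.mem_range] at ht
      rw [Finset.mem_range, hNiff, ← ht.2, Nat.mod_add_div]
      exact ht.1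
    · intro t₁ ht₁
      rw [Finset.mem_range, hNiff] at ht₁
      rw [Finset.mem_filter, Finset.mem_range]
      refine ⟨ht₁, ?_⟩
      rw [Nat.add_mul_mod_self_left, Nat.mod_eq_of_lt ht₀]
    · intro t ht
      rw [Finset.mem_filter] at ht
      rw [← ht.2, Nat.mod_add_div]
    · intro t₁ _
      rw [Nat.add_mul_div_left _ _ hP0, Nat.div_eq_of_lt ht₀, zero_add]
    · intro t ht
      rw [Finset.mem_filter] at ht
      rw [← ht.2, Nat.mod_add_div]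
  have hz1 : ∀ t, ‖z t‖ = 1 := by
    intro t
    rw [hz]
    exact PCorr_norm (by omega) ψ _
  have hin : ∀ t₀ : ℕ, ‖∑ t₁ ∈ range (N t₀), F (t₀ + P * t₁)‖ ≤
      if (x₀ + M * t₀).Coprime p then gb L (z t₀) else 0 := by
    intro t₀
    split_ifs with hc
    · have h1 : ∑ t₁ ∈ range (N t₀), F (t₀ + P * t₁) =
          F t₀ * ∑ t₁ ∈ range (N t₀), z t₀ ^ t₁ := by
        rw [Finset.mul_sum]
        refine Finset.sum_congr rfl fun t₁ _ => ?_
        simp only [hF, hP, hz]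
        have h3 := lin2 ha hi (by omega) h2 ψ (x₀ + M * t₀) D M t₁ hc
        have h4 : x₀ + M * (t₀ + p ^ i * t₁) = x₀ + M * t₀ + M * (p ^ i * t₁) := by ring
        rw [h4]
        exact h3
      rw [h1, norm_mul]
      have h2 : ‖F t₀‖ ≤ 1 := by
        simp only [hF]
        rw [norm_mul, RCLike.norm_conj]
        exact mul_le_one₀ (ψ.norm_le_one _) (norm_nonneg _) (ψ.norm_le_one _)
      calc ‖F t₀‖ * ‖∑ t₁ ∈ range (N t₀), z t₀ ^ t₁‖
          ≤ 1 * ‖∑ t₁ ∈ range (N t₀), z t₀ ^ t₁‖ :=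
            mul_le_mul_of_nonneg_right h2 (norm_nonneg _)
        _ ≤ gb L (z t₀) := by
            rw [one_mul]
            exact geo_le (hz1 t₀) _ (hNle t₀)
    · have h1 : ∀ t₁ ∈ range (N t₀), F (t₀ + P * t₁) = 0 := by
        intro t₁ _
        simp only [hF]
        have h3 : ¬ IsUnit ((x₀ + M * (t₀ + P * t₁) : ℕ) : ZMod (p ^ k)) := by
          rw [ZMod.isUnit_iff_coprime]
          intro h4
          have h5 : (x₀ + M * (t₀ + P * t₁)).Coprime p :=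
            Nat.Coprime.coprime_dvd_right (dvd_pow_self p (by omega)) h4
          apply hc
          obtain ⟨c, hc'⟩ : p ∣ P := hP ▸ dvd_pow_self p (by omega)
          have h6 : x₀ + M * (t₀ + P * t₁) = x₀ + M * t₀ + p * (M * c * t₁) := by
            rw [hc']
            ring
          rw [h6] at h5
          simpa using h5
        rw [MulChar.map_nonunit ψ h3]
        simp
      rw [Finset.sum_eq_zero h1]
      simp
  have hFS : ∑ s ∈ range S, ψ ((x₀ + M * s + p ^ a * D : ℕ) : ZMod (p ^ k)) *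
      (starRingEnd ℂ) (ψ ((x₀ + M * s : ℕ) : ZMod (p ^ k))) = ∑ t ∈ range S, F t := by
    rw [hF]
  rw [hFS, hsplit]
  refine (norm_sum_le _ _).trans ?_
  refine (Finset.sum_le_sum fun t₀ _ => hin t₀).trans ?_
  rw [← Finset.sum_filter, hP, hz]
  have h3 := fib hk hb ha hi hψ D M x₀ hD hM hL
  rw [← hLdef]
  exact h3

/-- the bound of the correlation sums -/
theorem corr3 {p k j : ℕ} [Fact p.Prime] (hj : k ≤ 3 * j) (hj1 : 1 ≤ j)
    {ψ : DirichletCharacter ℂ (p ^ k)} (hψ : ψ.IsPrimitive) (x₀ M D S : ℕ) (hM : M.Coprime p)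
    (hD0 : 1 ≤ D) (hD : p ^ j ∣ D) (hDk : D < p ^ k) :
    ‖∑ s ∈ range S, ψ ((x₀ + M * s + D : ℕ) : ZMod (p ^ k)) *
      (starRingEnd ℂ) (ψ ((x₀ + M * s : ℕ) : ZMod (p ^ k)))‖ ≤
      8 * p * (S * √((D : ℝ) / (p : ℝ) ^ k) + 1 +
        √((p : ℝ) ^ k / (p : ℝ) ^ j) * (1 + Real.log ((p : ℝ) ^ k))) := by
  have hp : p.Prime := Fact.out
  have hp0 : (0 : ℝ) < p := by exact_mod_cast hp.pos
  have hp1 : (1 : ℝ) ≤ p := by exact_mod_cast hp.one_le
  obtain ⟨a, D', hD', hDe⟩ : ∃ a D', ¬ p ∣ D' ∧ D = p ^ a * D' :=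
    Nat.exists_eq_pow_mul_and_not_dvd (by omega) p hp.ne_one
  have hD'0 : 0 < D' := by
    rcases Nat.eq_zero_or_pos D' with h | h
    · rw [h] at hD'
      exact absurd (dvd_zero p) hD'
    · exact h
  have haj : j ≤ a := by
    by_contra hlt
    push Not at hlt
    rw [hDe] at hD
    have h1 : p ^ a * p ∣ p ^ a * D' := by
      refine dvd_trans ?_ hD
      rw [← pow_succ]
      exact pow_dvd_pow p hlt
    exact hD' (Nat.dvd_of_mul_dvd_mul_left (pow_pos hp.pos a) h1)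
  have hpaD : p ^ a ≤ D := by
    rw [hDe]
    exact Nat.le_mul_of_pos_right _ hD'0
  have hak : a < k := by
    by_contra hge
    push Not at hge
    have := Nat.pow_le_pow_right hp.pos hge
    omega
  obtain ⟨b, hbd⟩ : ∃ b, b = (k - a) / 2 := ⟨_, rfl⟩
  obtain ⟨i, hid⟩ : ∃ i, i = k - a - b := ⟨_, rfl⟩
  have hk : k = a + i + b := by omega
  have hbi : b ≤ i := by omega
  have hi1 : 1 ≤ i := by omega
  have hib : i - b ≤ 1 := by omega
  have h2 : k ≤ 2 * a + i := by omega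
  have hcop : D'.Coprime p := by
    rw [Nat.coprime_comm]
    exact (Nat.Prime.coprime_iff_not_dvd hp).2 hD'
  have h := corr2 hk hbi (by omega) hi1 h2 hψ x₀ M D' S hcop hM
  rw [← hDe] at h
  refine h.trans ?_
  have e1 : (p : ℝ) ^ (i - b) ≤ p := by
    calc (p : ℝ) ^ (i - b) ≤ (p : ℝ) ^ 1 := pow_le_pow_right₀ hp1 hib
      _ = p := pow_one _
  have hpk : (0 : ℝ) < (p : ℝ) ^ k := by positivity
  -- S / p^i
  have e2 : 1 / (p : ℝ) ^ i ≤ √((D : ℝ) / (p : ℝ) ^ k) := by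
    apply Real.le_sqrt_of_sq_le
    rw [div_pow, one_pow, div_le_div_iff₀ (by positivity) hpk, one_mul]
    have h3 : (p : ℝ) ^ k ≤ (p : ℝ) ^ a * ((p : ℝ) ^ i) ^ 2 := by
      rw [← pow_mul, ← pow_add]
      exact pow_le_pow_right₀ hp1 (by omega)
    have h4 : (p : ℝ) ^ a ≤ D := by exact_mod_cast hpaD
    calc (p : ℝ) ^ k ≤ (p : ℝ) ^ a * ((p : ℝ) ^ i) ^ 2 := h3
      _ ≤ D * ((p : ℝ) ^ i) ^ 2 := mul_le_mul_of_nonneg_right h4 (by positivity)
  have e3 : (p : ℝ) ^ b ≤ √((p : ℝ) ^ k / (p : ℝ) ^ j) := by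
    apply Real.le_sqrt_of_sq_le
    rw [le_div_iff₀ (by positivity), ← pow_mul, ← pow_add]
    exact pow_le_pow_right₀ hp1 (by omega)
  have e4 : Real.log ((p : ℝ) ^ b) ≤ Real.log ((p : ℝ) ^ k) :=
    Real.log_le_log (by positivity) (pow_le_pow_right₀ hp1 (by omega))
  have e5 : 0 ≤ Real.log ((p : ℝ) ^ b) := Real.log_nonneg (one_le_pow₀ hp1)
  have e6 : (S : ℝ) / (p : ℝ) ^ i ≤ S * √((D : ℝ) / (p : ℝ) ^ k) := by
    rw [div_eq_mul_one_div]
    exact mul_le_mul_of_nonneg_left e2 (Nat.cast_nonneg S)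
  have e7 : (p : ℝ) ^ b * (1 + Real.log ((p : ℝ) ^ b)) ≤
      √((p : ℝ) ^ k / (p : ℝ) ^ j) * (1 + Real.log ((p : ℝ) ^ k)) :=
    mul_le_mul e3 (by linarith) (by linarith) (Real.sqrt_nonneg _)
  have e8 : 0 ≤ √((p : ℝ) ^ k / (p : ℝ) ^ j) * (1 + Real.log ((p : ℝ) ^ k)) :=
    mul_nonneg (Real.sqrt_nonneg _) (by linarith)
  calc 4 * (p : ℝ) ^ (i - b) * (2 * ((S : ℝ) / (p : ℝ) ^ i + 1) +
        (p : ℝ) ^ b * (1 + Real.log ((p : ℝ) ^ b)))
      ≤ 4 * p * (2 * (S * √((D : ℝ) / (p : ℝ) ^ k) + 1) +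
        2 * (√((p : ℝ) ^ k / (p : ℝ) ^ j) * (1 + Real.log ((p : ℝ) ^ k)))) := by
        apply mul_le_mul
        · linarith
        · linarith
        · positivity
        · positivity
    _ = _ := by ring

end Pool.Agent.NP
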