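import Pool.Agent.Lib.MP_afd523_nt.Defs

/-!
Project NP (MP_afd523_nt): a positive proportion of non-vanishing in thin cosets modulo prime
powers. Definitions. The numerical objects of project NV (`lamq`, `Phi`, `CN`, `yy`, `ww`) are
used with a parameter `Q` which is a small power of the modulus.
-/

namespace Pool.Agent.NP

open Finset Complex MeasureTheory Pool.Agent.NV

noncomputable section

/-- the length of the mollifier: `⌊y ^ 2⌋`, `y = Q ^ (1 / 100)` -/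
def YY (Q : ℕ) : ℕ := ⌊yy Q ^ 2⌋₊

/-- the mollifier of a function -/
def MF (Q : ℕ) (f : ℕ → ℂ) : ℂ :=
  ∑ m ∈ Icc 1 (YY Q), (lamq Q m : ℂ) * f m / (√(m : ℝ) : ℂ)

/-- the length of the smoothed sums -/
def NN (Q : ℕ) (R : ℝ) : ℕ := ⌊R * (Q : ℝ) ^ (51 / 100 : ℝ)⌋₊

/-- the smoothed sum of length about `R Q ^ (1 / 2)` -/
def SF (μ : Measure ℝ) (Q : ℕ) (R : ℝ) (f : ℕ → ℂ) : ℂ :=
  ∑ n ∈ Icc 1 (NN Q R), (Phi μ Q R n : ℂ) * f n / (√(n : ℝ) : ℂ)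

/-- the part of the second moment with `m₁ n₁ = m₂ n₂ + D` -/
def TT {q : ℕ} (ψ : DirichletCharacter ℂ q) (g : ℕ → ℝ) (N m₁ m₂ D : ℕ) : ℂ :=
  ∑ n₁ ∈ Icc 1 N, ∑ n₂ ∈ Icc 1 N, if m₁ * n₁ = m₂ * n₂ + D then
    (g n₁ : ℂ) * (g n₂ : ℂ) * (ψ ((m₂ * n₂ + D : ℕ) : ZMod q) *
      (starRingEnd ℂ) (ψ ((m₂ * n₂ : ℕ) : ZMod q))) else 0

/-- the parameter `Q` -/
def QQ (ε : ℝ) (q : ℕ) : ℕ := ⌊(q : ℝ) ^ (ε / 20)⌋₊

end

end Pool.Agent.NP
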