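import Pool.Agent.Lib.MP_afd523_nt_P.PDefs
import Pool.Agent.Lib.MP_afd523_nt.Diag

/-!
Project NP (MP_afd523_nt): the diagonal sums for smoothed sums of any polynomial length.
-/

namespace Pool.Agent.NP

open Finset Complex MeasureTheory Pool.Agent.NV

private theorem PDiag_rank (B : ℝ) (hB : 1 ≤ B) : ∃ q₀ : ℕ, ∀ q : ℕ, q₀ ≤ q → ∀ X : ℕ,
    (X : ℝ) ≤ (q : ℝ) ^ B →
    ∑ g ∈ (Icc 1 X).filter (fun g => yy q < (sm (ww q) g : ℝ)),
      (g.divisors.card : ℝ) ^ 2 / g ≤ B ^ 4 := by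
  obtain ⟨M, hM0, hM⟩ := rank_final
  refine ⟨⌈Real.exp M⌉₊, fun q hq X hX => ?_⟩
  have hqe : Real.exp M ≤ q := (Nat.le_ceil _).trans (by exact_mod_cast hq)
  have hq0 : (0 : ℝ) < q := lt_of_lt_of_le (Real.exp_pos _) hqe
  have hq1 : 1 ≤ q := by
    have : 0 < q := by exact_mod_cast hq0
    omega
  have hq1' : (1 : ℝ) ≤ q := by exact_mod_cast hq1
  obtain ⟨L, hLdef⟩ : ∃ L : ℝ, L = Real.log q := ⟨_, rfl⟩
  have hL : M ≤ L := by
    rw [hLdef, Real.le_log_iff_exp_le hq0]; exact hqe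
  have hL0 : 0 ≤ L := le_trans hM0 hL
  obtain ⟨E, hE⟩ : ∃ E : ℝ, E = (q : ℝ) ^ (2 * kap - (1 / 100 - kap) / 600) := ⟨_, rfl⟩
  have hE0 : 0 ≤ E := by rw [hE]; positivity
  have hB4 : 0 < B ^ 4 := by positivity
  have hkap : ((1 : ℕ) : ℝ) ≤ (q : ℝ) ^ kap := by
    rw [Nat.cast_one]
    exact Real.one_le_rpow hq1' (by unfold kap; norm_num)
  have h1 : ∑ g ∈ (Icc 1 X).filter (fun g => yy q < (sm (ww q) g : ℝ)),
      (g.divisors.card : ℝ) ^ 2 / g ≤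
      E * ∑ g ∈ Icc 1 X, rankF (sm (ww q) g) *
        (fun r : ℕ => ((r.divisors.card : ℝ) ^ 2 / (r : ℝ))) (ro (ww q) g) := by
    calc ∑ g ∈ (Icc 1 X).filter (fun g => yy q < (sm (ww q) g : ℝ)),
          (g.divisors.card : ℝ) ^ 2 / g
        ≤ ∑ g ∈ (Icc 1 X).filter (fun g => yy q < (sm (ww q) g : ℝ)),
          E * (rankF (sm (ww q) g) *
            (((ro (ww q) g).divisors.card : ℝ) ^ 2 / (ro (ww q) g : ℝ))) := by
          refine sum_le_sum (fun g hg => ?_)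
          rw [mem_filter, mem_Icc] at hg
          have h2 := rank_point (w := ww q) (a := 1) hq1 le_rfl hkap hg.1.1
            (by rw [one_mul]; exact hg.2)
          rw [one_mul] at h2
          rw [hE]
          exact h2
      _ ≤ ∑ g ∈ Icc 1 X, E * (rankF (sm (ww q) g) *
            (((ro (ww q) g).divisors.card : ℝ) ^ 2 / (ro (ww q) g : ℝ))) :=
          sum_le_sum_of_subset_of_nonneg (filter_subset _ _)
            (fun g _ _ => mul_nonneg hE0 (mul_nonneg (rankF_nonneg _) (by positivity)))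
      _ = _ := by rw [← mul_sum]
  have h2 := sum_split (ww q) X rankF (fun r : ℕ => ((r.divisors.card : ℝ) ^ 2 / (r : ℝ)))
    rankF_nonneg (fun r => by positivity)
  have h3 := rank_smooth (ww q) X
  have hlogX : Real.log X ≤ B * L := by
    rcases Nat.eq_zero_or_pos X with rfl | hX0
    · simp only [Nat.cast_zero, Real.log_zero]
      positivity
    · have h5 := Real.log_le_log (by exact_mod_cast hX0) hX
      rw [Real.log_rpow hq0, ← hLdef] at h5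
      exact h5
  have hlogX0 : 0 ≤ Real.log X := Real.log_natCast_nonneg X
  have h4 : ∑ r ∈ (Icc 1 X).filter (fun r => ro (ww q) r = r),
      (fun r : ℕ => ((r.divisors.card : ℝ) ^ 2 / (r : ℝ))) r ≤ B ^ 4 * (1 + L) ^ 4 := by
    refine (sum_le_sum_of_subset_of_nonneg (filter_subset _ _)
      (fun g _ _ => by positivity)).trans ((sum_tau_sq X).trans ?_)
    rw [← mul_pow]
    apply pow_le_pow_left₀ (by linarith)
    nlinarith
  have hw : ((ww q : ℕ) : ℝ) ^ (1 / 600 : ℝ) ≤ Real.sqrt L := by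
    have hw1 : ((ww q : ℕ) : ℝ) ≤ L ^ 300 := by
      rw [hLdef] at hL0 ⊢
      exact Nat.floor_le (by positivity)
    calc ((ww q : ℕ) : ℝ) ^ (1 / 600 : ℝ) ≤ (L ^ 300) ^ (1 / 600 : ℝ) :=
          Real.rpow_le_rpow (by positivity) hw1 (by norm_num)
      _ = Real.sqrt L := by
          rw [← Real.rpow_natCast, ← Real.rpow_mul hL0, Real.sqrt_eq_rpow]
          norm_num
  have h5 : (1 + L) ^ 4 ≤ Real.exp (8 * Real.sqrt L) := by
    have hs0 := Real.sqrt_nonneg L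
    have hsq : Real.sqrt L * Real.sqrt L = L := Real.mul_self_sqrt hL0
    calc (1 + L) ^ 4 ≤ ((1 + Real.sqrt L) ^ 2) ^ 4 := by
          gcongr
          nlinarith
      _ = (1 + Real.sqrt L) ^ 8 := by ring
      _ ≤ (Real.exp (Real.sqrt L)) ^ 8 := by
          gcongr
          rw [add_comm]
          exact Real.add_one_le_exp _
      _ = Real.exp (8 * Real.sqrt L) := by
          rw [← Real.exp_nat_mul]; norm_num
  have hEexp : E = Real.exp ((2 * kap - (1 / 100 - kap) / 600) * L) := by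
    rw [hE, Real.rpow_def_of_pos hq0, mul_comm, hLdef]
  obtain ⟨S, hS⟩ : ∃ S : ℝ, S = ∑ g ∈ (Icc 1 X).filter (fun g => yy q < (sm (ww q) g : ℝ)),
      (g.divisors.card : ℝ) ^ 2 / g := ⟨_, rfl⟩
  obtain ⟨T, hT⟩ : ∃ T : ℝ, T = ∑ g ∈ Icc 1 X, rankF (sm (ww q) g) *
        (fun r : ℕ => ((r.divisors.card : ℝ) ^ 2 / (r : ℝ))) (ro (ww q) g) := ⟨_, rfl⟩
  obtain ⟨S2, hS2⟩ : ∃ S2 : ℝ, S2 = ∑ r ∈ (Icc 1 X).filter (fun r => ro (ww q) r = r),
      (fun r : ℕ => ((r.divisors.card : ℝ) ^ 2 / (r : ℝ))) r := ⟨_, rfl⟩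
  obtain ⟨S1, hS1⟩ : ∃ S1 : ℝ, S1 = ∑ s ∈ (Icc 1 X).filter (fun s => sm (ww q) s = s),
      rankF s := ⟨_, rfl⟩
  have hS10 : 0 ≤ S1 := by
    rw [hS1]
    exact sum_nonneg (fun s _ => rankF_nonneg s)
  rw [← hS]
  rw [← hS, ← hT] at h1
  rw [← hT, ← hS1, ← hS2] at h2
  rw [← hS1] at h3
  rw [← hS2] at h4
  have k1 : S / B ^ 4 ≤ E * (T / B ^ 4) := by
    rw [← mul_div_assoc]
    exact div_le_div_of_nonneg_right h1 hB4.le
  have k2 : T / B ^ 4 ≤ S1 * (S2 / B ^ 4) := by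
    rw [← mul_div_assoc]
    exact div_le_div_of_nonneg_right h2 hB4.le
  have k4 : S2 / B ^ 4 ≤ (1 + L) ^ 4 := by
    rw [div_le_iff₀ hB4]
    linarith
  have hfin := rank_chain hE0 hEexp k1 k2 hS10 h3 k4 h5 hw (hM L hL)
  have h6 : Real.exp ((-(1 / 70000)) * L) ≤ 1 := by
    rw [Real.exp_le_one_iff]
    nlinarith
  rw [div_le_iff₀ hB4] at hfin
  nlinarith

private theorem PDiag_sum {μ : Measure ℝ} {C : ℝ} {K : ℕ} (hμ : Smooth μ C K) (hK : 4 ≤ K)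
    (hphi : Integrable (phi μ)) {q : ℕ} {r : ℝ} (hq : 3 ≤ q) (hr : 0 < r) (X : ℕ) :
    ∑ g ∈ Icc 1 X, (CF μ q r g) ^ 2 / g ≤
      (∫ t, ‖phi μ t‖) * ∫ t, ‖phi μ t‖ * ∑ g ∈ Icc 1 X, ‖Diag_A q r g t‖ ^ 2 / g := by
  have hN : ∀ g ∈ Icc 1 X, g ≠ 0 := by
    intro g hg
    have hg1 : 1 ≤ g := (Finset.mem_Icc.1 hg).1
    omega
  have hint : ∀ g ∈ Icc 1 X, Integrable (fun t => ‖phi μ t‖ * ‖Diag_A q r g t‖ ^ 2) := by
    intro g hg
    obtain ⟨M, hM⟩ := Diag_A_bound q hr (hN g hg)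
    exact Diag_int_norm hphi ((Diag_A_cont q hr (hN g hg)).norm.pow 2) (M := M ^ 2) fun t => by
      rw [abs_of_nonneg (by positivity)]
      exact pow_le_pow_left₀ (norm_nonneg _) (hM t) 2
  have h1 : ∫ t, ‖phi μ t‖ * ∑ g ∈ Icc 1 X, ‖Diag_A q r g t‖ ^ 2 / g =
      ∑ g ∈ Icc 1 X, (∫ t, ‖phi μ t‖ * ‖Diag_A q r g t‖ ^ 2) / g := by
    have h2 : (fun t => ‖phi μ t‖ * ∑ g ∈ Icc 1 X, ‖Diag_A q r g t‖ ^ 2 / g) =
        fun t => ∑ g ∈ Icc 1 X, ‖phi μ t‖ * ‖Diag_A q r g t‖ ^ 2 / g := by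
      funext t
      rw [Finset.mul_sum]
      exact Finset.sum_congr rfl fun g _ => by ring
    rw [h2, integral_finsetSum _ fun g hg => (hint g hg).div_const _]
    exact Finset.sum_congr rfl fun g _ => integral_div _ _
  rw [h1, Finset.mul_sum]
  refine Finset.sum_le_sum fun g hg => ?_
  rw [← mul_div_assoc]
  exact div_le_div_of_nonneg_right (Diag_CF_sq hμ hK hphi hq hr (hN g hg)) (Nat.cast_nonneg g)

private theorem PDiag_point (q : ℕ) {r : ℝ} (hr : 0 < r) (t : ℝ) (X : ℕ) :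
    ∑ g ∈ Icc 1 X, ‖Diag_A q r g t‖ ^ 2 / g =
      (r ^ al q) ^ 2 * ∑ g ∈ Icc 1 X, (g : ℝ) ^ (-(1 + 2 * al q)) * ‖ct q t g‖ ^ 2 := by
  rw [Finset.mul_sum]
  refine Finset.sum_congr rfl fun g hg => ?_
  have hg1 : 1 ≤ g := (Finset.mem_Icc.1 hg).1
  have hg0 : (0 : ℝ) < g := by exact_mod_cast hg1
  rw [Diag_A_norm q t hr (by omega)]
  have h2 : ((g : ℝ) ^ (-al q)) ^ 2 / g = (g : ℝ) ^ (-(1 + 2 * al q)) := by
    rw [← Real.rpow_natCast, ← Real.rpow_mul hg0.le, div_eq_mul_inv, ← Real.rpow_neg_one,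
      ← Real.rpow_add hg0]
    congr 1
    push_cast
    ring
  rw [← h2]
  ring

/-- the diagonal sums -/
theorem diagG (C₇ : ℝ) (hC₇ : 1 ≤ C₇) (B : ℝ) (hB : 1 ≤ B) : ∃ C : ℝ, 1 ≤ C ∧ ∃ q₀ : ℕ,
    ∀ (Q : ℕ) (μ : Measure ℝ) (K : ℕ), q₀ ≤ Q → 10 * Real.log Q + 100 ≤ K → Smooth μ C₇ K →
    ∀ R : ℝ, 0 < R → R ≤ (Q : ℝ) ^ B → ∀ X : ℕ, (X : ℝ) ≤ (Q : ℝ) ^ B →
    ∑ N ∈ Icc 1 X, (CN μ Q R N) ^ 2 / N ≤ C := by
  obtain ⟨C1, hC1, hmom⟩ := phi_mom C₇ hC₇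
  obtain ⟨C2', q2, hone⟩ := us_one
  obtain ⟨q4, hrank⟩ := PDiag_rank B hB
  obtain ⟨C2, hC2⟩ : ∃ C2, C2 = max C2' 1 := ⟨_, rfl⟩
  have hC21 : 1 ≤ C2 := hC2 ▸ le_max_right _ _
  obtain ⟨M, hM⟩ : ∃ M : ℝ, M = C1 ^ (6 + 1) * (((6 : ℕ).factorial : ℕ) : ℝ) ^ (21 / 20 : ℝ) :=
    ⟨_, rfl⟩
  have hM0 : 0 ≤ M := by rw [hM]; positivity
  obtain ⟨A, hA⟩ : ∃ A : ℝ, A = Real.exp (2 * B) * C2 := ⟨_, rfl⟩
  have hA0 : 0 ≤ A := by rw [hA]; positivity
  refine ⟨1 + 2 * (C1 * (A * M)) + 2 * B ^ 4, ?_, max (max q2 q4) 3, ?_⟩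
  · have h1 : 0 ≤ C1 * (A * M) := by positivity
    have h2 : 0 ≤ B ^ 4 := by positivity
    linarith
  intro q μ K hq hK hμ R hR hRq X hX
  have hqq2 : q2 ≤ q := le_trans (le_trans (le_max_left _ _) (le_max_left _ _)) hq
  have hqq4 : q4 ≤ q := le_trans (le_trans (le_max_right _ _) (le_max_left _ _)) hq
  have hq3 : 3 ≤ q := le_trans (le_max_right _ _) hq
  have hq1 : (1 : ℝ) < q := by exact_mod_cast (by omega : 1 < q)
  have hq0 : (0 : ℝ) < q := by linarith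
  have hL0 : 0 < Real.log q := Real.log_pos hq1
  have hK100 : 100 ≤ K := by
    have : (100 : ℝ) ≤ K := by linarith
    exact_mod_cast this
  have hphi : Integrable (phi μ) := by
    have h1 := (hmom μ K 0 hμ (by omega)).1
    simp only [pow_zero, mul_one] at h1
    exact (integrable_norm_iff (Mom_phi_cont hμ).aestronglyMeasurable).1 h1
  have hJ0 : ∫ t, ‖phi μ t‖ ≤ C1 := by
    have h1 := (hmom μ K 0 hμ (by omega)).2
    simpa using h1
  have hJ00 : 0 ≤ ∫ t, ‖phi μ t‖ := integral_nonneg fun t => norm_nonneg _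
  obtain ⟨hmi, hmb⟩ := hmom μ K 6 hμ (by omega)
  rw [← hM] at hmb
  have hal0 : 0 ≤ al q := by unfold al; positivity
  have hRal : (R ^ al q) ^ 2 ≤ Real.exp (2 * B) := by
    have h1 : R ^ al q ≤ Real.exp B := by
      refine (Real.rpow_le_rpow hR.le hRq hal0).trans (le_of_eq ?_)
      rw [← Real.rpow_mul hq0.le, Real.rpow_def_of_pos hq0]
      congr 1
      unfold al
      field_simp
    have h2 : 0 < R ^ al q := by positivity
    refine (pow_le_pow_left₀ h2.le h1 2).trans (le_of_eq ?_)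
    rw [← Real.exp_nat_mul]
    norm_num
  have hpt : ∀ t : ℝ, ∑ g ∈ Icc 1 X, ‖Diag_A q R g t‖ ^ 2 / g ≤ A * (1 + |t|) ^ 6 := by
    intro t
    rw [PDiag_point q hR t X]
    have h1 := ut q X hq3 t 1 le_rfl
    have h2 : (1 : ℕ).primeFactors.filter (fun p => p ≤ ww q) = ∅ := by simp
    have h3 : ro (ww q) 1 = 1 := by simp [ro]
    rw [h2, h3] at h1
    simp only [Finset.card_empty, pow_zero, Finset.prod_empty, one_mul] at h1
    have h4 := hone q X hqq2 t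
    have h5 : C2' * (1 + |t|) ^ 6 ≤ C2 * (1 + |t|) ^ 6 :=
      mul_le_mul_of_nonneg_right (hC2 ▸ le_max_left _ _) (by positivity)
    have h6 : ∑ g ∈ Icc 1 X, (g : ℝ) ^ (-(1 + 2 * al q)) * ‖ct q t g‖ ^ 2 ≤
      C2 * (1 + |t|) ^ 6 := h1.trans (h4.trans h5)
    have h7 : 0 ≤ ∑ g ∈ Icc 1 X, (g : ℝ) ^ (-(1 + 2 * al q)) * ‖ct q t g‖ ^ 2 :=
      Finset.sum_nonneg fun g _ => by positivity
    rw [hA, mul_assoc]
    exact mul_le_mul hRal h6 h7 (Real.exp_pos _).le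
  have hCF : ∑ g ∈ Icc 1 X, (CF μ q R g) ^ 2 / g ≤ C1 * (A * M) := by
    refine (PDiag_sum hμ (by omega) hphi hq3 hR X).trans ?_
    have h2 : ∫ t, ‖phi μ t‖ * ∑ g ∈ Icc 1 X, ‖Diag_A q R g t‖ ^ 2 / g ≤ A * M :=
      Diag_core (fun t => norm_nonneg _) (fun t => Finset.sum_nonneg fun g _ => by positivity)
        hA0 hmi hmb hpt
    have h5 : 0 ≤ ∫ t, ‖phi μ t‖ * ∑ g ∈ Icc 1 X, ‖Diag_A q R g t‖ ^ 2 / g :=
      integral_nonneg fun t =>
        mul_nonneg (norm_nonneg _) (Finset.sum_nonneg fun g _ => by positivity)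
    exact mul_le_mul hJ0 h2 h5 (by linarith)
  have hsplit : ∑ N ∈ Icc 1 X, (CN μ q R N) ^ 2 / N ≤
      2 * ∑ g ∈ Icc 1 X, (CF μ q R g) ^ 2 / g +
      2 * ∑ g ∈ (Icc 1 X).filter (fun g => yy q < (sm (ww q) g : ℝ)),
        (g.divisors.card : ℝ) ^ 2 / g := by
    rw [Finset.sum_filter, Finset.mul_sum, Finset.mul_sum, ← Finset.sum_add_distrib]
    refine Finset.sum_le_sum fun g hg => ?_
    have hg1 : 1 ≤ g := (Finset.mem_Icc.1 hg).1
    have hg0 : (0 : ℝ) < g := by exact_mod_cast hg1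
    have hd := Diag_diff hμ q R (by omega : g ≠ 0)
    obtain ⟨D, hD⟩ : ∃ D : ℝ, D = CN μ q R g - CF μ q R g := ⟨_, rfl⟩
    rw [← hD] at hd
    have hCN : CN μ q R g = CF μ q R g + D := by rw [hD]; ring
    have h1 : D ^ 2 ≤ if yy q < (sm (ww q) g : ℝ) then (g.divisors.card : ℝ) ^ 2 else 0 := by
      rw [← sq_abs]
      split_ifs at hd ⊢ with hy
      · exact pow_le_pow_left₀ (abs_nonneg _) hd 2
      · have : |D| = 0 := le_antisymm hd (abs_nonneg _)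
        rw [this]
        norm_num
    have h2 : (CN μ q R g) ^ 2 ≤ 2 * (CF μ q R g) ^ 2 + 2 * D ^ 2 := by
      rw [hCN]
      nlinarith [sq_nonneg (CF μ q R g - D)]
    have h3 : (if yy q < (sm (ww q) g : ℝ) then (g.divisors.card : ℝ) ^ 2 / g else 0) =
        (if yy q < (sm (ww q) g : ℝ) then (g.divisors.card : ℝ) ^ 2 else 0) / g := by
      split_ifs <;> simp
    rw [h3, ← mul_div_assoc, ← mul_div_assoc, ← add_div]
    exact div_le_div_of_nonneg_right (by linarith) hg0.le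
  have hR4 := hrank q hqq4 X hX
  linarith

end Pool.Agent.NP
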