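import Pool.Agent.Lib.MP_afd523_nt_P.PDefs
import Pool.Agent.Lib.MP_afd523_nt.Maj

/-!
Project NP (MP_afd523_nt): averaging the approximate functional equation.
-/

namespace Pool.Agent.NP

open Finset Complex MeasureTheory Pool.Agent.NV

theorem PMaj_term_norm {f : ℕ → ℂ} (hf : ∀ n, ‖f n‖ ≤ 1) (x : ℝ) (n : ℕ) :
    ‖(x : ℂ) * f n / (Real.sqrt n : ℂ)‖ ≤ |x| * (1 / Real.sqrt n) := by
  rw [norm_div, norm_mul, Complex.norm_real, Complex.norm_real, Real.norm_eq_abs,
    Real.norm_eq_abs, abs_of_nonneg (Real.sqrt_nonneg _), mul_div_assoc, mul_one_div]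
  rw [← mul_div_assoc]
  refine div_le_div_of_nonneg_right ?_ (Real.sqrt_nonneg _)
  exact mul_le_of_le_one_right (abs_nonneg _) (hf n)

theorem PMaj_SF_norm {μ : Measure ℝ} [IsProbabilityMeasure μ] (q : ℕ) (r : ℝ)
    {f : ℕ → ℂ} (hf : ∀ n, ‖f n‖ ≤ 1) :
    ‖SF μ q r f‖ ^ 2 ≤ 4 * (q : ℝ) ^ (51 / 100 : ℝ) * |r ^ 1| := by
  have hc : 0 ≤ (q : ℝ) ^ (51 / 100 : ℝ) := Real.rpow_nonneg (Nat.cast_nonneg _) _
  have h1 : ‖SF μ q r f‖ ≤ 2 * Real.sqrt (⌊r * (q : ℝ) ^ (51 / 100 : ℝ)⌋₊ : ℝ) := by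
    refine le_trans (norm_sum_le _ _) (le_trans (Finset.sum_le_sum fun n _ => ?_) (Maj_sum_sqrt _))
    refine le_trans (PMaj_term_norm hf _ n) ?_
    rw [abs_of_nonneg (Maj_Phi_nonneg _ _ _ _)]
    exact mul_le_of_le_one_left (by positivity) (Maj_Phi_le_one _ _ _)
  have h2 : ‖SF μ q r f‖ ^ 2 ≤ (2 * Real.sqrt (⌊r * (q : ℝ) ^ (51 / 100 : ℝ)⌋₊ : ℝ)) ^ 2 :=
    pow_le_pow_left₀ (norm_nonneg _) h1 2
  rw [mul_pow, Real.sq_sqrt (Nat.cast_nonneg _)] at h2
  have h3 : (⌊r * (q : ℝ) ^ (51 / 100 : ℝ)⌋₊ : ℝ) ≤ |r| * (q : ℝ) ^ (51 / 100 : ℝ) := by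
    rcases le_or_gt 0 (r * (q : ℝ) ^ (51 / 100 : ℝ)) with h | h
    · exact le_trans (Nat.floor_le h) (mul_le_mul_of_nonneg_right (le_abs_self r) hc)
    · rw [Nat.floor_of_nonpos h.le]
      simp only [Nat.cast_zero]
      positivity
  rw [pow_one]
  nlinarith

theorem PMaj_SF_meas {μ : Measure ℝ} [IsProbabilityMeasure μ] (q : ℕ)
    (f : ℕ → ℂ) : Measurable fun r : ℝ => SF μ q r f := by
  have h0 : ∀ n : ℕ, Measurable fun r : ℝ =>
      (Phi μ q r n : ℂ) * f n / (Real.sqrt n : ℂ) := fun n =>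
    ((Complex.measurable_ofReal.comp (Maj_Phi_meas q n)).mul_const _).div_const _
  have h1 : ∀ m : ℕ, Measurable fun r : ℝ => ∑ n ∈ Icc 1 m,
      (Phi μ q r n : ℂ) * f n / (Real.sqrt n : ℂ) := fun m =>
    Finset.measurable_fun_sum (Icc 1 m) (fun n _ => h0 n)
  obtain ⟨F, hF⟩ : ∃ F : ℕ → ℝ → ℂ, F = fun (m : ℕ) (r : ℝ) => ∑ n ∈ Icc 1 m,
      (Phi μ q r n : ℂ) * f n / (Real.sqrt n : ℂ) := ⟨_, rfl⟩
  have hFm : ∀ m, Measurable (F m) := fun m => by rw [hF]; exact h1 m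
  have h3 : Measurable fun p : ℕ × ℝ => F p.1 p.2 :=
    measurable_from_prod_countable_right fun m => hFm m
  have h2 : Measurable fun r : ℝ => (⌊r * (q : ℝ) ^ (51 / 100 : ℝ)⌋₊, r) :=
    (Nat.measurable_floor.comp (measurable_id.mul_const _)).prodMk measurable_id
  have h4 : (fun r : ℝ => SF μ q r f) =
      fun r : ℝ => F ⌊r * (q : ℝ) ^ (51 / 100 : ℝ)⌋₊ r := by
    funext r
    rw [hF]
    rfl
  rw [h4]
  exact h3.comp h2

theorem PMaj_gen {C : ℝ} {ν : Measure ℝ} (hν : Cut ν C) {q : ℕ} (hq : 3 ≤ q)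
    {f : ℕ → ℂ} (hf : ∀ n, ‖f n‖ ≤ 1) (L₀ ε : ℂ) (hε : ‖ε‖ = 1)
    (h : ∀ T : ℝ, 0 < T → L₀ =
          ∑' n : ℕ, (ν.real (Set.Ioi (n / T)) : ℂ) * f n / (Real.sqrt n : ℂ) +
          ε * ∑' n : ℕ, (ν.real (Set.Ioi (n * T / q)) : ℂ) *
            (starRingEnd ℂ) (f n) / (Real.sqrt n : ℂ))
    {μ : Measure ℝ} {C' : ℝ} {K : ℕ} (hμ : Smooth μ C' K) :
    Integrable (fun r => ‖SF μ q r f‖ ^ 2) ν ∧
      ‖L₀‖ ^ 2 ≤ 4 * ∫ r, ‖SF μ q r f‖ ^ 2 ∂ν := by
  have hpν := hν.prob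
  have hpμ := hμ.prob
  have hq0 : (0 : ℝ) < q := by exact_mod_cast (by omega : 0 < q)
  have hq1 : (1 : ℝ) ≤ q := by exact_mod_cast (by omega : 1 ≤ q)
  have hint : Integrable (fun r => ‖SF μ q r f‖ ^ 2) ν := by
    refine Integrable.mono' ((hν.mom 1).norm.const_mul (4 * (q : ℝ) ^ (51 / 100 : ℝ)))
      ((PMaj_SF_meas q f).norm.pow_const 2).aestronglyMeasurable
      (Filter.Eventually.of_forall fun r => ?_)
    rw [Real.norm_eq_abs, abs_of_nonneg (sq_nonneg _)]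
    exact PMaj_SF_norm q r hf
  refine ⟨hint, ?_⟩
  have hint1 : Integrable (fun r => ‖SF μ q r f‖) ν := by
    refine Integrable.mono' (hint.add (integrable_const (1 : ℝ)))
      (PMaj_SF_meas q f).norm.aestronglyMeasurable (Filter.Eventually.of_forall fun r => ?_)
    rw [Real.norm_eq_abs, abs_of_nonneg (norm_nonneg _)]
    simp only [Pi.add_apply]
    nlinarith [sq_nonneg (‖SF μ q r f‖ - 1)]
  obtain ⟨M, hM0, hM⟩ := Maj_markov hν
  -- the tails
  obtain ⟨g, hg⟩ : ∃ g : ℕ → ℝ → ℝ, g = fun (n : ℕ) (v : ℝ) => ν.real (Set.Ioi ((n : ℝ) / (q : ℝ) ^ v)) :=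
    ⟨_, rfl⟩
  have hg0 : ∀ n v, 0 ≤ g n v := fun n v => by rw [hg]; exact measureReal_nonneg
  have hgm : ∀ n, Measurable (g n) := by
    intro n
    have h1 : Antitone fun x : ℝ => ν.real (Set.Ioi x) := fun x y hxy =>
      measureReal_mono (Set.Ioi_subset_Ioi hxy)
    have hcont : Continuous fun v : ℝ => (n : ℝ) / (q : ℝ) ^ v :=
      continuous_const.div (Real.continuous_const_rpow hq0.ne')
        fun v => (Real.rpow_pos_of_pos hq0 v).ne'
    rw [hg]
    exact h1.measurable.comp hcont.measurable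
  have hg1 : ∀ n v, g n v ≤ 1 := fun n v => by rw [hg]; exact measureReal_le_one
  -- terms
  obtain ⟨B, hB⟩ : ∃ B : ℝ, B = M * (q : ℝ) ^ 2 := ⟨_, rfl⟩
  have hgb : ∀ (n : ℕ) (v : ℝ), v ≤ 1 → g n v * (1 / Real.sqrt n) ≤ B / (n : ℝ) ^ 2 := by
    intro n v hv
    rcases Nat.eq_zero_or_pos n with rfl | hn
    · simp
    have hn0 : (0 : ℝ) < n := by exact_mod_cast hn
    have hn1 : (1 : ℝ) ≤ n := by exact_mod_cast hn
    have hqv : 0 < (q : ℝ) ^ v := Real.rpow_pos_of_pos hq0 v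
    have h1 : g n v ≤ M / ((n : ℝ) / (q : ℝ) ^ v) ^ 2 := by
      rw [hg]
      exact hM _ (div_pos hn0 hqv)
    have h2 : M / ((n : ℝ) / (q : ℝ) ^ v) ^ 2 ≤ B / (n : ℝ) ^ 2 := by
      rw [div_pow, div_div_eq_mul_div, hB]
      have h3 : (q : ℝ) ^ v ≤ q := by
        calc (q : ℝ) ^ v ≤ (q : ℝ) ^ (1 : ℝ) := Real.rpow_le_rpow_of_exponent_le hq1 hv
          _ = q := Real.rpow_one _
      have h4 : ((q : ℝ) ^ v) ^ 2 ≤ (q : ℝ) ^ 2 := pow_le_pow_left₀ hqv.le h3 2
      exact div_le_div_of_nonneg_right (mul_le_mul_of_nonneg_left h4 hM0) (by positivity)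
    have h5 : 1 / Real.sqrt n ≤ 1 := by
      rw [div_le_one (Real.sqrt_pos.2 hn0)]
      exact Real.one_le_sqrt.2 hn1
    exact le_trans (mul_le_of_le_one_right (hg0 n v) h5) (le_trans h1 h2)
  -- the symmetric average
  obtain ⟨G, hG⟩ : ∃ G : ℕ → ℝ, G = fun n => ∫ v, g n v ∂μ := ⟨_, rfl⟩
  have hgi : ∀ n, Integrable (g n) μ := by
    intro n
    refine Integrable.mono' (integrable_const (1 : ℝ)) (hgm n).aestronglyMeasurable
      (Filter.Eventually.of_forall fun v => ?_)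
    rw [Real.norm_eq_abs, abs_of_nonneg (hg0 n v)]
    exact hg1 n v
  have hm1 : Measurable fun v : ℝ => 1 - v := measurable_const.sub measurable_id
  have hgi' : ∀ n, Integrable (fun v => g n (1 - v)) μ := by
    intro n
    refine Integrable.mono' (integrable_const (1 : ℝ)) ((hgm n).comp hm1).aestronglyMeasurable
      (Filter.Eventually.of_forall fun v => ?_)
    rw [Real.norm_eq_abs, abs_of_nonneg (hg0 n _)]
    exact hg1 n _
  have hGs : ∀ n, ∫ v, g n (1 - v) ∂μ = G n := by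
    intro n
    have h1 := integral_map (μ := μ) hm1.aemeasurable (f := g n)
      (by rw [hμ.symm]; exact (hgm n).aestronglyMeasurable)
    rw [hμ.symm] at h1
    rw [hG]
    exact h1.symm
  have haeμ : ∀ᵐ v ∂μ, v ∈ Set.Icc (49 / 100 : ℝ) (51 / 100) := by
    rw [ae_iff]
    exact hμ.supp
  have hG0 : ∀ n, 0 ≤ G n := fun n => by rw [hG]; exact integral_nonneg (hg0 n)
  have hGb : ∀ n : ℕ, G n * (1 / Real.sqrt n) ≤ B / (n : ℝ) ^ 2 := by
    intro n
    have h1 : ∫ v, g n v * (1 / Real.sqrt n) ∂μ ≤ ∫ _, B / (n : ℝ) ^ 2 ∂μ := by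
      refine integral_mono_ae ((hgi n).mul_const _) (integrable_const _) ?_
      filter_upwards [haeμ] with v hv
      exact hgb n v (by linarith [hv.2])
    rw [integral_mul_const] at h1
    simp only [integral_const, probReal_univ, one_smul] at h1
    have h2 : G n = ∫ v, g n v ∂μ := by rw [hG]
    rw [h2]
    exact h1
  -- the function is a convergent series for every admissible v
  have hsum1 : ∀ v : ℝ, v ≤ 1 → Summable fun n : ℕ =>
      (g n v : ℂ) * f n / (Real.sqrt n : ℂ) := by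
    intro v hv
    refine Summable.of_norm_bounded (Maj_summable B) fun n => ?_
    refine le_trans (PMaj_term_norm hf _ n) ?_
    rw [abs_of_nonneg (hg0 n v)]
    exact hgb n v hv
  have hstar : ∀ (x : ℝ) (n : ℕ),
      (x : ℂ) * (starRingEnd ℂ) (f n) / (Real.sqrt n : ℂ) =
        (starRingEnd ℂ) ((x : ℂ) * f n / (Real.sqrt n : ℂ)) := by
    intro x n
    rw [map_div₀, map_mul, Complex.conj_ofReal, Complex.conj_ofReal]
  have hsum2 : ∀ v : ℝ, 0 ≤ v → Summable fun n : ℕ =>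
      (g n (1 - v) : ℂ) * (starRingEnd ℂ) (f n) / (Real.sqrt n : ℂ) := by
    intro v hv
    refine Summable.of_norm_bounded (Maj_summable B) fun n => ?_
    rw [hstar, RCLike.norm_conj]
    refine le_trans (PMaj_term_norm hf _ n) ?_
    rw [abs_of_nonneg (hg0 n _)]
    exact hgb n _ (by linarith)
  obtain ⟨L, hL⟩ : ∃ L : ℂ, L = L₀ := ⟨_, rfl⟩
  have hLv : ∀ v : ℝ, 0 ≤ v → v ≤ 1 → HasSum (fun n : ℕ =>
      (g n v : ℂ) * f n / (Real.sqrt n : ℂ) +
        ε * ((g n (1 - v) : ℂ) * (starRingEnd ℂ) (f n) / (Real.sqrt n : ℂ))) L := by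
    intro v hv0 hv1
    have h1 := h ((q : ℝ) ^ v) (Real.rpow_pos_of_pos hq0 v)
    have h2 : ∀ n : ℕ, ν.real (Set.Ioi ((n : ℝ) * (q : ℝ) ^ v / q)) = g n (1 - v) := by
      intro n
      rw [hg]
      simp only
      rw [Real.rpow_sub hq0, Real.rpow_one, div_div_eq_mul_div]
    have h3 : ∀ n : ℕ, ν.real (Set.Ioi ((n : ℝ) / (q : ℝ) ^ v)) = g n v := by
      intro n
      rw [hg]
    simp only [h2, h3] at h1
    rw [hL, h1]
    exact (hsum1 v hv1).hasSum.add ((hsum2 v hv0).hasSum.mul_left ε)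
  have hmain1 : HasSum (fun n : ℕ => ∫ v,
      ((g n v : ℂ) * f n / (Real.sqrt n : ℂ) +
        ε * ((g n (1 - v) : ℂ) * (starRingEnd ℂ) (f n) / (Real.sqrt n : ℂ))) ∂μ)
      (∫ _, L ∂μ) := by
    refine hasSum_integral_of_dominated_convergence (fun n _ => (2 * B) / (n : ℝ) ^ 2) ?_ ?_ ?_ ?_ ?_
    · intro n
      refine Measurable.aestronglyMeasurable ?_
      refine Measurable.add ?_ (Measurable.const_mul ?_ _)
      · exact ((Complex.measurable_ofReal.comp (hgm n)).mul_const _).div_const _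
      · exact ((Complex.measurable_ofReal.comp ((hgm n).comp hm1)).mul_const _).div_const _
    · intro n
      filter_upwards [haeμ] with v hv
      refine le_trans (norm_add_le _ _) ?_
      rw [norm_mul, hε, one_mul, hstar, RCLike.norm_conj]
      have h1 := PMaj_term_norm hf (g n v) n
      have h2 := PMaj_term_norm hf (g n (1 - v)) n
      rw [abs_of_nonneg (hg0 n _)] at h1 h2
      have h3 := hgb n v (by linarith [hv.2])
      have h4 := hgb n (1 - v) (by linarith [hv.1])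
      have h5 : 2 * B / (n : ℝ) ^ 2 = B / (n : ℝ) ^ 2 + B / (n : ℝ) ^ 2 := by ring
      rw [h5]
      exact add_le_add (h1.trans h3) (h2.trans h4)
    · exact Filter.Eventually.of_forall fun _ => Maj_summable _
    · exact integrable_const _
    · filter_upwards [haeμ] with v hv
      exact hLv v (by linarith [hv.1]) (by linarith [hv.2])
  have hterm : ∀ n : ℕ, ∫ v,
      ((g n v : ℂ) * f n / (Real.sqrt n : ℂ) +
        ε * ((g n (1 - v) : ℂ) * (starRingEnd ℂ) (f n) / (Real.sqrt n : ℂ))) ∂μ =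
      (G n : ℂ) * f n / (Real.sqrt n : ℂ) +
        ε * ((G n : ℂ) * (starRingEnd ℂ) (f n) / (Real.sqrt n : ℂ)) := by
    intro n
    have h1 : Integrable (fun v => (g n v : ℂ) * f n / (Real.sqrt n : ℂ)) μ :=
      ((hgi n).ofReal.mul_const _).div_const _
    have h2 : Integrable (fun v =>
        ε * ((g n (1 - v) : ℂ) * (starRingEnd ℂ) (f n) / (Real.sqrt n : ℂ))) μ :=
      (((hgi' n).ofReal.mul_const _).div_const _).const_mul _
    rw [integral_add h1 h2, integral_div, integral_mul_const, integral_const_mul, integral_div,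
      integral_mul_const, integral_complex_ofReal, integral_complex_ofReal, hGs n, hG]
  simp only [hterm] at hmain1
  have hGsum : Summable fun n : ℕ => (G n : ℂ) * f n / (Real.sqrt n : ℂ) := by
    refine Summable.of_norm_bounded (Maj_summable B) fun n => ?_
    refine le_trans (PMaj_term_norm hf _ n) ?_
    rw [abs_of_nonneg (hG0 n)]
    exact hGb n
  obtain ⟨A, hA⟩ : ∃ A : ℂ, A = ∑' n : ℕ, (G n : ℂ) * f n / (Real.sqrt n : ℂ) :=
    ⟨_, rfl⟩
  have hAs : HasSum (fun n : ℕ => (G n : ℂ) * f n / (Real.sqrt n : ℂ)) A := by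
    rw [hA]
    exact hGsum.hasSum
  have hAc : HasSum (fun n : ℕ =>
      (G n : ℂ) * (starRingEnd ℂ) (f n) / (Real.sqrt n : ℂ)) ((starRingEnd ℂ) A) := by
    simp only [hstar]
    exact Complex.hasSum_conj'.2 (by simpa using hAs)
  have hLA : L = A + ε * (starRingEnd ℂ) A := by
    have h1 := hmain1.unique (hAs.add (hAc.mul_left ε))
    simpa using h1
  have hLn : ‖L‖ ≤ 2 * ‖A‖ := by
    rw [hLA]
    refine le_trans (norm_add_le _ _) ?_
    rw [norm_mul, hε, one_mul, RCLike.norm_conj, two_mul]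
  -- the second interchange
  have haeν : ∀ᵐ r ∂ν, 0 < r := by
    rw [ae_iff]
    convert hν.pos using 2
    ext r
    simp
  have hPi : ∀ n : ℕ, Integrable (fun r => Phi μ q r n) ν := by
    intro n
    refine Integrable.mono' (integrable_const (1 : ℝ)) (Maj_Phi_meas q n).aestronglyMeasurable
      (Filter.Eventually.of_forall fun v => ?_)
    rw [Real.norm_eq_abs, abs_of_nonneg (Maj_Phi_nonneg _ _ _ _)]
    exact Maj_Phi_le_one _ _ _
  have hGP : ∀ n : ℕ, (G n : ℂ) * f n / (Real.sqrt n : ℂ) =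
      ∫ r, (Phi μ q r n : ℂ) * f n / (Real.sqrt n : ℂ) ∂ν := by
    intro n
    rw [integral_div, integral_mul_const, integral_complex_ofReal]
    rcases Nat.eq_zero_or_pos n with rfl | hn
    · simp
    · rw [hG, ← Maj_fub hν.pos hq hn, hg]
  have hPs : ∀ n : ℕ, Integrable
      (fun r => (Phi μ q r n : ℂ) * f n / (Real.sqrt n : ℂ)) ν := fun n =>
    ((hPi n).ofReal.mul_const _).div_const _
  have hPsum : Summable fun n : ℕ =>
      ∫ r, ‖(Phi μ q r n : ℂ) * f n / (Real.sqrt n : ℂ)‖ ∂ν := by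
    refine Summable.of_nonneg_of_le (fun n => integral_nonneg fun r => norm_nonneg _)
      (fun n => ?_) (Maj_summable B)
    refine le_trans ?_ (hGb n)
    rcases Nat.eq_zero_or_pos n with rfl | hn
    · simp
    have h1 : G n * (1 / Real.sqrt n) = ∫ r, Phi μ q r n * (1 / Real.sqrt n) ∂ν := by
      rw [integral_mul_const, hG, ← Maj_fub hν.pos hq hn, hg]
    rw [h1]
    refine integral_mono (hPs n).norm ((hPi n).mul_const _) fun r => ?_
    refine le_trans (PMaj_term_norm hf _ n) ?_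
    rw [abs_of_nonneg (Maj_Phi_nonneg _ _ _ _)]
  have hmain2 := hasSum_integral_of_summable_integral_norm hPs hPsum
  have hSSt : ∀ᵐ r ∂ν, ∑' n : ℕ, (Phi μ q r n : ℂ) * f n / (Real.sqrt n : ℂ) =
      SF μ q r f := by
    filter_upwards [haeν] with r hr
    unfold SF NN
    refine tsum_eq_sum fun n hn => ?_
    rcases Nat.eq_zero_or_pos n with rfl | hn0
    · simp
    · have h1 : ⌊r * (q : ℝ) ^ (51 / 100 : ℝ)⌋₊ < n := by
        by_contra h2
        exact hn (Finset.mem_Icc.2 ⟨hn0, not_lt.1 h2⟩)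
      rw [Maj_Phi_zero hμ hq hr h1]
      simp
  have hAint : A = ∫ r, SF μ q r f ∂ν := by
    have h1 : HasSum (fun n : ℕ => (G n : ℂ) * f n / (Real.sqrt n : ℂ))
        (∫ r, ∑' n : ℕ, (Phi μ q r n : ℂ) * f n / (Real.sqrt n : ℂ) ∂ν) := by
      simp only [hGP]
      exact hmain2
    rw [hAs.unique h1]
    exact integral_congr_ae hSSt
  have hAn : ‖A‖ ≤ ∫ r, ‖SF μ q r f‖ ∂ν := by
    rw [hAint]
    exact norm_integral_le_integral_norm _
  have hsq := Maj_sq_mean hint1 hint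
  rw [← hL]
  have h0 : ‖L‖ ≤ 2 * ∫ r, ‖SF μ q r f‖ ∂ν := by linarith
  calc ‖L‖ ^ 2 ≤ (2 * ∫ r, ‖SF μ q r f‖ ∂ν) ^ 2 := pow_le_pow_left₀ (norm_nonneg _) h0 2
    _ = 4 * (∫ r, ‖SF μ q r f‖ ∂ν) ^ 2 := by ring
    _ ≤ _ := by linarith


private theorem PMaj_map_real {ν : Measure ℝ} {s : ℝ} (hs : 0 < s) (x : ℝ) :
    (ν.map (fun r => r * s)).real (Set.Ioi x) = ν.real (Set.Ioi (x / s)) := by
  have hm : Measurable fun r : ℝ => r * s := measurable_id.mul_const s
  rw [measureReal_def, Measure.map_apply hm measurableSet_Ioi, measureReal_def]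
  congr 2
  ext r
  simp only [Set.mem_preimage, Set.mem_Ioi]
  rw [div_lt_iff₀ hs]

private theorem PMaj_cut {ν : Measure ℝ} {C : ℝ} (hν : Cut ν C) {s : ℝ} (hs : 0 < s) :
    ∃ C' : ℝ, Cut (ν.map (fun r => r * s)) C' := by
  have hpν := hν.prob
  have hm : Measurable fun r : ℝ => r * s := measurable_id.mul_const s
  refine ⟨max (C / √s) (1 / √s), ⟨Measure.isProbabilityMeasure_map hm.aemeasurable, ?_, ?_, ?_⟩⟩
  · rw [Measure.map_apply hm measurableSet_Iic]
    convert hν.pos using 2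
    ext r
    simp only [Set.mem_preimage, Set.mem_Iic]
    constructor
    · intro h
      by_contra h2
      push Not at h2
      have := mul_pos h2 hs
      linarith
    · intro h
      exact mul_nonpos_of_nonpos_of_nonneg h hs.le
  · intro A
    rw [integrable_map_measure (by fun_prop) hm.aemeasurable]
    have h1 : ((fun r : ℝ => r ^ A) ∘ fun r => r * s) = fun r => r ^ A * s ^ A := by
      funext r
      simp [mul_pow]
    rw [h1]
    exact (hν.mom A).mul_const _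
  · intro x hx hx1
    have hss : 0 < √s := Real.sqrt_pos.2 hs
    have hxs : 0 < √x := Real.sqrt_pos.2 hx
    have h1 : (ν.map (fun r => r * s)).real (Set.Iic x) = ν.real (Set.Iic (x / s)) := by
      rw [measureReal_def, Measure.map_apply hm measurableSet_Iic, measureReal_def]
      congr 2
      ext r
      simp only [Set.mem_preimage, Set.mem_Iic]
      rw [le_div_iff₀ hs]
    rw [h1]
    rcases le_or_gt (x / s) 1 with h2 | h2
    · refine (hν.ball (x / s) (div_pos hx hs) h2).trans ?_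
      rw [Real.sqrt_div' x hs.le]
      calc C * (√x / √s) = (C / √s) * √x := by ring
        _ ≤ max (C / √s) (1 / √s) * √x :=
          mul_le_mul_of_nonneg_right (le_max_left _ _) hxs.le
    · have h3 : 1 ≤ (1 / √s) * √x := by
        have h4 : √s ≤ √x := Real.sqrt_le_sqrt (by
          rw [lt_div_iff₀ hs] at h2
          linarith)
        rw [one_div, inv_mul_eq_div, one_le_div hss]
        exact h4
      calc ν.real (Set.Iic (x / s)) ≤ 1 := measureReal_le_one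
        _ ≤ (1 / √s) * √x := h3
        _ ≤ max (C / √s) (1 / √s) * √x :=
          mul_le_mul_of_nonneg_right (le_max_right _ _) hxs.le

/-- the averaged approximate functional equation -/
theorem maj2 {ν : Measure ℝ} {C : ℝ} (hν : Cut ν C) {Q : ℕ} (hQ : 3 ≤ Q) {q : ℝ} (hq : 0 < q)
    (f : ℕ → ℂ) (hf : ∀ n, ‖f n‖ ≤ 1) (L ε : ℂ) (hε : ‖ε‖ = 1)
    (h : ∀ T : ℝ, 0 < T → L =
          ∑' n : ℕ, (ν.real (Set.Ioi (n / T)) : ℂ) * f n / (√(n : ℝ) : ℂ) +
          ε * ∑' n : ℕ, (ν.real (Set.Ioi (n * T / q)) : ℂ) *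
            (starRingEnd ℂ) (f n) / (√(n : ℝ) : ℂ))
    {μ : Measure ℝ} {C' : ℝ} {K : ℕ} (hμ : Smooth μ C' K) :
    Integrable (fun r => ‖SF μ Q (r * √(q / Q)) f‖ ^ 2) ν ∧
      ‖L‖ ^ 2 ≤ 4 * ∫ r, ‖SF μ Q (r * √(q / Q)) f‖ ^ 2 ∂ν := by
  have hpμ := hμ.prob
  have hQ0 : (0 : ℝ) < Q := by exact_mod_cast (by omega : 0 < Q)
  obtain ⟨s, hsd⟩ : ∃ s : ℝ, s = √(q / Q) := ⟨_, rfl⟩
  have hs : 0 < s := by rw [hsd]; exact Real.sqrt_pos.2 (div_pos hq hQ0)
  have hss : s * s = q / Q := by rw [hsd]; exact Real.mul_self_sqrt (div_pos hq hQ0).le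
  have hm : Measurable fun r : ℝ => r * s := measurable_id.mul_const s
  obtain ⟨C₂, hC₂⟩ := PMaj_cut hν hs
  have key := PMaj_gen hC₂ hQ hf L ε hε (fun T hT => by
    have h1 := h (s * T) (mul_pos hs hT)
    rw [h1]
    congr 1
    · refine tsum_congr fun n => ?_
      rw [PMaj_map_real hs, div_div, mul_comm T s]
    · congr 1
      refine tsum_congr fun n => ?_
      have h2 : (n : ℝ) * (s * T) / q = n * T / Q / s := by
        rw [div_div, div_eq_div_iff hq.ne' (by positivity)]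
        have h3 : q = s * s * Q := by rw [hss]; field_simp
        rw [h3]
        ring
      rw [PMaj_map_real hs, h2]) hμ
  rw [← hsd]
  have hmeas : Measurable fun r : ℝ => ‖SF μ Q r f‖ ^ 2 :=
    (PMaj_SF_meas Q f).norm.pow_const 2
  obtain ⟨k1, k2⟩ := key
  rw [integrable_map_measure hmeas.aestronglyMeasurable hm.aemeasurable] at k1
  rw [integral_map hm.aemeasurable hmeas.aestronglyMeasurable] at k2
  exact ⟨k1, k2⟩

end Pool.Agent.NP
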