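import Pool.Agent.Lib.MP_afd523_nt_P.PZed
import Pool.Agent.Lib.MP_afd523_nt_P.PMaj
import Pool.Agent.Lib.MP_afd523_nt_T.Crit

/-!
Project NP (MP_afd523_nt): the dual term of the first moment.
-/

namespace Pool.Agent.NP

open Finset Complex MeasureTheory Pool.Agent.NV Pool.Agent.NVT

/-- the main term of a class -/
noncomputable def GG {q d : ℕ} (e : ℕ) (ψ : DirichletCharacter ℂ q) (x : ZMod d) : ℂ :=
  (wV e (√(q : ℝ)) x.val : ℂ) * ψ (x.val : ZMod q) / (√(x.val : ℝ) : ℂ)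

theorem GG_norm {q d e : ℕ} (he : e ≤ 1) (ψ : DirichletCharacter ℂ q) (x : ZMod d) :
    ‖GG e ψ x‖ ≤ 1 / √(x.val : ℝ) := by
  unfold GG
  rw [norm_div, norm_mul, Complex.norm_real, Complex.norm_real,
    Real.norm_of_nonneg (wV_nonneg _ _ _), Real.norm_of_nonneg (Real.sqrt_nonneg _)]
  apply div_le_div_of_nonneg_right _ (Real.sqrt_nonneg _)
  exact mul_le_one₀ (wV_le_one he _ _) (norm_nonneg _) (ψ.norm_le_one _)

private theorem PDual_alg {lam T T' M N w st sm sn t : ℂ} (hT : T * T' = 1) (hs : st * st = t)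
    (h1 : st ≠ 0) (h2 : sm ≠ 0) (h3 : sn ≠ 0) :
    lam * (T * M) / (st * sm) * (w * (T' * N) / (st * sn)) =
      M * N / (sm * sn) * (lam / t * w) := by
  rw [← hs]
  field_simp
  linear_combination (lam * M * w * N) * hT

private theorem PDual_term {q d e Q : ℕ} (he : e ≤ 1) (hQ : 2 ≤ Q) (ψ : DirichletCharacter ℂ q)
    (m : ℕ) (x : ZMod d) {Z : ℕ} (hZ : 1 ≤ Z) (h : ψ (m : ZMod q) ≠ 0 → Z ≤ x.val) :
    ‖(lamq Q m : ℂ) * ψ (m : ZMod q) / (√(m : ℝ) : ℂ) * (starRingEnd ℂ) (GG e ψ x)‖ ≤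
      1 / √(m : ℝ) * (1 / √(Z : ℝ)) := by
  rw [norm_mul, RCLike.norm_conj]
  have h1 : ‖(lamq Q m : ℂ) * ψ (m : ZMod q) / (√(m : ℝ) : ℂ)‖ ≤ 1 / √(m : ℝ) := by
    rw [norm_div, norm_mul, Complex.norm_real, Complex.norm_real,
      Real.norm_of_nonneg (Real.sqrt_nonneg _)]
    apply div_le_div_of_nonneg_right _ (Real.sqrt_nonneg _)
    exact mul_le_one₀ (SecA_abs_lamq hQ m) (norm_nonneg _) (ψ.norm_le_one _)
  by_cases h0 : ψ (m : ZMod q) = 0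
  · rw [h0]
    simp only [mul_zero, zero_div, norm_zero, zero_mul]
    positivity
  · have h2 := h h0
    have hZ0 : (0 : ℝ) < Z := by exact_mod_cast hZ
    have h3 : ‖GG e ψ x‖ ≤ 1 / √(Z : ℝ) := by
      refine (GG_norm he ψ x).trans ?_
      apply one_div_le_one_div_of_le (Real.sqrt_pos.2 hZ0)
      exact Real.sqrt_le_sqrt (by exact_mod_cast h2)
    exact mul_le_mul h1 h3 (norm_nonneg _) (by positivity)

private theorem PDual_far {q d e Q Y : ℕ} (he : e ≤ 1) (hQ : 2 ≤ Q) (hY : 1 ≤ Y)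
    (ψ : DirichletCharacter ℂ q) (x : ℕ → ZMod d) (S : Finset ℕ) (hS : S ⊆ Icc 1 Y)
    (h : ∀ m ∈ S, ψ (m : ZMod q) ≠ 0 → Y ^ 3 ≤ (x m).val) :
    ‖∑ m ∈ S, (lamq Q m : ℂ) * ψ (m : ZMod q) / (√(m : ℝ) : ℂ) *
      (starRingEnd ℂ) (GG e ψ (x m))‖ ≤ 2 / Y := by
  have hY0 : (0 : ℝ) < Y := by exact_mod_cast hY
  have hs : 0 < √(Y : ℝ) := Real.sqrt_pos.2 hY0
  have hY3 : 1 ≤ Y ^ 3 := Nat.one_le_pow _ _ hY
  refine (norm_sum_le _ _).trans ?_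
  refine (Finset.sum_le_sum fun m hm => PDual_term he hQ ψ m (x m) hY3 (h m hm)).trans ?_
  refine (Finset.sum_le_sum_of_subset_of_nonneg hS fun _ _ _ => by positivity).trans ?_
  rw [← Finset.sum_mul]
  have h1 := Maj_sum_sqrt Y
  have h2 : √((Y ^ 3 : ℕ) : ℝ) = Y * √(Y : ℝ) := by
    push_cast
    rw [show (Y : ℝ) ^ 3 = (Y : ℝ) ^ 2 * Y by ring, Real.sqrt_mul (by positivity),
      Real.sqrt_sq hY0.le]
  rw [h2]
  calc (∑ m ∈ Icc 1 Y, 1 / √(m : ℝ)) * (1 / (Y * √(Y : ℝ)))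
      ≤ (2 * √(Y : ℝ)) * (1 / (Y * √(Y : ℝ))) := mul_le_mul_of_nonneg_right h1 (by positivity)
    _ = 2 / Y := by field_simp

/-- the case of a small representative -/
private theorem PDual_near {Q p k j e Y : ℕ} [Fact p.Prime] (he : e ≤ 1) (hQ : 3 ≤ Q)
    (hYd : Y = YY Q) (hY : 1 ≤ Y) (hj : 1 ≤ j) (hjk : j ≤ k) (hdY : 2 * Y ^ 4 < p ^ j)
    (ψ : DirichletCharacter ℂ (p ^ k)) (c : (ZMod (p ^ j))ˣ) {m₁ : ℕ} (hm₁ : m₁ ∈ Icc 1 Y)
    (hc₁ : m₁.Coprime p) (hv : ((c : ZMod (p ^ j)) * (m₁ : ZMod (p ^ j))).val < Y ^ 3)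
    {K : ℝ} (hK : 0 < K)
    (hw : ∀ n : ℕ, 0 < n → n ≤ Y ^ 4 → 1 - K * √((Y : ℝ) ^ 4 / √((p : ℝ) ^ k)) ≤
      wV e (√(((p ^ k : ℕ) : ℝ))) n)
    (hz2 : |∑ t ∈ (Icc 1 (YY Q)).filter (fun t => t.Coprime p), lamq Q t / t| ≤ 3 / 5) :
    ‖∑ m ∈ Icc 1 Y, (lamq Q m : ℂ) * ψ m / (√(m : ℝ) : ℂ) *
      (starRingEnd ℂ) (GG e ψ ((c : ZMod (p ^ j)) * (m : ZMod (p ^ j))))‖ ≤
      1 / √2 + Y * (K * √((Y : ℝ) ^ 4 / √((p : ℝ) ^ k))) + 2 / Y ∧
    ‖∑ m ∈ Icc 1 Y, (lamq Q m : ℂ) * ψ m / (√(m : ℝ) : ℂ) *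
      (starRingEnd ℂ) (GG e ψ (-((c : ZMod (p ^ j)) * (m : ZMod (p ^ j)))))‖ ≤ 2 / Y := by
  have hp : p.Prime := Fact.out
  have hne : NeZero (p ^ j) := ⟨(pow_pos hp.pos j).ne'⟩
  have hd0 : 0 < p ^ j := pow_pos hp.pos j
  rw [Finset.mem_Icc] at hm₁
  have hY34 : Y ^ 3 * Y = Y ^ 4 := by ring
  -- units
  have hunit : ∀ m : ℕ, m.Coprime p → IsUnit (m : ZMod (p ^ j)) := fun m hm =>
    (ZMod.isUnit_iff_coprime _ _).2 (hm.pow_right j)
  have hψ0 : ∀ m : ℕ, ψ (m : ZMod (p ^ k)) ≠ 0 → m.Coprime p := by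
    intro m hm
    by_contra h
    apply hm
    apply MulChar.map_nonunit
    rw [ZMod.isUnit_iff_coprime]
    intro h1
    exact h (Nat.Coprime.coprime_dvd_right (dvd_pow_self p (by omega)) h1)
  have hpos : ∀ m : ℕ, m.Coprime p → 1 ≤ ((c : ZMod (p ^ j)) * (m : ZMod (p ^ j))).val := by
    intro m hm
    rcases Nat.eq_zero_or_pos ((c : ZMod (p ^ j)) * (m : ZMod (p ^ j))).val with h | h
    · exfalso
      rw [ZMod.val_eq_zero] at h
      have h1 : IsUnit ((c : ZMod (p ^ j)) * (m : ZMod (p ^ j))) := c.isUnit.mul (hunit m hm)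
      rw [h] at h1
      have h2 : (0 : ZMod (p ^ j)) = 1 := by
        exact (isUnit_zero_iff.1 h1)
      have h3 : p ^ j = 1 := by
        have h4 : ((1 : ℕ) : ZMod (p ^ j)) = 0 := by rw [Nat.cast_one]; exact h2.symm
        rw [ZMod.natCast_eq_zero_iff] at h4
        exact Nat.dvd_one.1 h4
      have h5 : 1 ≤ Y ^ 4 := Nat.one_le_pow _ _ hY
      omega
    · exact h
  obtain ⟨n₁, hn₁⟩ : ∃ n, n = ((c : ZMod (p ^ j)) * (m₁ : ZMod (p ^ j))).val := ⟨_, rfl⟩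
  have hn₁c : (n₁ : ZMod (p ^ j)) = (c : ZMod (p ^ j)) * (m₁ : ZMod (p ^ j)) := by
    rw [hn₁, ZMod.natCast_zmod_val]
  rw [← hn₁] at hv
  have hn₁pos : 1 ≤ n₁ := hn₁ ▸ hpos m₁ hc₁
  -- small congruences are equalities
  have hcongr : ∀ a b : ℕ, a < p ^ j → b < p ^ j → (a : ZMod (p ^ j)) = (b : ZMod (p ^ j)) →
      a = b := by
    intro a b ha hb h
    have h1 := congrArg ZMod.val h
    rwa [ZMod.val_natCast_of_lt ha, ZMod.val_natCast_of_lt hb] at h1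
  constructor
  swap
  · refine PDual_far he (by omega) hY ψ (fun m => -((c : ZMod (p ^ j)) * (m : ZMod (p ^ j))))
      (Icc 1 Y) (Finset.Subset.refl _) fun m hm hψm => ?_
    rw [Finset.mem_Icc] at hm
    by_contra hlt
    push Not at hlt
    obtain ⟨n, hn⟩ : ∃ n, n = (-((c : ZMod (p ^ j)) * (m : ZMod (p ^ j)))).val := ⟨_, rfl⟩
    rw [← hn] at hlt
    have hnc : (n : ZMod (p ^ j)) = -((c : ZMod (p ^ j)) * (m : ZMod (p ^ j))) := by
      rw [hn, ZMod.natCast_zmod_val]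
    have h1 : ((n * m₁ + n₁ * m : ℕ) : ZMod (p ^ j)) = ((0 : ℕ) : ZMod (p ^ j)) := by
      push_cast
      rw [hnc, hn₁c]
      ring
    have h2 : n * m₁ ≤ Y ^ 3 * Y := Nat.mul_le_mul hlt.le hm₁.2
    have h3 : n₁ * m ≤ Y ^ 3 * Y := Nat.mul_le_mul hv.le hm.2
    have h4 : 1 ≤ n₁ * m := Nat.mul_pos hn₁pos hm.1
    have h5 := hcongr (n * m₁ + n₁ * m) 0 (by omega) hd0 h1
    omega
  -- the coprime pair
  obtain ⟨g, hg⟩ : ∃ g, g = Nat.gcd m₁ n₁ := ⟨_, rfl⟩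
  have hg0 : 0 < g := hg ▸ Nat.gcd_pos_of_pos_left _ hm₁.1
  obtain ⟨m₀, hm₀⟩ : g ∣ m₁ := hg ▸ Nat.gcd_dvd_left _ _
  obtain ⟨n₀, hn₀⟩ : g ∣ n₁ := hg ▸ Nat.gcd_dvd_right _ _
  have hcop : Nat.Coprime m₀ n₀ := by
    have h1 : Nat.gcd m₁ n₁ = g * Nat.gcd m₀ n₀ := by
      conv_lhs => rw [hm₀, hn₀, Nat.gcd_mul_left]
    rw [← hg] at h1
    have h2 : g * Nat.gcd m₀ n₀ = g * 1 := by rw [← h1, mul_one]
    exact Nat.eq_of_mul_eq_mul_left hg0 h2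
  have hgc : g.Coprime p := Nat.Coprime.coprime_dvd_left ⟨m₀, hm₀⟩ hc₁
  have hm₀c : m₀.Coprime p := Nat.Coprime.coprime_dvd_left ⟨g, by rw [hm₀, mul_comm]⟩ hc₁
  have hm₀pos : 1 ≤ m₀ := by
    rcases Nat.eq_zero_or_pos m₀ with h | h
    · rw [h, mul_zero] at hm₀; omega
    · exact h
  have hn₀pos : 1 ≤ n₀ := by
    rcases Nat.eq_zero_or_pos n₀ with h | h
    · rw [h, mul_zero] at hn₀; omega
    · exact h
  have hm₀le : m₀ ≤ Y := by
    have : m₀ ≤ g * m₀ := Nat.le_mul_of_pos_left _ hg0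
    omega
  have hn₀le : n₀ < Y ^ 3 := by
    have : n₀ ≤ g * n₀ := Nat.le_mul_of_pos_left _ hg0
    omega
  have hcm₀ : (n₀ : ZMod (p ^ j)) = (c : ZMod (p ^ j)) * (m₀ : ZMod (p ^ j)) := by
    have h1 : (g : ZMod (p ^ j)) * (n₀ : ZMod (p ^ j)) =
        (g : ZMod (p ^ j)) * ((c : ZMod (p ^ j)) * (m₀ : ZMod (p ^ j))) := by
      have h2 := hn₁c
      rw [hn₀, hm₀] at h2
      push_cast at h2
      rw [h2]
      ring
    exact (hunit g hgc).mul_left_cancel h1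
  -- the value at multiples
  have hval : ∀ t : ℕ, t ≤ Y → ((c : ZMod (p ^ j)) * ((t * m₀ : ℕ) : ZMod (p ^ j))).val =
      t * n₀ := by
    intro t ht
    have h1 : (c : ZMod (p ^ j)) * ((t * m₀ : ℕ) : ZMod (p ^ j)) =
        ((t * n₀ : ℕ) : ZMod (p ^ j)) := by
      push_cast
      rw [hcm₀]
      ring
    rw [h1, ZMod.val_natCast_of_lt]
    have h2 : t * n₀ ≤ Y * Y ^ 3 := Nat.mul_le_mul ht hn₀le.le
    have h3 : Y * Y ^ 3 = Y ^ 4 := by ring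
    have h5 : 1 ≤ Y ^ 4 := Nat.one_le_pow _ _ hY
    omega
  -- split
  have hsplit := Finset.sum_filter_add_sum_filter_not (Icc 1 Y) (fun m => m₀ ∣ m)
    (fun m => (lamq Q m : ℂ) * ψ m / (√(m : ℝ) : ℂ) *
      (starRingEnd ℂ) (GG e ψ ((c : ZMod (p ^ j)) * (m : ZMod (p ^ j)))))
  have hfar : ‖∑ m ∈ (Icc 1 Y).filter (fun m => ¬ m₀ ∣ m), (lamq Q m : ℂ) * ψ m / (√(m : ℝ) : ℂ) *
      (starRingEnd ℂ) (GG e ψ ((c : ZMod (p ^ j)) * (m : ZMod (p ^ j))))‖ ≤ 2 / Y := by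
    refine PDual_far he (by omega) hY ψ (fun m => (c : ZMod (p ^ j)) * (m : ZMod (p ^ j)))
      _ (Finset.filter_subset _ _) fun m hm hψm => ?_
    rw [Finset.mem_filter, Finset.mem_Icc] at hm
    by_contra hlt
    push Not at hlt
    obtain ⟨n, hn⟩ : ∃ n, n = ((c : ZMod (p ^ j)) * (m : ZMod (p ^ j))).val := ⟨_, rfl⟩
    rw [← hn] at hlt
    have hnc : (n : ZMod (p ^ j)) = (c : ZMod (p ^ j)) * (m : ZMod (p ^ j)) := by
      rw [hn, ZMod.natCast_zmod_val]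
    have h1 : ((n * m₀ : ℕ) : ZMod (p ^ j)) = ((n₀ * m : ℕ) : ZMod (p ^ j)) := by
      push_cast
      rw [hnc, hcm₀]
      ring
    have h2 : n * m₀ ≤ Y ^ 3 * Y := Nat.mul_le_mul hlt.le hm₀le
    have h3 : n₀ * m ≤ Y ^ 3 * Y := Nat.mul_le_mul hn₀le.le hm.1.2
    have h4 := hcongr _ _ (by omega) (by omega) h1
    have h5 : m₀ ∣ n₀ * m := ⟨n, by rw [← h4, mul_comm]⟩
    exact hm.2 (hcop.dvd_of_dvd_mul_left h5)
  -- the near part
  obtain ⟨κ, hκ⟩ : ∃ κ : ℂ, κ = ψ (m₀ : ZMod (p ^ k)) *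
    (starRingEnd ℂ) (ψ (n₀ : ZMod (p ^ k))) / ((√(m₀ : ℝ) * √(n₀ : ℝ) : ℝ) : ℂ) := ⟨_, rfl⟩
  have hnear : ∑ m ∈ (Icc 1 Y).filter (fun m => m₀ ∣ m), (lamq Q m : ℂ) * ψ m / (√(m : ℝ) : ℂ) *
      (starRingEnd ℂ) (GG e ψ ((c : ZMod (p ^ j)) * (m : ZMod (p ^ j)))) =
      κ * ((∑ t ∈ (Icc 1 (Y / m₀)).filter (fun t => t.Coprime p),
        lamq Q (t * m₀) / t * wV e (√(((p ^ k : ℕ) : ℝ))) (t * n₀) : ℝ) : ℂ) := by
    have h1 : ∑ m ∈ (Icc 1 Y).filter (fun m => m₀ ∣ m), (lamq Q m : ℂ) * ψ m / (√(m : ℝ) : ℂ) *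
        (starRingEnd ℂ) (GG e ψ ((c : ZMod (p ^ j)) * (m : ZMod (p ^ j)))) =
        ∑ t ∈ Icc 1 (Y / m₀), (lamq Q (t * m₀) : ℂ) * ψ ((t * m₀ : ℕ) : ZMod (p ^ k)) /
          (√((t * m₀ : ℕ) : ℝ) : ℂ) *
          (starRingEnd ℂ) (GG e ψ ((c : ZMod (p ^ j)) * ((t * m₀ : ℕ) : ZMod (p ^ j)))) := by
      refine Finset.sum_nbij' (fun m => m / m₀) (fun t => t * m₀) ?_ ?_ ?_ ?_ ?_
      · intro m hm
        rw [Finset.mem_filter, Finset.mem_Icc] at hm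
        rw [Finset.mem_Icc]
        exact ⟨Nat.div_pos (Nat.le_of_dvd hm.1.1 hm.2) hm₀pos, Nat.div_le_div_right hm.1.2⟩
      · intro t ht
        rw [Finset.mem_Icc] at ht
        rw [Finset.mem_filter, Finset.mem_Icc]
        exact ⟨⟨Nat.mul_pos ht.1 hm₀pos, (Nat.le_div_iff_mul_le hm₀pos).1 ht.2⟩,
          dvd_mul_left _ _⟩
      · intro m hm
        rw [Finset.mem_filter] at hm
        exact Nat.div_mul_cancel hm.2
      · intro t _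
        exact Nat.mul_div_cancel _ hm₀pos
      · intro m hm
        rw [Finset.mem_filter] at hm
        rw [Nat.div_mul_cancel hm.2]
    rw [h1, Complex.ofReal_sum, Finset.mul_sum, Finset.sum_filter]
    refine Finset.sum_congr rfl fun t ht => ?_
    rw [Finset.mem_Icc] at ht
    have htY : t ≤ Y := ht.2.trans (Nat.div_le_self _ _)
    have ht0 : (0 : ℝ) < t := by exact_mod_cast ht.1
    unfold GG
    rw [hval t htY]
    have e1 : √((t * m₀ : ℕ) : ℝ) = √(t : ℝ) * √(m₀ : ℝ) := by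
      push_cast
      exact Real.sqrt_mul ht0.le _
    have e2 : √((t * n₀ : ℕ) : ℝ) = √(t : ℝ) * √(n₀ : ℝ) := by
      push_cast
      exact Real.sqrt_mul ht0.le _
    have e3 : (√(t : ℝ) : ℂ) * (√(t : ℝ) : ℂ) = (t : ℂ) := by
      rw [← Complex.ofReal_mul, Real.mul_self_sqrt ht0.le]
      simp
    rw [e1, e2]
    by_cases hct : t.Coprime p
    · rw [if_pos hct]
      have e4 : ψ (t : ZMod (p ^ k)) * (starRingEnd ℂ) (ψ (t : ZMod (p ^ k))) = 1 := by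
        have hu : IsUnit (t : ZMod (p ^ k)) := (ZMod.isUnit_iff_coprime _ _).2 (hct.pow_right k)
        obtain ⟨u, hu'⟩ := hu
        rw [← hu', Complex.mul_conj, Complex.normSq_eq_norm_sq,
          DirichletCharacter.unit_norm_eq_one]
        simp
      have ht0' : (t : ℂ) ≠ 0 := by exact_mod_cast ht0.ne'
      have hst : (√(t : ℝ) : ℂ) ≠ 0 := by
        have := (Real.sqrt_pos.2 ht0).ne'
        exact_mod_cast this
      have hsm : (√(m₀ : ℝ) : ℂ) ≠ 0 := by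
        have : (0 : ℝ) < m₀ := by exact_mod_cast hm₀pos
        have := (Real.sqrt_pos.2 this).ne'
        exact_mod_cast this
      have hsn : (√(n₀ : ℝ) : ℂ) ≠ 0 := by
        have : (0 : ℝ) < n₀ := by exact_mod_cast hn₀pos
        have := (Real.sqrt_pos.2 this).ne'
        exact_mod_cast this
      rw [hκ]
      push_cast
      rw [map_mul, map_mul, map_div₀, map_mul, map_mul, map_mul, Complex.conj_ofReal,
        Complex.conj_ofReal, Complex.conj_ofReal]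
      exact PDual_alg e4 e3 hst hsm hsn
    · rw [if_neg hct]
      have e4 : ψ (t : ZMod (p ^ k)) = 0 := by
        by_contra h
        exact hct (hψ0 t h)
      push_cast
      rw [map_mul, e4]
      simp
  rw [← hsplit]
  refine (norm_add_le _ _).trans (add_le_add ?_ hfar)
  rw [hnear, norm_mul, Complex.norm_real, Real.norm_eq_abs]
  have hm₀R : (1 : ℝ) ≤ m₀ := by exact_mod_cast hm₀pos
  have hn₀R : (1 : ℝ) ≤ n₀ := by exact_mod_cast hn₀pos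
  have hκn : ‖κ‖ ≤ 1 / √((m₀ : ℝ) * n₀) := by
    rw [hκ, norm_div, norm_mul, RCLike.norm_conj, Complex.norm_real,
      Real.norm_of_nonneg (by positivity), ← Real.sqrt_mul (by linarith)]
    apply div_le_div_of_nonneg_right _ (Real.sqrt_nonneg _)
    exact mul_le_one₀ (ψ.norm_le_one _) (norm_nonneg _) (ψ.norm_le_one _)
  have hκ1 : 1 / √((m₀ : ℝ) * n₀) ≤ 1 := by
    have h1 : 1 ≤ √((m₀ : ℝ) * n₀) := Real.one_le_sqrt.2 (by nlinarith)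
    rw [div_le_one (by linarith)]
    exact h1
  obtain ⟨η, hη⟩ : ∃ η : ℝ, η = K * √((Y : ℝ) ^ 4 / √((p : ℝ) ^ k)) := ⟨_, rfl⟩
  rw [← hη] at hw ⊢
  have hη0 : 0 ≤ η := by rw [hη]; positivity
  obtain ⟨A, hA⟩ : ∃ A : ℝ, A = ∑ t ∈ (Icc 1 (Y / m₀)).filter (fun t => t.Coprime p),
    lamq Q (t * m₀) / t := ⟨_, rfl⟩
  have hsum : |∑ t ∈ (Icc 1 (Y / m₀)).filter (fun t => t.Coprime p),
        lamq Q (t * m₀) / t * wV e (√(((p ^ k : ℕ) : ℝ))) (t * n₀)| ≤ |A| + Y * η := by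
    have h1 : ∑ t ∈ (Icc 1 (Y / m₀)).filter (fun t => t.Coprime p),
        lamq Q (t * m₀) / t * wV e (√(((p ^ k : ℕ) : ℝ))) (t * n₀) = A -
        ∑ t ∈ (Icc 1 (Y / m₀)).filter (fun t => t.Coprime p),
        lamq Q (t * m₀) / t * (1 - wV e (√(((p ^ k : ℕ) : ℝ))) (t * n₀)) := by
      rw [hA, ← Finset.sum_sub_distrib]
      refine Finset.sum_congr rfl fun t _ => ?_
      ring
    rw [h1]
    refine (abs_sub _ _).trans (add_le_add le_rfl ?_)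
    refine (Finset.abs_sum_le_sum_abs _ _).trans ?_
    have h2 : ∀ t ∈ (Icc 1 (Y / m₀)).filter (fun t => t.Coprime p),
        |lamq Q (t * m₀) / t * (1 - wV e (√(((p ^ k : ℕ) : ℝ))) (t * n₀))| ≤ η := by
      intro t ht
      rw [Finset.mem_filter, Finset.mem_Icc] at ht
      have ht1 : (1 : ℝ) ≤ t := by exact_mod_cast ht.1.1
      have htY : t ≤ Y := ht.1.2.trans (Nat.div_le_self _ _)
      have h3 : t * n₀ ≤ Y ^ 4 := by
        have h4 : t * n₀ ≤ Y * Y ^ 3 := Nat.mul_le_mul htY hn₀le.le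
        have h5 : Y * Y ^ 3 = Y ^ 4 := by ring
        omega
      have h4 := hw (t * n₀) (Nat.mul_pos ht.1.1 hn₀pos) h3
      have h5 := wV_le_one he (√(((p ^ k : ℕ) : ℝ))) (t * n₀)
      rw [abs_mul, abs_div, abs_of_pos (by linarith : (0 : ℝ) < t)]
      have h6 : |lamq Q (t * m₀)| / t ≤ 1 := by
        rw [div_le_one (by linarith)]
        exact (SecA_abs_lamq (by omega) _).trans ht1
      have h7 : |1 - wV e (√(((p ^ k : ℕ) : ℝ))) (t * n₀)| ≤ η := by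
        rw [abs_of_nonneg (by linarith)]
        linarith
      calc |lamq Q (t * m₀)| / t * |1 - wV e (√(((p ^ k : ℕ) : ℝ))) (t * n₀)| ≤ 1 * η :=
            mul_le_mul h6 h7 (abs_nonneg _) zero_le_one
        _ = η := one_mul η
    refine (Finset.sum_le_sum h2).trans ?_
    rw [Finset.sum_const, nsmul_eq_mul]
    apply mul_le_mul_of_nonneg_right _ hη0
    have h3 : ((Icc 1 (Y / m₀)).filter (fun t => t.Coprime p)).card ≤ Y := by
      refine (Finset.card_filter_le _ _).trans ?_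
      rw [Nat.card_Icc, Nat.add_sub_cancel]
      exact Nat.div_le_self _ _
    exact_mod_cast h3
  have hmain : 1 / √((m₀ : ℝ) * n₀) * |A| ≤ 1 / √2 := by
    by_cases h1 : m₀ * n₀ = 1
    · have h2 : m₀ = 1 := Nat.eq_one_of_mul_eq_one_right h1
      have h3 : |A| ≤ 3 / 5 := by
        rw [hA, h2]
        simp only [Nat.div_one, mul_one]
        rw [hYd]
        exact hz2
      have h4 : (3 / 5 : ℝ) ≤ 1 / √2 := by
        rw [le_div_iff₀ (by positivity)]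
        have h5 : √2 ≤ 5 / 3 := by
          apply Real.sqrt_le_iff.2
          norm_num
        linarith
      calc 1 / √((m₀ : ℝ) * n₀) * |A| ≤ 1 * |A| :=
            mul_le_mul_of_nonneg_right hκ1 (abs_nonneg _)
        _ = |A| := one_mul _
        _ ≤ _ := h3.trans h4
    · have h2 : 2 ≤ m₀ * n₀ := by
        have : 1 ≤ m₀ * n₀ := Nat.mul_pos hm₀pos hn₀pos
        omega
      have h3 : (2 : ℝ) ≤ (m₀ : ℝ) * n₀ := by exact_mod_cast h2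
      have h4 : |A| ≤ 1 := by
        rw [hA, hYd]
        exact zed1 Q p m₀ hQ hm₀pos hp.ne_zero
      have h5 : 1 / √((m₀ : ℝ) * n₀) ≤ 1 / √2 := by
        apply one_div_le_one_div_of_le (by positivity)
        exact Real.sqrt_le_sqrt h3
      calc 1 / √((m₀ : ℝ) * n₀) * |A| ≤ 1 / √2 * 1 :=
            mul_le_mul h5 h4 (abs_nonneg _) (by positivity)
        _ = _ := mul_one _
  calc ‖κ‖ * |∑ t ∈ (Icc 1 (Y / m₀)).filter (fun t => t.Coprime p),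
        lamq Q (t * m₀) / t * wV e (√(((p ^ k : ℕ) : ℝ))) (t * n₀)|
      ≤ 1 / √((m₀ : ℝ) * n₀) * (|A| + Y * η) :=
        mul_le_mul hκn hsum (abs_nonneg _) (by positivity)
    _ = 1 / √((m₀ : ℝ) * n₀) * |A| + 1 / √((m₀ : ℝ) * n₀) * (Y * η) := by ring
    _ ≤ 1 / √2 + 1 * (Y * η) :=
        add_le_add hmain (mul_le_mul_of_nonneg_right hκ1 (by positivity))
    _ = _ := by rw [one_mul]

/-- the dual term of the first moment -/
theorem dual : ∃ Q₀ : ℕ, ∀ (Q p k j e : ℕ) [Fact p.Prime], Q₀ ≤ Q → e ≤ 1 → 2 * j ≤ k →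
    k ≤ 3 * j → (Q : ℝ) ≤ ((p : ℝ) ^ k) ^ (1 / 10 : ℝ) → ∀ (ψ : DirichletCharacter ℂ (p ^ k))
    (c₀ : (ZMod (p ^ j))ˣ),
    ‖∑ m ∈ Icc 1 (YY Q), (lamq Q m : ℂ) * ψ m / (√(m : ℝ) : ℂ) *
      (starRingEnd ℂ) (GG e ψ ((c₀ : ZMod (p ^ j)) * (m : ZMod (p ^ j))) +
        GG e ψ (-((c₀ : ZMod (p ^ j)) * (m : ZMod (p ^ j)))))‖ ≤
      29 / 40 := by
  obtain ⟨K, hK, hwlow⟩ := wV_low
  obtain ⟨Q₂, hz2⟩ := zed2
  have htend : Filter.Tendsto (fun Q : ℕ => (Q : ℝ) ^ (1 / 50 : ℝ)) Filter.atTop Filter.atTop :=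
    (tendsto_rpow_atTop (by norm_num)).comp tendsto_natCast_atTop_atTop
  obtain ⟨Q₁, hQ₁⟩ := Filter.eventually_atTop.1 (htend.eventually_ge_atTop 800)
  refine ⟨max (max Q₁ Q₂) (max 4 ⌈200 * K⌉₊), ?_⟩
  intro Q p k j e _ hQ he hj2 hj3 hQq ψ c₀
  have hp : p.Prime := Fact.out
  have hp0 : (0 : ℝ) < p := by exact_mod_cast hp.pos
  have hQ1 := hQ₁ Q (le_trans (le_trans (le_max_left _ _) (le_max_left _ _)) hQ)
  have hQ2 := hz2 Q (le_trans (le_trans (le_max_right _ _) (le_max_left _ _)) hQ) p hp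
  have hQ4 : 4 ≤ Q := le_trans (le_trans (le_max_left _ _) (le_max_right _ _)) hQ
  have hQK : 200 * K ≤ Q := (Nat.le_ceil _).trans
    (by exact_mod_cast le_trans (le_trans (le_max_right _ _) (le_max_right _ _)) hQ)
  have hQ4R : (4 : ℝ) ≤ Q := by exact_mod_cast hQ4
  have hQ0 : (0 : ℝ) < Q := by linarith
  have hne : NeZero (p ^ j) := ⟨(pow_pos hp.pos j).ne'⟩
  -- the length of the mollifier
  obtain ⟨Y, hY⟩ : ∃ Y, Y = YY Q := ⟨_, rfl⟩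
  have hyy : yy Q ^ 2 = (Q : ℝ) ^ (1 / 50 : ℝ) := by
    unfold yy
    rw [← Real.rpow_natCast, ← Real.rpow_mul hQ0.le]
    norm_num
  have hY800 : 800 ≤ Y := by
    rw [hY]
    unfold YY
    apply Nat.le_floor
    rw [hyy]
    exact_mod_cast hQ1
  have hY1 : 1 ≤ Y := by omega
  have hY0 : (0 : ℝ) < Y := by exact_mod_cast (by omega : 0 < Y)
  have hYle : (Y : ℝ) ≤ (Q : ℝ) ^ (1 / 50 : ℝ) := by
    rw [hY, ← hyy]
    unfold YY
    exact Nat.floor_le (by positivity)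
  have hY4 : (Y : ℝ) ^ 4 ≤ Q := by
    calc (Y : ℝ) ^ 4 ≤ ((Q : ℝ) ^ (1 / 50 : ℝ)) ^ 4 := pow_le_pow_left₀ hY0.le hYle 4
      _ = (Q : ℝ) ^ (4 / 50 : ℝ) := by
          rw [← Real.rpow_natCast, ← Real.rpow_mul hQ0.le]
          norm_num
      _ ≤ (Q : ℝ) ^ (1 : ℝ) := Real.rpow_le_rpow_of_exponent_le (by linarith) (by norm_num)
      _ = Q := Real.rpow_one _
  have hYQ : (Y : ℝ) ≤ Q := by
    have h1 : (1 : ℝ) ≤ Y := by exact_mod_cast hY1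
    have h2 : (Y : ℝ) ≤ (Y : ℝ) ^ 4 := le_self_pow₀ h1 (by norm_num)
    linarith
  -- the modulus
  obtain ⟨q, hq⟩ : ∃ q : ℝ, q = (p : ℝ) ^ k := ⟨_, rfl⟩
  have hq0 : 0 < q := by rw [hq]; positivity
  have hcast : ((p ^ k : ℕ) : ℝ) = q := by rw [hq]; push_cast; rfl
  have hqQ : (Q : ℝ) ^ 10 ≤ q := by
    rw [← hq] at hQq
    calc (Q : ℝ) ^ 10 ≤ (q ^ (1 / 10 : ℝ)) ^ 10 := pow_le_pow_left₀ hQ0.le hQq 10
      _ = q := by
          rw [← Real.rpow_natCast, ← Real.rpow_mul hq0.le]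
          norm_num
  have hdQ : Q ^ 3 ≤ p ^ j := by
    have h1 : Q ^ 10 ≤ p ^ k := by
      rw [hq] at hqQ
      exact_mod_cast hqQ
    have h2 : p ^ k ≤ (p ^ j) ^ 3 := by
      rw [← pow_mul]
      exact Nat.pow_le_pow_right hp.pos (by omega)
    have h3 : (Q ^ 3) ^ 3 ≤ (p ^ j) ^ 3 := by
      calc (Q ^ 3) ^ 3 = Q ^ 9 := by ring
        _ ≤ Q ^ 10 := Nat.pow_le_pow_right (by omega) (by norm_num)
        _ ≤ (p ^ j) ^ 3 := h1.trans h2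
    exact (Nat.pow_le_pow_iff_left (by norm_num)).1 h3
  have hdY : 2 * Y ^ 4 < p ^ j := by
    have h1 : Y ^ 4 ≤ Q := by exact_mod_cast hY4
    have h2 : 2 * Q < Q ^ 3 := by
      have h3 : 4 * 4 * Q ≤ Q * Q * Q := by
        apply Nat.mul_le_mul_right
        exact Nat.mul_le_mul hQ4 hQ4
      have h4 : Q ^ 3 = Q * Q * Q := by ring
      omega
    omega
  have hj1 : 1 ≤ j := by
    rcases Nat.eq_zero_or_pos j with h | h
    · rw [h, pow_zero] at hdY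
      have : 1 ≤ Y ^ 4 := Nat.one_le_pow _ _ hY1
      omega
    · exact h
  -- square roots
  have hsq : (Q : ℝ) ^ 5 ≤ √q := by
    apply Real.le_sqrt_of_sq_le
    calc ((Q : ℝ) ^ 5) ^ 2 = (Q : ℝ) ^ 10 := by ring
      _ ≤ q := hqQ
  have hsq0 : 0 < √q := Real.sqrt_pos.2 hq0
  have hη : √((Y : ℝ) ^ 4 / √q) ≤ 1 / (Q : ℝ) ^ 2 := by
    apply Real.sqrt_le_iff.2
    refine ⟨by positivity, ?_⟩
    rw [div_le_iff₀ hsq0]
    calc (Y : ℝ) ^ 4 ≤ Q := hY4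
      _ = (1 / (Q : ℝ) ^ 2) ^ 2 * (Q : ℝ) ^ 5 := by field_simp
      _ ≤ (1 / (Q : ℝ) ^ 2) ^ 2 * √q := mul_le_mul_of_nonneg_left hsq (by positivity)
  have hYη : (Y : ℝ) * (K * √((Y : ℝ) ^ 4 / √q)) ≤ 1 / 200 := by
    calc (Y : ℝ) * (K * √((Y : ℝ) ^ 4 / √q)) ≤ Q * (K * (1 / (Q : ℝ) ^ 2)) := by gcongr
      _ = K / Q := by field_simp
      _ ≤ 1 / 200 := by
          rw [div_le_iff₀ hQ0]
          linarith
  have hw : ∀ n : ℕ, 0 < n → n ≤ Y ^ 4 → 1 - K * √((Y : ℝ) ^ 4 / √((p : ℝ) ^ k)) ≤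
      wV e (√(((p ^ k : ℕ) : ℝ))) n := by
    intro n hn hnY
    rw [hcast, ← hq]
    have hnR : (n : ℝ) ≤ (Y : ℝ) ^ 4 := by exact_mod_cast hnY
    have h1 : (n : ℝ) ≤ √q := by
      have h2 : (Q : ℝ) ≤ (Q : ℝ) ^ 5 := le_self_pow₀ (by linarith) (by norm_num)
      linarith
    refine le_trans ?_ (hwlow e he (√q) n hsq0 hn h1)
    have h2 : √((n : ℝ) / √q) ≤ √((Y : ℝ) ^ 4 / √q) := by
      apply Real.sqrt_le_sqrt
      gcongr
    have h3 := mul_le_mul_of_nonneg_left h2 hK.le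
    linarith
  have hYinv : 2 / (Y : ℝ) ≤ 1 / 400 := by
    have h1 : (800 : ℝ) ≤ Y := by exact_mod_cast hY800
    rw [div_le_div_iff₀ hY0 (by norm_num)]
    linarith
  have hsqrt2 : 1 / √2 ≤ 7072 / 10000 := by
    rw [div_le_div_iff₀ (by positivity) (by norm_num)]
    have h1 : (14141 / 10000 : ℝ) ≤ √2 := Real.le_sqrt_of_sq_le (by norm_num)
    linarith
  -- the two signs
  have hsplit : ∑ m ∈ Icc 1 Y, (lamq Q m : ℂ) * ψ m / (√(m : ℝ) : ℂ) *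
      (starRingEnd ℂ) (GG e ψ ((c₀ : ZMod (p ^ j)) * (m : ZMod (p ^ j))) +
        GG e ψ (-((c₀ : ZMod (p ^ j)) * (m : ZMod (p ^ j))))) =
      ∑ m ∈ Icc 1 Y, (lamq Q m : ℂ) * ψ m / (√(m : ℝ) : ℂ) *
        (starRingEnd ℂ) (GG e ψ ((c₀ : ZMod (p ^ j)) * (m : ZMod (p ^ j)))) +
      ∑ m ∈ Icc 1 Y, (lamq Q m : ℂ) * ψ m / (√(m : ℝ) : ℂ) *
        (starRingEnd ℂ) (GG e ψ (-((c₀ : ZMod (p ^ j)) * (m : ZMod (p ^ j))))) := by
    rw [← Finset.sum_add_distrib]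
    refine Finset.sum_congr rfl fun m _ => ?_
    rw [map_add]
    ring
  rw [← hY, hsplit]
  refine (norm_add_le _ _).trans ?_
  by_cases h1 : ∃ m₁ ∈ Icc 1 Y, m₁.Coprime p ∧
      ((c₀ : ZMod (p ^ j)) * (m₁ : ZMod (p ^ j))).val < Y ^ 3
  · obtain ⟨m₁, hm₁, hc₁, hv⟩ := h1
    obtain ⟨h2, h3⟩ := PDual_near he (by omega) hY hY1 hj1 (by omega) hdY ψ c₀ hm₁ hc₁ hv hK hw hQ2
    rw [← hq] at h2
    linarith
  by_cases h2 : ∃ m₁ ∈ Icc 1 Y, m₁.Coprime p ∧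
      (((-c₀ : (ZMod (p ^ j))ˣ) : ZMod (p ^ j)) * (m₁ : ZMod (p ^ j))).val < Y ^ 3
  · obtain ⟨m₁, hm₁, hc₁, hv⟩ := h2
    obtain ⟨h2, h3⟩ := PDual_near he (by omega) hY hY1 hj1 (by omega) hdY ψ (-c₀) hm₁ hc₁ hv hK
      hw hQ2
    rw [← hq] at h2
    simp only [Units.val_neg, neg_mul, neg_neg] at h2 h3
    linarith
  · have hψ0 : ∀ m : ℕ, ψ (m : ZMod (p ^ k)) ≠ 0 → m.Coprime p := by
      intro m hm
      by_contra h
      apply hm
      apply MulChar.map_nonunit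
      rw [ZMod.isUnit_iff_coprime]
      intro h1
      exact h (Nat.Coprime.coprime_dvd_right (dvd_pow_self p (by omega)) h1)
    have h3 := PDual_far (Q := Q) he (by omega) hY1 ψ
      (fun m => (c₀ : ZMod (p ^ j)) * (m : ZMod (p ^ j))) (Icc 1 Y) (Finset.Subset.refl _)
      (fun m hm hψm => by
        by_contra hlt
        push Not at hlt
        exact h1 ⟨m, hm, hψ0 m hψm, hlt⟩)
    have h4 := PDual_far (Q := Q) he (by omega) hY1 ψ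
      (fun m => -((c₀ : ZMod (p ^ j)) * (m : ZMod (p ^ j)))) (Icc 1 Y) (Finset.Subset.refl _)
      (fun m hm hψm => by
        by_contra hlt
        push Not at hlt
        refine h2 ⟨m, hm, hψ0 m hψm, ?_⟩
        rw [Units.val_neg, neg_mul]
        exact hlt)
    linarith

end Pool.Agent.NP
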