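import Pool.Agent.Lib.MP_afd523_nt_P.PDefs
import Pool.Agent.Lib.MP_afd523_nt_T.Sec

/-!
Project NP (MP_afd523_nt): expansion of the second moment over a coset.
-/

namespace Pool.Agent.NP

open Finset Complex MeasureTheory Pool.Agent.NV Pool.Agent.NVT

private theorem PExp_key (z : ℂ) : ((‖z‖ ^ 2 : ℝ) : ℂ) = z * (starRingEnd ℂ) z := by
  rw [Complex.mul_conj, Complex.normSq_eq_norm_sq]

/-- the classes -/
private theorem PExp_class {d : ℕ} [NeZero d] {ι : Type*} (I : Finset ι) (P : ι → ℕ) (V : ι → ℂ)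
    (hV : ∀ x ∈ I, ¬ IsUnit ((P x : ℕ) : ZMod d) → V x = 0) :
    ∑ χ : DirichletCharacter ℂ d, ‖∑ x ∈ I, χ ((P x : ℕ) : ZMod d) * V x‖ ^ 2 =
      (Nat.totient d : ℝ) * ‖∑ x ∈ I, ∑ y ∈ I, if ((P x : ℕ) : ZMod d) = ((P y : ℕ) : ZMod d) then
        V x * (starRingEnd ℂ) (V y) else 0‖ := by
  classical
  obtain ⟨α, hα⟩ : ∃ α : (ZMod d)ˣ → ℂ, α = fun b : (ZMod d)ˣ => ∑ x ∈ I,
    if ((P x : ℕ) : ZMod d) = (b : ZMod d) then V x else 0 := ⟨_, rfl⟩
  have h1 : ∀ χ : DirichletCharacter ℂ d, ∑ x ∈ I, χ ((P x : ℕ) : ZMod d) * V x =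
      ∑ b : (ZMod d)ˣ, χ (b : ZMod d) * α b := by
    intro χ
    rw [hα]
    simp only [Finset.mul_sum]
    rw [Finset.sum_comm]
    refine Finset.sum_congr rfl fun x hx => ?_
    by_cases hu : IsUnit ((P x : ℕ) : ZMod d)
    · obtain ⟨u, hu'⟩ := hu
      rw [Finset.sum_eq_single u]
      · rw [if_pos hu'.symm, hu']
      · intro b _ hb
        rw [if_neg, mul_zero]
        intro h2
        apply hb
        apply Units.ext
        rw [← h2, hu']
      · intro h2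
        exact absurd (Finset.mem_univ u) h2
    · rw [hV x hx hu]
      simp
  rw [Finset.sum_congr rfl fun χ _ => by rw [h1 χ], parseval]
  congr 1
  have h2 : ((∑ b : (ZMod d)ˣ, ‖α b‖ ^ 2 : ℝ) : ℂ) = ∑ x ∈ I, ∑ y ∈ I,
      if ((P x : ℕ) : ZMod d) = ((P y : ℕ) : ZMod d) then V x * (starRingEnd ℂ) (V y) else 0 := by
    rw [Complex.ofReal_sum]
    have h3 : ∀ b : (ZMod d)ˣ, ((‖α b‖ ^ 2 : ℝ) : ℂ) = ∑ x ∈ I, ∑ y ∈ I,
        (if ((P x : ℕ) : ZMod d) = (b : ZMod d) then V x else 0) *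
        (starRingEnd ℂ) (if ((P y : ℕ) : ZMod d) = (b : ZMod d) then V y else 0) := by
      intro b
      rw [PExp_key, hα]
      simp only
      rw [map_sum, Finset.sum_mul_sum]
    rw [Finset.sum_congr rfl fun b _ => h3 b, Finset.sum_comm]
    refine Finset.sum_congr rfl fun x hx => ?_
    rw [Finset.sum_comm]
    refine Finset.sum_congr rfl fun y hy => ?_
    by_cases hu : IsUnit ((P x : ℕ) : ZMod d)
    · obtain ⟨u, hu'⟩ := hu
      rw [Finset.sum_eq_single u]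
      · rw [if_pos hu'.symm, hu']
        by_cases h4 : ((P x : ℕ) : ZMod d) = ((P y : ℕ) : ZMod d)
        · rw [if_pos h4, if_pos h4.symm]
        · rw [if_neg h4, if_neg (fun h => h4 h.symm), map_zero, mul_zero]
      · intro b _ hb
        rw [if_neg, zero_mul]
        intro h2
        apply hb
        apply Units.ext
        rw [← h2, hu']
      · intro h2
        exact absurd (Finset.mem_univ u) h2
    · rw [hV x hx hu]
      simp
  rw [← h2, Complex.norm_real, Real.norm_of_nonneg]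
  exact Finset.sum_nonneg fun b _ => by positivity

private theorem PExp_tri {ι : Type*} (I : Finset ι) (P : ι → ℕ) (V : ι → ℂ) (R : ι → ι → Prop)
    [∀ x y, Decidable (R x y)] (hR : ∀ x y, R x y ↔ R y x) (hR0 : ∀ x y, P x = P y → R x y) :
    ‖∑ x ∈ I, ∑ y ∈ I, if R x y then V x * (starRingEnd ℂ) (V y) else 0‖ ≤
      ‖∑ x ∈ I, ∑ y ∈ I, if P x = P y then V x * (starRingEnd ℂ) (V y) else 0‖ +
      2 * ‖∑ x ∈ I, ∑ y ∈ I, if R x y ∧ P y < P x then V x * (starRingEnd ℂ) (V y) else 0‖ := by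
  have h1 : ∑ x ∈ I, ∑ y ∈ I, (if R x y then V x * (starRingEnd ℂ) (V y) else 0) =
      ∑ x ∈ I, ∑ y ∈ I, (if P x = P y then V x * (starRingEnd ℂ) (V y) else 0) +
      ∑ x ∈ I, ∑ y ∈ I, (if R x y ∧ P y < P x then V x * (starRingEnd ℂ) (V y) else 0) +
      ∑ x ∈ I, ∑ y ∈ I, (if R x y ∧ P x < P y then V x * (starRingEnd ℂ) (V y) else 0) := by
    rw [← Finset.sum_add_distrib, ← Finset.sum_add_distrib]
    refine Finset.sum_congr rfl fun x _ => ?_
    rw [← Finset.sum_add_distrib, ← Finset.sum_add_distrib]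
    refine Finset.sum_congr rfl fun y _ => ?_
    rcases lt_trichotomy (P x) (P y) with h | h | h
    · have e1 : ¬ P x = P y := h.ne
      have e2 : ¬ P y < P x := h.asymm
      simp [e1, e2, h]
    · have e1 : R x y := hR0 x y h
      have e2 : ¬ P y < P x := by rw [h]; exact lt_irrefl _
      have e3 : ¬ P x < P y := by rw [h]; exact lt_irrefl _
      rw [if_pos e1, if_pos h, if_neg (fun h4 => e2 h4.2), if_neg (fun h4 => e3 h4.2)]
      simp
    · have e1 : ¬ P x = P y := h.ne'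
      have e2 : ¬ P x < P y := h.asymm
      simp [e1, e2, h]
  have h2 : ∑ x ∈ I, ∑ y ∈ I, (if R x y ∧ P x < P y then V x * (starRingEnd ℂ) (V y) else 0) =
      (starRingEnd ℂ) (∑ x ∈ I, ∑ y ∈ I,
        (if R x y ∧ P y < P x then V x * (starRingEnd ℂ) (V y) else 0)) := by
    rw [map_sum, Finset.sum_comm]
    refine Finset.sum_congr rfl fun y _ => ?_
    rw [map_sum]
    refine Finset.sum_congr rfl fun x _ => ?_
    have h3 : (R x y ∧ P x < P y) ↔ (R y x ∧ P x < P y) := by rw [hR x y]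
    by_cases h4 : R y x ∧ P x < P y
    · rw [if_pos (h3.2 h4), if_pos h4, map_mul, Complex.conj_conj, mul_comm]
    · rw [if_neg (fun h5 => h4 (h3.1 h5)), if_neg h4, map_zero]
  rw [h1, h2]
  refine (norm_add_le _ _).trans ?_
  rw [RCLike.norm_conj]
  have h3 := norm_add_le (∑ x ∈ I, ∑ y ∈ I, (if P x = P y then V x * (starRingEnd ℂ) (V y) else 0))
    (∑ x ∈ I, ∑ y ∈ I, (if R x y ∧ P y < P x then V x * (starRingEnd ℂ) (V y) else 0))
  linarith

private theorem PExp_diag {ι : Type*} (I : Finset ι) (P : ι → ℕ) (f : ℕ → ℂ)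
    (hf : ∀ n, ‖f n‖ ≤ 1) (a : ι → ℝ) (X : ℕ) (hX : ∀ x ∈ I, P x ∈ Icc 1 X) :
    ‖∑ x ∈ I, ∑ y ∈ I, if P x = P y then ((a x : ℂ) * f (P x)) *
      (starRingEnd ℂ) ((a y : ℂ) * f (P y)) else 0‖ ≤
      ∑ Z ∈ Icc 1 X, (∑ x ∈ I.filter (fun x => P x = Z), a x) ^ 2 := by
  have h1 : ∑ x ∈ I, ∑ y ∈ I, (if P x = P y then ((a x : ℂ) * f (P x)) *
      (starRingEnd ℂ) ((a y : ℂ) * f (P y)) else 0) = ∑ Z ∈ Icc 1 X,
      (f Z * (starRingEnd ℂ) (f Z)) * ((∑ x ∈ I.filter (fun x => P x = Z), a x : ℝ) : ℂ) ^ 2 := by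
    have h2 : ∀ x ∈ I, ∑ y ∈ I, (if P x = P y then ((a x : ℂ) * f (P x)) *
        (starRingEnd ℂ) ((a y : ℂ) * f (P y)) else 0) = ∑ Z ∈ Icc 1 X, if P x = Z then
        (f Z * (starRingEnd ℂ) (f Z)) * ((a x : ℂ) * ∑ y ∈ I.filter (fun y => P y = Z),
          (a y : ℂ)) else 0 := by
      intro x hx
      rw [Finset.sum_ite_eq, if_pos (hX x hx), Finset.sum_filter, Finset.mul_sum, Finset.mul_sum]
      refine Finset.sum_congr rfl fun y _ => ?_
      by_cases h3 : P x = P y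
      · rw [if_pos h3, if_pos h3.symm, ← h3, map_mul, Complex.conj_ofReal]
        ring
      · rw [if_neg h3, if_neg (fun h => h3 h.symm)]
        simp
    rw [Finset.sum_congr rfl h2, Finset.sum_comm]
    refine Finset.sum_congr rfl fun Z _ => ?_
    rw [← Finset.sum_filter, ← Finset.mul_sum, ← Finset.sum_mul]
    push_cast
    ring
  rw [h1]
  refine (norm_sum_le _ _).trans (Finset.sum_le_sum fun Z _ => ?_)
  rw [norm_mul, norm_mul, RCLike.norm_conj, norm_pow, Complex.norm_real, Real.norm_eq_abs, sq_abs]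
  have h3 : ‖f Z‖ * ‖f Z‖ ≤ 1 := mul_le_one₀ (hf Z) (norm_nonneg _) (hf Z)
  calc ‖f Z‖ * ‖f Z‖ * (∑ x ∈ I.filter (fun x => P x = Z), a x) ^ 2
      ≤ 1 * (∑ x ∈ I.filter (fun x => P x = Z), a x) ^ 2 :=
        mul_le_mul_of_nonneg_right h3 (sq_nonneg _)
    _ = _ := one_mul _

/-- the expansion of the second moment -/
theorem expand {q d : ℕ} [NeZero q] [NeZero d] (hd : d ∣ q) (ψ : DirichletCharacter ℂ q)
    (lam g : ℕ → ℝ) (Y N : ℕ) :
    ∑ χ : DirichletCharacter ℂ d, ‖(∑ m ∈ Icc 1 Y, (lam m : ℂ) * (ψ m * χ m)) *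
        ∑ n ∈ Icc 1 N, (g n : ℂ) * (ψ n * χ n)‖ ^ 2 ≤
      (Nat.totient d : ℝ) * (∑ Z ∈ Icc 1 (Y * N),
        (∑ m ∈ Z.divisors.filter (fun m => m ≤ Y ∧ Z / m ≤ N), lam m * g (Z / m)) ^ 2 +
        2 * ∑ m₁ ∈ Icc 1 Y, ∑ m₂ ∈ Icc 1 Y, |lam m₁| * |lam m₂| *
          ∑ l ∈ Icc 1 (Y * N / d), ‖TT ψ g N m₁ m₂ (d * l)‖) := by
  classical
  obtain ⟨I, hI⟩ : ∃ I : Finset (ℕ × ℕ), I = Icc 1 Y ×ˢ Icc 1 N := ⟨_, rfl⟩
  obtain ⟨P, hP⟩ : ∃ P : ℕ × ℕ → ℕ, P = fun x => x.1 * x.2 := ⟨_, rfl⟩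
  obtain ⟨a, ha⟩ : ∃ a : ℕ × ℕ → ℝ, a = fun x => lam x.1 * g x.2 := ⟨_, rfl⟩
  obtain ⟨f, hf⟩ : ∃ f : ℕ → ℂ, f = fun n => ψ ((n : ℕ) : ZMod q) := ⟨_, rfl⟩
  have hf1 : ∀ n, ‖f n‖ ≤ 1 := fun n => by rw [hf]; exact ψ.norm_le_one _
  have hunit : ∀ n : ℕ, ¬ IsUnit ((n : ℕ) : ZMod d) → f n = 0 := by
    intro n hn
    rw [hf]
    apply MulChar.map_nonunit
    intro h
    apply hn
    rw [ZMod.isUnit_iff_coprime] at h ⊢
    exact Nat.Coprime.coprime_dvd_right hd h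
  have h1 : ∀ χ : DirichletCharacter ℂ d, (∑ m ∈ Icc 1 Y, (lam m : ℂ) * (ψ m * χ m)) *
      ∑ n ∈ Icc 1 N, (g n : ℂ) * (ψ n * χ n) =
      ∑ x ∈ I, χ ((P x : ℕ) : ZMod d) * ((a x : ℂ) * f (P x)) := by
    intro χ
    rw [hI, Finset.sum_product, Finset.sum_mul_sum]
    refine Finset.sum_congr rfl fun m _ => Finset.sum_congr rfl fun n _ => ?_
    rw [hP, ha, hf]
    push_cast
    rw [map_mul, map_mul]
    ring
  rw [Finset.sum_congr rfl fun χ _ => by rw [h1 χ],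
    PExp_class I P (fun x => (a x : ℂ) * f (P x)) (fun x _ hu => by rw [hunit _ hu, mul_zero])]
  refine mul_le_mul_of_nonneg_left ?_ (Nat.cast_nonneg _)
  have h2 := PExp_tri I P (fun x => (a x : ℂ) * f (P x))
    (fun x y => ((P x : ℕ) : ZMod d) = ((P y : ℕ) : ZMod d)) (fun x y => eq_comm)
    (fun x y h => by rw [h])
  have hX : ∀ x ∈ I, P x ∈ Icc 1 (Y * N) := by
    intro x hx
    rw [hI, Finset.mem_product, Finset.mem_Icc, Finset.mem_Icc] at hx
    rw [hP, Finset.mem_Icc]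
    exact ⟨Nat.mul_pos hx.1.1 hx.2.1, Nat.mul_le_mul hx.1.2 hx.2.2⟩
  have h3 := PExp_diag I P f hf1 a (Y * N) hX
  have h4 : ∑ Z ∈ Icc 1 (Y * N), (∑ x ∈ I.filter (fun x => P x = Z), a x) ^ 2 =
      ∑ Z ∈ Icc 1 (Y * N),
        (∑ m ∈ Z.divisors.filter (fun m => m ≤ Y ∧ Z / m ≤ N), lam m * g (Z / m)) ^ 2 := by
    refine Finset.sum_congr rfl fun Z hZ => ?_
    rw [Finset.mem_Icc] at hZ
    congr 1
    refine Finset.sum_nbij' (fun x => x.1) (fun m => (m, Z / m)) ?_ ?_ ?_ ?_ ?_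
    · intro x hx
      rw [Finset.mem_filter, hI, Finset.mem_product, Finset.mem_Icc, Finset.mem_Icc, hP] at hx
      obtain ⟨⟨⟨hx1, hx2⟩, hx3, hx4⟩, hx5⟩ := hx
      simp only at hx5
      rw [Finset.mem_filter, Nat.mem_divisors]
      refine ⟨⟨⟨x.2, hx5.symm⟩, by omega⟩, hx2, ?_⟩
      rw [← hx5, Nat.mul_div_cancel_left _ (by omega)]
      exact hx4
    · intro m hm
      rw [Finset.mem_filter, Nat.mem_divisors] at hm
      obtain ⟨⟨⟨v, hv⟩, _⟩, hm2, hm3⟩ := hm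
      have hm0 : 0 < m := by
        rcases Nat.eq_zero_or_pos m with h | h
        · rw [h, zero_mul] at hv
          omega
        · exact h
      have hv0 : 0 < v := by
        rcases Nat.eq_zero_or_pos v with h | h
        · rw [h, mul_zero] at hv
          omega
        · exact h
      rw [hv, Nat.mul_div_cancel_left _ hm0] at hm3
      rw [Finset.mem_filter, hI, Finset.mem_product, Finset.mem_Icc, Finset.mem_Icc, hP]
      simp only
      rw [hv, Nat.mul_div_cancel_left _ hm0]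
      exact ⟨⟨⟨hm0, hm2⟩, hv0, hm3⟩, rfl⟩
    · intro x hx
      rw [Finset.mem_filter, hI, Finset.mem_product, Finset.mem_Icc, Finset.mem_Icc, hP] at hx
      obtain ⟨⟨⟨hx1, hx2⟩, hx3, hx4⟩, hx5⟩ := hx
      simp only at hx5
      rw [← hx5, Nat.mul_div_cancel_left _ (by omega)]
    · intro m hm
      rfl
    · intro x hx
      rw [Finset.mem_filter, hI, Finset.mem_product, Finset.mem_Icc, Finset.mem_Icc, hP] at hx
      obtain ⟨⟨⟨hx1, hx2⟩, hx3, hx4⟩, hx5⟩ := hx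
      simp only at hx5
      rw [ha, ← hx5, Nat.mul_div_cancel_left _ (by omega)]
  -- the off-diagonal terms
  have hdpos : 0 < d := Nat.pos_of_ne_zero (NeZero.ne d)
  have h5 : ∑ x ∈ I, ∑ y ∈ I, (if ((P x : ℕ) : ZMod d) = ((P y : ℕ) : ZMod d) ∧ P y < P x then
      ((a x : ℂ) * f (P x)) * (starRingEnd ℂ) ((a y : ℂ) * f (P y)) else 0) =
      ∑ m₁ ∈ Icc 1 Y, ∑ m₂ ∈ Icc 1 Y, ((lam m₁ * lam m₂ : ℝ) : ℂ) *
        ∑ l ∈ Icc 1 (Y * N / d), TT ψ g N m₁ m₂ (d * l) := by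
    have h6 : ∀ x ∈ I, ∀ y ∈ I, (if ((P x : ℕ) : ZMod d) = ((P y : ℕ) : ZMod d) ∧ P y < P x then
        ((a x : ℂ) * f (P x)) * (starRingEnd ℂ) ((a y : ℂ) * f (P y)) else 0) =
        ∑ l ∈ Icc 1 (Y * N / d), if P x = P y + d * l then
          ((a x : ℂ) * f (P x)) * (starRingEnd ℂ) ((a y : ℂ) * f (P y)) else 0 := by
      intro x hx y hy
      by_cases h7 : ((P x : ℕ) : ZMod d) = ((P y : ℕ) : ZMod d) ∧ P y < P x
      · rw [if_pos h7]
        obtain ⟨h8, h9⟩ := h7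
        have h10 : d ∣ P x - P y := by
          rw [ZMod.natCast_eq_natCast_iff] at h8
          exact (Nat.modEq_iff_dvd' h9.le).1 h8.symm
        obtain ⟨l, hl⟩ := h10
        have hle : P x ≤ Y * N := (Finset.mem_Icc.1 (hX x hx)).2
        have h11 : P x = P y + d * l := by omega
        rw [Finset.sum_eq_single l]
        · rw [if_pos h11]
        · intro l' _ hl'
          rw [if_neg]
          intro h12
          apply hl'
          have h13 : d * l' = d * l := by omega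
          exact Nat.eq_of_mul_eq_mul_left hdpos h13
        · intro h12
          exfalso
          apply h12
          rw [Finset.mem_Icc]
          constructor
          · rcases Nat.eq_zero_or_pos l with h13 | h13
            · rw [h13, mul_zero] at hl
              omega
            · exact h13
          · rw [Nat.le_div_iff_mul_le hdpos, mul_comm]
            omega
      · rw [if_neg h7]
        symm
        refine Finset.sum_eq_zero fun l hl => ?_
        rw [if_neg]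
        intro h8
        apply h7
        rw [Finset.mem_Icc] at hl
        refine ⟨?_, ?_⟩
        · rw [h8]
          push_cast
          simp
        · have : 0 < d * l := Nat.mul_pos hdpos hl.1
          omega
    rw [Finset.sum_congr rfl fun x hx => Finset.sum_congr rfl fun y hy => h6 x hx y hy, hI,
      Finset.sum_product]
    refine Finset.sum_congr rfl fun m₁ _ => ?_
    simp only [Finset.sum_product]
    rw [Finset.sum_comm]
    refine Finset.sum_congr rfl fun m₂ _ => ?_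
    rw [Finset.mul_sum]
    have h7 : ∀ n₁ : ℕ, ∑ n₂ ∈ Icc 1 N, ∑ l ∈ Icc 1 (Y * N / d),
        (if P (m₁, n₁) = P (m₂, n₂) + d * l then ((a (m₁, n₁) : ℂ) * f (P (m₁, n₁))) *
          (starRingEnd ℂ) ((a (m₂, n₂) : ℂ) * f (P (m₂, n₂))) else 0) =
        ∑ l ∈ Icc 1 (Y * N / d), ∑ n₂ ∈ Icc 1 N,
        (if P (m₁, n₁) = P (m₂, n₂) + d * l then ((a (m₁, n₁) : ℂ) * f (P (m₁, n₁))) *
          (starRingEnd ℂ) ((a (m₂, n₂) : ℂ) * f (P (m₂, n₂))) else 0) :=
      fun n₁ => Finset.sum_comm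
    rw [Finset.sum_congr rfl fun n₁ _ => h7 n₁, Finset.sum_comm]
    refine Finset.sum_congr rfl fun l _ => ?_
    unfold TT
    rw [Finset.mul_sum]
    refine Finset.sum_congr rfl fun n₁ _ => ?_
    rw [Finset.mul_sum]
    refine Finset.sum_congr rfl fun n₂ _ => ?_
    simp only [hP, ha, hf]
    by_cases h8 : m₁ * n₁ = m₂ * n₂ + d * l
    · rw [if_pos h8, if_pos h8, h8, map_mul, Complex.conj_ofReal]
      push_cast
      ring
    · rw [if_neg h8, if_neg h8, mul_zero]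
  have h6 : ‖∑ m₁ ∈ Icc 1 Y, ∑ m₂ ∈ Icc 1 Y, ((lam m₁ * lam m₂ : ℝ) : ℂ) *
        ∑ l ∈ Icc 1 (Y * N / d), TT ψ g N m₁ m₂ (d * l)‖ ≤
      ∑ m₁ ∈ Icc 1 Y, ∑ m₂ ∈ Icc 1 Y, |lam m₁| * |lam m₂| *
          ∑ l ∈ Icc 1 (Y * N / d), ‖TT ψ g N m₁ m₂ (d * l)‖ := by
    refine (norm_sum_le _ _).trans (Finset.sum_le_sum fun m₁ _ => ?_)
    refine (norm_sum_le _ _).trans (Finset.sum_le_sum fun m₂ _ => ?_)
    rw [norm_mul, Complex.norm_real, Real.norm_eq_abs, abs_mul]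
    exact mul_le_mul_of_nonneg_left (norm_sum_le _ _) (by positivity)
  rw [h5] at h2
  rw [h4] at h3
  linarith

end Pool.Agent.NP
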