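import Pool.Agent.Lib.MP_afd523_nt_P.PSec
import Pool.Agent.Lib.MP_afd523_nt_P.PMaj
import Pool.Agent.Lib.MP_afd523_nt.Gev
import Pool.Agent.Lib.MP_afd523_nt.Cut
import Pool.Agent.Lib.MP_afd523_nt_T.Crit

/-!
Project NP (MP_afd523_nt): the mollified second moment over a coset.
-/

namespace Pool.Agent.NP

open Finset Complex MeasureTheory Pool.Agent.NV Pool.Agent.NVT Pool.Agent.NVW

private theorem PSecL_MF {Q : ℕ} (hQ : 2 ≤ Q) {f : ℕ → ℂ} (hf : ∀ n, ‖f n‖ ≤ 1) :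
    ‖MF Q f‖ ^ 2 ≤ 4 * YY Q := by
  have h1 : ‖MF Q f‖ ≤ 2 * √(YY Q : ℝ) := by
    refine le_trans (norm_sum_le _ _) (le_trans (Finset.sum_le_sum fun n _ => ?_) (Maj_sum_sqrt _))
    refine le_trans (PMaj_term_norm hf _ n) ?_
    exact mul_le_of_le_one_left (by positivity) (SecA_abs_lamq hQ n)
  have h2 : ‖MF Q f‖ ^ 2 ≤ (2 * √(YY Q : ℝ)) ^ 2 := pow_le_pow_left₀ (norm_nonneg _) h1 2
  rw [mul_pow, Real.sq_sqrt (Nat.cast_nonneg _)] at h2
  linarith

private theorem PSecL_int {μ : Measure ℝ} [IsProbabilityMeasure μ] {ν : Measure ℝ} {C : ℝ}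
    (hν : Cut ν C) (Q : ℕ) (s : ℝ) {f : ℕ → ℂ} (hf : ∀ n, ‖f n‖ ≤ 1) (z : ℂ) :
    Integrable (fun r => ‖z * SF μ Q (r * s) f‖ ^ 2) ν := by
  have h1 : Measurable fun r : ℝ => ‖z * SF μ Q (r * s) f‖ ^ 2 := by
    have h2 : Measurable fun r : ℝ => SF μ Q (r * s) f :=
      (PMaj_SF_meas Q f).comp (measurable_id.mul_const s)
    exact (h2.const_mul z).norm.pow_const 2
  refine Integrable.mono' ((hν.mom 1).norm.const_mul
    (‖z‖ ^ 2 * (4 * (Q : ℝ) ^ (51 / 100 : ℝ) * |s|))) h1.aestronglyMeasurable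
    (Filter.Eventually.of_forall fun r => ?_)
  rw [Real.norm_eq_abs, abs_of_nonneg (sq_nonneg _), norm_mul, mul_pow, pow_one, Real.norm_eq_abs]
  have h3 := PMaj_SF_norm (μ := μ) Q (r * s) hf
  rw [pow_one, abs_mul] at h3
  calc ‖z‖ ^ 2 * ‖SF μ Q (r * s) f‖ ^ 2
      ≤ ‖z‖ ^ 2 * (4 * (Q : ℝ) ^ (51 / 100 : ℝ) * (|r| * |s|)) :=
        mul_le_mul_of_nonneg_left h3 (sq_nonneg _)
    _ = _ := by ring

/-- the mollified second moment over a coset -/
theorem secL (ε : ℝ) (hε : 0 < ε) (hε1 : ε ≤ 1 / 6) : ∃ C : ℝ, 1 ≤ C ∧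
    ∃ k₀ : ℕ, ∀ (p k j : ℕ) [Fact p.Prime], k₀ ≤ k → (1 / 3 + ε) * k ≤ j → 2 * j ≤ k →
    ∀ (hd : p ^ j ∣ p ^ k) (ψ : DirichletCharacter ℂ (p ^ k)), ψ.IsPrimitive →
    ∑ χ : DirichletCharacter ℂ (p ^ j), ‖DirichletCharacter.LFunction
      (ψ * DirichletCharacter.changeLevel hd χ) (1 / 2) *
      MF (QQ ε (p ^ k)) (fun n => ψ n * χ n)‖ ^ 2 ≤ C * Nat.totient (p ^ j) := by
  obtain ⟨C₇, hC₇, hgev⟩ := gevrey
  obtain ⟨C₁, hC₁, k₁, hsec⟩ := second C₇ hC₇ ε hε hε1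
  obtain ⟨Cc, hcut⟩ := cut_nu
  obtain ⟨k₂, hk₂⟩ := num_Q hε 3
  obtain ⟨A, hA⟩ : ∃ A : ℕ, A = ⌈80 / ε⌉₊ + 1 := ⟨_, rfl⟩
  obtain ⟨Mo, hMo⟩ : ∃ Mo : ℝ, Mo = ∑ e ∈ range 2, ∫ r, |r ^ A| ∂(nu e) := ⟨_, rfl⟩
  have hMo0 : 0 ≤ Mo := by
    rw [hMo]
    exact Finset.sum_nonneg fun e _ => integral_nonneg fun r => abs_nonneg _
  refine ⟨4 * (2 * C₁ + Mo), by linarith, max (max k₁ k₂) 4, ?_⟩
  intro p k j _ hk hjk hj2 hd ψ hψ
  have hp : p.Prime := Fact.out
  have hp2 : (2 : ℝ) ≤ p := by exact_mod_cast hp.two_le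
  have hp0 : (0 : ℝ) < p := by linarith
  have hne : NeZero (p ^ k) := ⟨(pow_pos hp.pos k).ne'⟩
  have hne' : NeZero (p ^ j) := ⟨(pow_pos hp.pos j).ne'⟩
  have hk4 : 4 ≤ k := le_trans (le_max_right _ _) hk
  obtain ⟨hQ3, hQ2, -, -⟩ := hk₂ p k (le_trans (le_trans (le_max_right _ _) (le_max_left _ _)) hk)
  have hsec' := hsec p k j (le_trans (le_trans (le_max_left _ _) (le_max_left _ _)) hk) hjk hj2 ψ hψ
  obtain ⟨Q, hQd⟩ : ∃ Q, Q = QQ ε (p ^ k) := ⟨_, rfl⟩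
  rw [← hQd] at hQ3 hQ2 hsec' ⊢
  obtain ⟨μ, hμ⟩ := hgev ⌈10 * Real.log Q + 100⌉₊
  have hpμ := hμ.prob
  have hK : 10 * Real.log Q + 100 ≤ (⌈10 * Real.log Q + 100⌉₊ : ℝ) := Nat.le_ceil _
  have hQ0 : (0 : ℝ) < Q := by exact_mod_cast (by omega : 0 < Q)
  obtain ⟨q, hq⟩ : ∃ q : ℝ, q = (p : ℝ) ^ k := ⟨_, rfl⟩
  have hcast : ((p ^ k : ℕ) : ℝ) = q := by rw [hq]; push_cast; rfl
  have hq16 : 16 ≤ q := by
    rw [hq]
    calc (16 : ℝ) = 2 ^ 4 := by norm_num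
      _ ≤ 2 ^ k := pow_le_pow_right₀ (by norm_num) hk4
      _ ≤ (p : ℝ) ^ k := pow_le_pow_left₀ (by norm_num) hp2 k
  have hq1 : 1 ≤ q := by linarith
  have hq0 : 0 < q := by linarith
  have hqn : 1 < p ^ k := by
    have : (1 : ℝ) < ((p ^ k : ℕ) : ℝ) := by rw [hcast]; linarith
    exact_mod_cast this
  have hdd : (p ^ j) ^ 2 ∣ p ^ k := by
    rw [← pow_mul]
    exact pow_dvd_pow p (by omega)
  obtain ⟨s, hs⟩ : ∃ s : ℝ, s = √(q / Q) := ⟨_, rfl⟩
  have hs0 : 0 < s := by rw [hs]; exact Real.sqrt_pos.2 (div_pos hq0 hQ0)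
  rw [← hq] at hQ2 hsec'
  rw [← hs] at hsec'
  have hf : ∀ (χ : DirichletCharacter ℂ (p ^ j)) (n : ℕ), ‖ψ n * χ n‖ ≤ 1 := by
    intro χ n
    rw [norm_mul]
    exact mul_le_one₀ (ψ.norm_le_one _) (norm_nonneg _) (χ.norm_le_one _)
  obtain ⟨F, hF⟩ : ∃ F : DirichletCharacter ℂ (p ^ j) → ℝ → ℝ, F = fun χ r =>
    ‖MF Q (fun n => ψ n * χ n) * SF μ Q (r * s) (fun n => ψ n * χ n)‖ ^ 2 := ⟨_, rfl⟩
  have hF0 : ∀ χ r, 0 ≤ F χ r := fun χ r => by rw [hF]; positivity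
  have hFi : ∀ χ, ∀ e, e ≤ 1 → Integrable (F χ) (nu e) := by
    intro χ e he
    rw [hF]
    exact PSecL_int (hcut e he) Q s (hf χ) _
  -- one character
  have hone : ∀ χ : DirichletCharacter ℂ (p ^ j), ‖DirichletCharacter.LFunction
      (ψ * DirichletCharacter.changeLevel hd χ) (1 / 2) * MF Q (fun n => ψ n * χ n)‖ ^ 2 ≤
      4 * ∑ e ∈ range 2, ∫ r, F χ r ∂(nu e) := by
    intro χ
    obtain ⟨ξ, hξ⟩ : ∃ ξ, ξ = ψ * DirichletCharacter.changeLevel hd χ := ⟨_, rfl⟩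
    have hprim : ξ.IsPrimitive := hξ ▸ coset_primitive hdd ψ hψ χ
    obtain ⟨e, he, hpar⟩ : ∃ e : ℕ, e ≤ 1 ∧ ξ (-1) = (-1) ^ e := by
      rcases ξ.even_or_odd with h | h
      · exact ⟨0, by norm_num, by rw [pow_zero]; exact h⟩
      · exact ⟨1, le_rfl, by rw [pow_one]; exact h⟩
    have h1 := (maj2 (hcut e he) hQ3 hq0 (fun n => ψ n * χ n) (hf χ)
      (DirichletCharacter.LFunction ξ (1 / 2)) (rn ξ e) (norm_rn ξ hprim e) (fun T hT => by
        have h2 := afeP hqn ξ hprim he hpar hT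
        rw [h2, hcast]
        have h3 : ∀ n : ℕ, ξ ((n : ℕ) : ZMod (p ^ k)) = ψ n * χ n := fun n => by
          rw [hξ]
          exact coset_nat hd ψ χ n
        simp only [h3]) hμ).2
    rw [← hξ]
    have h2 : ∫ r, F χ r ∂(nu e) ≤ ∑ e ∈ range 2, ∫ r, F χ r ∂(nu e) := by
      refine Finset.single_le_sum (f := fun e => ∫ r, F χ r ∂(nu e))
        (fun e _ => integral_nonneg fun r => hF0 χ r) (Finset.mem_range.2 (by omega))
    have h3 : ∫ r, F χ r ∂(nu e) = ‖MF Q (fun n => ψ n * χ n)‖ ^ 2 *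
        ∫ r, ‖SF μ Q (r * s) (fun n => ψ n * χ n)‖ ^ 2 ∂(nu e) := by
      rw [hF, ← integral_const_mul]
      refine integral_congr_ae (Filter.Eventually.of_forall fun r => ?_)
      simp only
      rw [norm_mul, mul_pow]
    rw [← hs] at h1
    rw [norm_mul, mul_pow]
    calc ‖DirichletCharacter.LFunction ξ (1 / 2)‖ ^ 2 * ‖MF Q (fun n => ψ n * χ n)‖ ^ 2
        ≤ (4 * ∫ r, ‖SF μ Q (r * s) (fun n => ψ n * χ n)‖ ^ 2 ∂(nu e)) *
            ‖MF Q (fun n => ψ n * χ n)‖ ^ 2 := mul_le_mul_of_nonneg_right h1 (sq_nonneg _)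
      _ = 4 * ∫ r, F χ r ∂(nu e) := by rw [h3]; ring
      _ ≤ _ := by linarith
  -- the pointwise bound
  have hpt : ∀ r : ℝ, 0 < r → ∑ χ : DirichletCharacter ℂ (p ^ j), F χ r ≤
      (C₁ + |r ^ A|) * Nat.totient (p ^ j) := by
    intro r hr
    have habs : |r ^ A| = r ^ A := abs_of_pos (pow_pos hr A)
    rw [habs]
    have htot : (0 : ℝ) ≤ Nat.totient (p ^ j) := Nat.cast_nonneg _
    rcases le_or_gt r (q ^ (ε / 40)) with h1 | h1
    · have h2 := hsec' μ _ hK hμ (r * s) (mul_pos hr hs0) (mul_le_mul_of_nonneg_right h1 hs0.le)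
      rw [hF]
      refine h2.trans ?_
      have h3 : 0 ≤ r ^ A := (pow_pos hr A).le
      exact mul_le_mul_of_nonneg_right (by linarith) htot
    · have hterm : ∀ χ : DirichletCharacter ℂ (p ^ j), F χ r ≤ r ^ A := by
        intro χ
        rw [hF]
        simp only
        rw [norm_mul, mul_pow]
        have h2 := PSecL_MF (Q := Q) (by omega) (hf χ)
        have h3 := PMaj_SF_norm (μ := μ) Q (r * s) (hf χ)
        rw [pow_one, abs_of_pos (mul_pos hr hs0)] at h3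
        obtain ⟨hY, -⟩ := num_Y (ε := ε) hq1 (by omega : 1 ≤ Q) hQ2 hε
        have h4 : (Q : ℝ) ^ (51 / 100 : ℝ) * s ≤ q ^ (1 / 2 + ε / 20) := by
          have e1 : s = q ^ (1 / 2 : ℝ) * (Q : ℝ) ^ (-(1 / 2) : ℝ) := by
            rw [hs, Real.sqrt_eq_rpow, Real.div_rpow hq0.le hQ0.le, Real.rpow_neg hQ0.le,
              div_eq_mul_inv]
          calc (Q : ℝ) ^ (51 / 100 : ℝ) * s
              = q ^ (1 / 2 : ℝ) * ((Q : ℝ) ^ (51 / 100 : ℝ) * (Q : ℝ) ^ (-(1 / 2) : ℝ)) := by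
                rw [e1]
                ring
            _ = q ^ (1 / 2 : ℝ) * (Q : ℝ) ^ (1 / 100 : ℝ) := by
                rw [← Real.rpow_add hQ0]
                norm_num
            _ ≤ q ^ (1 / 2 : ℝ) * q ^ (ε / 20) := by
                refine mul_le_mul_of_nonneg_left ?_ (by positivity)
                calc (Q : ℝ) ^ (1 / 100 : ℝ) ≤ (q ^ (ε / 20)) ^ (1 / 100 : ℝ) :=
                      Real.rpow_le_rpow hQ0.le hQ2 (by norm_num)
                  _ = q ^ (ε / 20 * (1 / 100)) := by rw [← Real.rpow_mul hq0.le]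
                  _ ≤ q ^ (ε / 20) := Real.rpow_le_rpow_of_exponent_le hq1 (by linarith)
            _ = q ^ (1 / 2 + ε / 20) := by rw [← Real.rpow_add hq0]
        have h5 : (YY Q : ℝ) * ((Q : ℝ) ^ (51 / 100 : ℝ) * s) ≤ q := by
          calc (YY Q : ℝ) * ((Q : ℝ) ^ (51 / 100 : ℝ) * s)
              ≤ q ^ (ε / 1000) * q ^ (1 / 2 + ε / 20) := mul_le_mul hY h4 (by positivity)
                (by positivity)
            _ = q ^ (ε / 1000 + (1 / 2 + ε / 20)) := by rw [← Real.rpow_add hq0]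
            _ ≤ q ^ (1 : ℝ) := Real.rpow_le_rpow_of_exponent_le hq1 (by linarith)
            _ = q := Real.rpow_one q
        have hr1 : 1 ≤ r := by
          have : 1 ≤ q ^ (ε / 40) := Real.one_le_rpow hq1 (by linarith)
          linarith
        have h6 : 16 * q ≤ r ^ (A - 1) := by
          have h7 : q ^ (2 : ℝ) ≤ r ^ (A - 1) := by
            have h8 : 80 / ε ≤ ((A - 1 : ℕ) : ℝ) := by
              rw [hA, Nat.add_sub_cancel]
              exact Nat.le_ceil _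
            calc q ^ (2 : ℝ) ≤ q ^ (ε / 40 * ((A - 1 : ℕ) : ℝ)) := by
                  apply Real.rpow_le_rpow_of_exponent_le hq1
                  rw [div_le_iff₀ hε] at h8
                  linarith
              _ = (q ^ (ε / 40)) ^ (A - 1) := by
                  rw [Real.rpow_mul hq0.le, Real.rpow_natCast]
              _ ≤ r ^ (A - 1) := pow_le_pow_left₀ (by positivity) h1.le _
          rw [Real.rpow_two] at h7
          nlinarith
        have hA1 : A = (A - 1) + 1 := by omega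
        calc ‖MF Q (fun n => ψ n * χ n)‖ ^ 2 * ‖SF μ Q (r * s) (fun n => ψ n * χ n)‖ ^ 2
            ≤ (4 * YY Q) * (4 * (Q : ℝ) ^ (51 / 100 : ℝ) * (r * s)) :=
              mul_le_mul h2 h3 (sq_nonneg _) (by positivity)
          _ = 16 * ((YY Q : ℝ) * ((Q : ℝ) ^ (51 / 100 : ℝ) * s)) * r := by ring
          _ ≤ 16 * q * r := by
              have : 16 * ((YY Q : ℝ) * ((Q : ℝ) ^ (51 / 100 : ℝ) * s)) ≤ 16 * q := by linarith
              exact mul_le_mul_of_nonneg_right this hr.le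
          _ ≤ r ^ (A - 1) * r := mul_le_mul_of_nonneg_right h6 hr.le
          _ = r ^ A := by
              rw [← pow_succ, ← hA1]
      refine (Finset.sum_le_sum fun χ _ => hterm χ).trans ?_
      rw [Finset.sum_const, nsmul_eq_mul, Finset.card_univ, ← Nat.card_eq_fintype_card,
        DirichletCharacter.card_eq_totient_of_hasEnoughRootsOfUnity, mul_comm]
      exact mul_le_mul_of_nonneg_right (by linarith) htot
  -- integration
  refine (Finset.sum_le_sum fun χ _ => hone χ).trans ?_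
  rw [← Finset.mul_sum, Finset.sum_comm, mul_assoc]
  refine mul_le_mul_of_nonneg_left ?_ (by norm_num)
  have hint : ∀ e ∈ range 2, ∑ χ : DirichletCharacter ℂ (p ^ j), ∫ r, F χ r ∂(nu e) ≤
      (C₁ + ∫ r, |r ^ A| ∂(nu e)) * Nat.totient (p ^ j) := by
    intro e he
    have he1 : e ≤ 1 := by
      rw [Finset.mem_range] at he
      omega
    have hc := hcut e he1
    have hpν := hc.prob
    rw [← integral_finsetSum _ fun χ _ => hFi χ e he1]
    have h1 : ∫ r, ∑ χ : DirichletCharacter ℂ (p ^ j), F χ r ∂(nu e) ≤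
        ∫ r, (C₁ + |r ^ A|) * (Nat.totient (p ^ j) : ℝ) ∂(nu e) := by
      refine integral_mono_ae (integrable_finsetSum _ fun χ _ => hFi χ e he1)
        (((integrable_const _).add (hc.mom A).norm).mul_const _) ?_
      have haeν : ∀ᵐ r ∂(nu e), 0 < r := by
        rw [ae_iff]
        convert hc.pos using 2
        ext r
        simp
      filter_upwards [haeν] with r hr
      exact hpt r hr
    refine h1.trans (le_of_eq ?_)
    have h2 : Integrable (fun r : ℝ => |r ^ A|) (nu e) := (hc.mom A).norm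
    rw [integral_mul_const, integral_add (integrable_const _) h2]
    simp
  refine (Finset.sum_le_sum hint).trans (le_of_eq ?_)
  rw [← Finset.sum_mul, Finset.sum_add_distrib, ← hMo]
  simp

end Pool.Agent.NP
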