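import Pool.Agent.Lib.MP_afd523_nt_P.PFirst
import Pool.Agent.Lib.MP_afd523_nt_P.PSecL

/-!
Project NP (MP_afd523_nt): the count in a thin coset.
-/

namespace Pool.Agent.NP

open Finset Complex MeasureTheory Pool.Agent.NV Pool.Agent.NVT

/-- Cauchy-Schwarz for the count -/
private theorem PFin_cs {q d : ℕ} [NeZero q] [NeZero d] (hd : d ∣ q) (ψ : DirichletCharacter ℂ q)
    (M : DirichletCharacter ℂ d → ℂ) :
    ‖∑ χ : DirichletCharacter ℂ d, (1 + χ (-1)) * (DirichletCharacter.LFunction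
      (ψ * DirichletCharacter.changeLevel hd χ) (1 / 2) * M χ)‖ ^ 2 ≤
    4 * (cnt hd ψ : ℝ) * ∑ χ : DirichletCharacter ℂ d, ‖DirichletCharacter.LFunction
      (ψ * DirichletCharacter.changeLevel hd χ) (1 / 2) * M χ‖ ^ 2 := by
  classical
  set L : DirichletCharacter ℂ d → ℂ := fun χ => DirichletCharacter.LFunction
    (ψ * DirichletCharacter.changeLevel hd χ) (1 / 2) with hL
  set S := (Finset.univ : Finset (DirichletCharacter ℂ d)).filter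
    (fun χ => χ (-1) = 1 ∧ L χ ≠ 0) with hS
  have hc : cnt hd ψ = S.card := by
    rw [cnt, Nat.card_eq_fintype_card, Fintype.card_subtype]
  have h1 : ∑ χ : DirichletCharacter ℂ d, (1 + χ (-1)) * (L χ * M χ) =
      ∑ χ ∈ S, (1 + χ (-1)) * (L χ * M χ) := by
    rw [hS, Finset.sum_filter]
    refine Finset.sum_congr rfl fun χ _ => ?_
    by_cases h : L χ = 0
    · rw [if_neg (fun h' => h'.2 h), h, zero_mul, mul_zero]
    · by_cases h0 : χ (-1) = 1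
      · rw [if_pos ⟨h0, h⟩]
      · have hm : χ (-1) * χ (-1) = 1 := by
          rw [← map_mul]; simp
        rcases mul_self_eq_one_iff.1 hm with h3 | h3
        · exact absurd h3 h0
        · rw [if_neg (fun h' => h0 h'.1), h3]
          ring
  have h2 : ‖∑ χ ∈ S, (1 + χ (-1)) * (L χ * M χ)‖ ≤ ∑ χ ∈ S, 2 * ‖L χ * M χ‖ := by
    refine (norm_sum_le _ _).trans (Finset.sum_le_sum fun χ _ => ?_)
    rw [norm_mul]
    have h3 : ‖1 + χ (-1)‖ ≤ 2 := by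
      refine (norm_add_le _ _).trans ?_
      have := χ.norm_le_one (-1)
      rw [norm_one]
      linarith
    exact mul_le_mul_of_nonneg_right h3 (norm_nonneg _)
  change ‖∑ χ : DirichletCharacter ℂ d, (1 + χ (-1)) * (L χ * M χ)‖ ^ 2 ≤
    4 * (cnt hd ψ : ℝ) * ∑ χ : DirichletCharacter ℂ d, ‖L χ * M χ‖ ^ 2
  rw [h1, hc]
  calc ‖∑ χ ∈ S, (1 + χ (-1)) * (L χ * M χ)‖ ^ 2 ≤ (∑ χ ∈ S, 2 * ‖L χ * M χ‖) ^ 2 :=
        pow_le_pow_left₀ (norm_nonneg _) h2 2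
    _ = 4 * (∑ χ ∈ S, ‖L χ * M χ‖) ^ 2 := by rw [← Finset.mul_sum]; ring
    _ ≤ 4 * ((S.card : ℝ) * ∑ χ ∈ S, ‖L χ * M χ‖ ^ 2) :=
        mul_le_mul_of_nonneg_left sq_sum_le_card_mul_sum_sq (by norm_num)
    _ ≤ 4 * ((S.card : ℝ) * ∑ χ : DirichletCharacter ℂ d, ‖L χ * M χ‖ ^ 2) := by
        apply mul_le_mul_of_nonneg_left _ (by norm_num)
        apply mul_le_mul_of_nonneg_left _ (by positivity)
        exact Finset.sum_le_sum_of_subset_of_nonneg (Finset.subset_univ _)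
          fun _ _ _ => by positivity
    _ = _ := by ring

/-- module PFin -/
theorem thin (ε : ℝ) (hε : 0 < ε) (hε1 : ε ≤ 1 / 6) : ∃ η : ℝ, 0 < η ∧
    ∃ k₀ : ℕ, ∀ (p k j : ℕ) [Fact p.Prime], k₀ ≤ k → (1 / 3 + ε) * k ≤ j → 2 * j ≤ k →
    ∀ (hd : p ^ j ∣ p ^ k) (ψ : DirichletCharacter ℂ (p ^ k)), ψ.IsPrimitive →
    ∀ s : ℂ, s = 1 ∨ s = -1 → η * (Nat.totient (p ^ j) : ℝ) ≤
      Nat.card {χ : DirichletCharacter ℂ (p ^ j) // χ (-1) = s ∧ DirichletCharacter.LFunction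
        (ψ * DirichletCharacter.changeLevel hd χ) (1 / 2) ≠ 0} := by
  obtain ⟨C, hC, k₁, hsec⟩ := secL ε hε hε1
  obtain ⟨Q₀, hfirst⟩ := firstM
  obtain ⟨k₂, hQ⟩ := num_Q hε Q₀
  refine ⟨1 / (64 * C), by positivity, max (max k₁ k₂) 6, ?_⟩
  intro p k j _ hk hj1 hj2 hd ψ hψ s hs
  have hp : p.Prime := Fact.out
  have hk1 : k₁ ≤ k := le_trans (le_trans (le_max_left _ _) (le_max_left _ _)) hk
  have hk2 : k₂ ≤ k := le_trans (le_trans (le_max_right _ _) (le_max_left _ _)) hk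
  have hk6 : 6 ≤ k := le_trans (le_max_right _ _) hk
  have hne : NeZero (p ^ j) := ⟨(pow_pos hp.pos j).ne'⟩
  have hne' : NeZero (p ^ k) := ⟨(pow_pos hp.pos k).ne'⟩
  obtain ⟨hQ₀, hQq, -, -⟩ := hQ p k hk2
  have hkR : (0 : ℝ) ≤ k := Nat.cast_nonneg k
  have hj3 : k ≤ 3 * j := by
    have h1 : (k : ℝ) ≤ 3 * j := by nlinarith
    exact_mod_cast h1
  have hjge : 2 ≤ j := by omega
  have hp1 : (1 : ℝ) ≤ (p : ℝ) ^ k := one_le_pow₀ (by exact_mod_cast hp.one_lt.le)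
  have hQ10 : (QQ ε (p ^ k) : ℝ) ≤ ((p : ℝ) ^ k) ^ (1 / 10 : ℝ) :=
    hQq.trans (Real.rpow_le_rpow_of_exponent_le hp1 (by linarith))
  have hdsq : (p ^ j) ^ 2 ∣ p ^ k := by
    rw [← pow_mul]
    exact pow_dvd_pow p (by omega)
  have hd2 : 2 < p ^ j := by
    have h1 : 2 ^ 2 ≤ p ^ j := by
      calc 2 ^ 2 ≤ p ^ 2 := Nat.pow_le_pow_left hp.two_le 2
        _ ≤ p ^ j := Nat.pow_le_pow_right hp.pos hjge
    omega
  have hφ0 : (0 : ℝ) < Nat.totient (p ^ j) := by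
    exact_mod_cast Nat.totient_pos.2 (pow_pos hp.pos j)
  have key : ∀ ψ' : DirichletCharacter ℂ (p ^ k), ψ'.IsPrimitive →
      1 / (64 * C) * (Nat.totient (p ^ j) : ℝ) ≤ (cnt hd ψ' : ℝ) := by
    intro ψ' hψ'
    have h1 := hfirst (QQ ε (p ^ k)) p k j hQ₀ hj2 hj3 hQ10 hd ψ' hψ'
    have h2 := hsec p k j hk1 hj1 hj2 hd ψ' hψ'
    have h3 := PFin_cs hd ψ' (fun χ => MF (QQ ε (p ^ k)) (fun n => ψ' n * χ n))
    obtain ⟨φ, hφ⟩ : ∃ φ : ℝ, φ = Nat.totient (p ^ j) := ⟨_, rfl⟩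
    rw [← hφ] at h1 h2 hφ0 ⊢
    have h4 : (φ / 4) ^ 2 ≤ 4 * (cnt hd ψ' : ℝ) * (C * φ) := by
      refine (pow_le_pow_left₀ (by positivity) h1 2).trans (h3.trans ?_)
      exact mul_le_mul_of_nonneg_left h2 (by positivity)
    rw [one_div, inv_mul_eq_div, div_le_iff₀ (by positivity)]
    have h5 : φ * φ ≤ φ * ((cnt hd ψ' : ℝ) * (64 * C)) := by nlinarith
    exact le_of_mul_le_mul_left h5 hφ0
  rcases hs with rfl | rfl
  · exact key ψ hψ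
  · obtain ⟨ξ, hξ⟩ := exists_odd hd2
    have h1 := key (ψ * DirichletCharacter.changeLevel hd ξ) (coset_primitive hdsq ψ hψ ξ)
    rw [cnt_odd hd ψ ξ hξ] at h1
    exact h1

end Pool.Agent.NP
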