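import Pool.Agent.Lib.MP_afd523_nt_P.PDual
import Pool.Agent.Lib.MP_afd523_nt_T.ThmA

/-!
Project NP (MP_afd523_nt): the first moment.
-/

namespace Pool.Agent.NP

open Finset Complex MeasureTheory Pool.Agent.NV Pool.Agent.NVT

private theorem PFirst_lam {Q : ℕ} (hQ : 1 ≤ Q) : lamq Q 1 = 1 := by
  have h1 : sm (ww Q) 1 = 1 := by simp [sm]
  have h2 : (1 : ℝ) ≤ yy Q := by
    unfold yy
    exact Real.one_le_rpow (by exact_mod_cast hQ) (by norm_num)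
  have h3 : ro (ww Q) 1 = 1 := by simp [ro]
  unfold lamq lamf
  rw [h1, h3, if_pos (by rw [Nat.cast_one]; exact h2)]
  simp [PP]

private theorem PFirst_coef {q Q : ℕ} (hQ : 2 ≤ Q) (ψ : DirichletCharacter ℂ q) (m : ℕ) :
    ‖(lamq Q m : ℂ) * ψ (m : ZMod q) / (√(m : ℝ) : ℂ)‖ ≤ 1 / √(m : ℝ) := by
  rw [norm_div, norm_mul, Complex.norm_real, Complex.norm_real,
    Real.norm_of_nonneg (Real.sqrt_nonneg _)]
  apply div_le_div_of_nonneg_right _ (Real.sqrt_nonneg _)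
  exact mul_le_one₀ (SecA_abs_lamq hQ m) (norm_nonneg _) (ψ.norm_le_one _)

/-- the class sums for one `m` -/
private theorem PFirst_class {q d : ℕ} [NeZero q] [NeZero d] (hq : 1 < q) (hd : d ^ 2 ∣ q)
    (hd2 : 2 ≤ d) (ψ : DirichletCharacter ℂ q) (hψ : ψ.IsPrimitive) {e : ℕ} (he : e ≤ 1)
    (hpar : ψ (-1) = (-1) ^ e) (c₀ : (ZMod d)ˣ)
    (hc₀ : ∀ c : ZMod d, KK (dvd_of_sq hd) ψ c =
      if c = c₀ then gaussSum ψ (ZMod.stdAddChar : AddChar (ZMod q) ℂ) else 0)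
    (u : (ZMod d)ˣ) :
    ‖∑ χ : DirichletCharacter ℂ d, (1 + χ (-1)) * χ (u : ZMod d) *
      DirichletCharacter.LFunction (ψ * DirichletCharacter.changeLevel (dvd_of_sq hd) χ) (1 / 2) -
      (Nat.totient d : ℂ) * (GG e ψ ((u⁻¹ : (ZMod d)ˣ) : ZMod d) +
        GG e ψ (-((u⁻¹ : (ZMod d)ˣ) : ZMod d)) +
        rn ψ e * (starRingEnd ℂ) (GG e ψ ((c₀ : ZMod d) * (u : ZMod d)) +
          GG e ψ (-((c₀ : ZMod d) * (u : ZMod d)))))‖ ≤
      Nat.totient d * (4 * ((1 + m1 e) * (1 / d * (q : ℝ) ^ (1 / 4 : ℝ)))) := by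
  have hmom := mom hq hd ψ hψ he hpar c₀ hc₀ u⁻¹
  rw [inv_inv] at hmom
  rw [hmom, ← mul_sub, norm_mul, Complex.norm_natCast]
  refine mul_le_mul_of_nonneg_left ?_ (Nat.cast_nonneg _)
  obtain ⟨E, hE⟩ : ∃ E : ℝ, E = (1 + m1 e) * (1 / d * (q : ℝ) ^ (1 / 4 : ℝ)) := ⟨_, rfl⟩
  have hal : ∀ b : (ZMod d)ˣ, ‖Av e (√q) (FF ψ (b : ZMod d)) - GG e ψ (b : ZMod d)‖ ≤ E := by
    intro b
    have h1 := alpha_main he hd2 ψ b 0 (1 / d) le_rfl (by positivity) (fun N => by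
      have := class_trivial ψ (b : ZMod d) N
      calc _ ≤ (N : ℝ) / d := this
        _ = 0 * √(N : ℝ) + 1 / d * N := by ring)
    rw [zero_mul, zero_add] at h1
    rw [hE]
    exact h1
  have hneg : ∀ b : (ZMod d)ˣ, ‖Av e (√q) (FF ψ (-(b : ZMod d))) - GG e ψ (-(b : ZMod d))‖ ≤ E := by
    intro b
    have := hal (-b)
    rwa [Units.val_neg] at this
  rw [Av_conj, Av_conj, ← hE]
  obtain ⟨b, hb⟩ : ∃ b : (ZMod d)ˣ, b = c₀ * u := ⟨_, rfl⟩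
  have hb' : (b : ZMod d) = (c₀ : ZMod d) * (u : ZMod d) := by rw [hb, Units.val_mul]
  rw [← hb', ← hb]
  have h1 := hal u⁻¹
  have h2 := hneg u⁻¹
  have h3 := hal b
  have h4 := hneg b
  have hz := norm_rn ψ hψ e
  obtain ⟨a1, ha1⟩ : ∃ x, x = Av e (√q) (FF ψ ((u⁻¹ : (ZMod d)ˣ) : ZMod d)) := ⟨_, rfl⟩
  obtain ⟨a2, ha2⟩ : ∃ x, x = Av e (√q) (FF ψ (-((u⁻¹ : (ZMod d)ˣ) : ZMod d))) := ⟨_, rfl⟩
  obtain ⟨a3, ha3⟩ : ∃ x, x = Av e (√q) (FF ψ (b : ZMod d)) := ⟨_, rfl⟩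
  obtain ⟨a4, ha4⟩ : ∃ x, x = Av e (√q) (FF ψ (-(b : ZMod d))) := ⟨_, rfl⟩
  rw [← ha1] at h1
  rw [← ha2] at h2
  rw [← ha3] at h3
  rw [← ha4] at h4
  rw [← ha1, ← ha2, ← ha3, ← ha4]
  have e1 : a1 + a2 + rn ψ e * ((starRingEnd ℂ) a3 + (starRingEnd ℂ) a4) -
      (GG e ψ ((u⁻¹ : (ZMod d)ˣ) : ZMod d) + GG e ψ (-((u⁻¹ : (ZMod d)ˣ) : ZMod d)) +
        rn ψ e * (starRingEnd ℂ) (GG e ψ (b : ZMod d) + GG e ψ (-(b : ZMod d)))) =
      (a1 - GG e ψ ((u⁻¹ : (ZMod d)ˣ) : ZMod d)) + (a2 - GG e ψ (-((u⁻¹ : (ZMod d)ˣ) : ZMod d))) +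
      rn ψ e * ((starRingEnd ℂ) (a3 - GG e ψ (b : ZMod d)) +
        (starRingEnd ℂ) (a4 - GG e ψ (-(b : ZMod d)))) := by
    rw [map_sub, map_sub, map_add]
    ring
  rw [e1]
  refine (norm_add₃_le).trans ?_
  rw [norm_mul, hz, one_mul]
  have h5 := norm_add_le ((starRingEnd ℂ) (a3 - GG e ψ (b : ZMod d)))
    ((starRingEnd ℂ) (a4 - GG e ψ (-(b : ZMod d))))
  rw [RCLike.norm_conj, RCLike.norm_conj] at h5
  linarith

/-- the representative of an inverse is large -/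
private theorem PFirst_rep {d e m : ℕ} [NeZero d] (he : e ≤ 1) (hd2 : 2 < d) {q : ℕ}
    (ψ : DirichletCharacter ℂ q) (hm : 1 < m) (u : (ZMod d)ˣ) (hu : (u : ZMod d) = m) :
    ‖GG e ψ ((u⁻¹ : (ZMod d)ˣ) : ZMod d)‖ ≤ √(m : ℝ) / √((d : ℝ) - 1) ∧
    ‖GG e ψ (-((u⁻¹ : (ZMod d)ˣ) : ZMod d))‖ ≤ √(m : ℝ) / √((d : ℝ) - 1) := by
  have hdR : (2 : ℝ) < d := by exact_mod_cast hd2
  have hm0 : (0 : ℝ) < m := by exact_mod_cast (by omega : 0 < m)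
  have key : ∀ b : (ZMod d)ˣ, ((m : ZMod d) * b = 1 ∨ (m : ZMod d) * b = -1) →
      ‖GG e ψ (b : ZMod d)‖ ≤ √(m : ℝ) / √((d : ℝ) - 1) := by
    intro b hb
    have h1 := inv_rep (by omega) m hm b hb
    have h2 := rep_pos (by omega : 2 ≤ d) b
    have hv0 : (0 : ℝ) < ((b : ZMod d).val : ℝ) := by exact_mod_cast h2
    refine (GG_norm he ψ _).trans ?_
    rw [div_le_div_iff₀ (Real.sqrt_pos.2 hv0) (Real.sqrt_pos.2 (by linarith)), one_mul,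
      ← Real.sqrt_mul hm0.le]
    apply Real.sqrt_le_sqrt
    have h3 : (d : ℝ) ≤ m * ((b : ZMod d).val : ℝ) + 1 := by exact_mod_cast h1
    linarith
  constructor
  · apply key
    left
    rw [← hu, Units.mul_inv]
  · have h1 := key (-u⁻¹) (Or.inr (by
      rw [← hu, Units.val_neg, mul_neg, Units.mul_inv]))
    rwa [Units.val_neg] at h1

/-- the value at the class of one -/
private theorem PFirst_one {d e q : ℕ} [NeZero d] (he : e ≤ 1) (hd2 : 2 < d)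
    (ψ : DirichletCharacter ℂ q) :
    wV e (√(q : ℝ)) 1 - 1 / √((d : ℝ) - 1) ≤ ‖GG e ψ (1 : ZMod d) + GG e ψ (-(1 : ZMod d))‖ := by
  have hfact : Fact (1 < d) := ⟨by omega⟩
  have h1 : (1 : ZMod d).val = 1 := ZMod.val_one d
  have h2 : (-(1 : ZMod d)).val = d - 1 := by
    have h3 := val_neg_unit (by omega : 2 ≤ d) (1 : (ZMod d)ˣ)
    rw [Units.val_neg, Units.val_one, h1] at h3
    exact h3
  have h3 : GG e ψ (1 : ZMod d) = (wV e (√(q : ℝ)) 1 : ℂ) := by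
    unfold GG
    rw [h1]
    simp
  have h4 : ‖GG e ψ (-(1 : ZMod d))‖ ≤ 1 / √((d : ℝ) - 1) := by
    have h5 := GG_norm he ψ (-(1 : ZMod d))
    rw [h2, Nat.cast_sub (by omega), Nat.cast_one] at h5
    exact h5
  have h5 : ‖GG e ψ (1 : ZMod d)‖ = wV e (√(q : ℝ)) 1 := by
    rw [h3, Complex.norm_real, Real.norm_of_nonneg (wV_nonneg _ _ _)]
  have h6 := norm_sub_le (GG e ψ (1 : ZMod d) + GG e ψ (-(1 : ZMod d))) (GG e ψ (-(1 : ZMod d)))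
  rw [add_sub_cancel_right, h5] at h6
  linarith

/-- the first moment is large -/
theorem firstM : ∃ Q₀ : ℕ, ∀ (Q p k j : ℕ) [Fact p.Prime], Q₀ ≤ Q → 2 * j ≤ k →
    k ≤ 3 * j → (Q : ℝ) ≤ ((p : ℝ) ^ k) ^ (1 / 10 : ℝ) → ∀ (hd : p ^ j ∣ p ^ k)
    (ψ : DirichletCharacter ℂ (p ^ k)), ψ.IsPrimitive →
    (Nat.totient (p ^ j) : ℝ) / 4 ≤ ‖∑ χ : DirichletCharacter ℂ (p ^ j), (1 + χ (-1)) *
      (DirichletCharacter.LFunction (ψ * DirichletCharacter.changeLevel hd χ) (1 / 2) *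
        MF Q (fun n => ψ n * χ n))‖ := by
  obtain ⟨Q₁, hdual⟩ := dual
  obtain ⟨K, hK, hwlow⟩ := wV_low
  have hm0 := m1_nonneg (e := 0) (by norm_num)
  have hm1 := m1_nonneg (e := 1) (by norm_num)
  obtain ⟨M, hM⟩ : ∃ M : ℝ, M = 1 + m1 0 + m1 1 := ⟨_, rfl⟩
  have hM1 : 1 ≤ M := by rw [hM]; linarith
  refine ⟨max (max Q₁ 1000) (max ⌈200 * K⌉₊ ⌈(1000 * M) ^ 2⌉₊), ?_⟩
  intro Q p k j _ hQ hj2 hj3 hQq hd ψ hψ
  have hp : p.Prime := Fact.out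
  have hp0 : (0 : ℝ) < p := by exact_mod_cast hp.pos
  have hQ1 : Q₁ ≤ Q := le_trans (le_trans (le_max_left _ _) (le_max_left _ _)) hQ
  have hQ1000 : 1000 ≤ Q := le_trans (le_trans (le_max_right _ _) (le_max_left _ _)) hQ
  have hQK : 200 * K ≤ Q := (Nat.le_ceil _).trans
    (by exact_mod_cast le_trans (le_trans (le_max_left _ _) (le_max_right _ _)) hQ)
  have hQM : (1000 * M) ^ 2 ≤ Q := (Nat.le_ceil _).trans
    (by exact_mod_cast le_trans (le_trans (le_max_right _ _) (le_max_right _ _)) hQ)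
  have hQR : (1000 : ℝ) ≤ Q := by exact_mod_cast hQ1000
  have hQ0 : (0 : ℝ) < Q := by linarith
  have hne : NeZero (p ^ j) := ⟨(pow_pos hp.pos j).ne'⟩
  have hne' : NeZero (p ^ k) := ⟨(pow_pos hp.pos k).ne'⟩
  -- the length of the mollifier
  obtain ⟨Y, hY⟩ : ∃ Y, Y = YY Q := ⟨_, rfl⟩
  have hyy : yy Q ^ 2 = (Q : ℝ) ^ (1 / 50 : ℝ) := by
    unfold yy
    rw [← Real.rpow_natCast, ← Real.rpow_mul hQ0.le]
    norm_num
  have hY1 : 1 ≤ Y := by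
    rw [hY]
    unfold YY
    apply Nat.le_floor
    rw [hyy, Nat.cast_one]
    exact Real.one_le_rpow (by linarith) (by norm_num)
  have hY0 : (0 : ℝ) < Y := by exact_mod_cast (by omega : 0 < Y)
  have hY1R : (1 : ℝ) ≤ Y := by exact_mod_cast hY1
  have hYle : (Y : ℝ) ≤ (Q : ℝ) ^ (1 / 50 : ℝ) := by
    rw [hY, ← hyy]
    unfold YY
    exact Nat.floor_le (by positivity)
  have hY4 : (Y : ℝ) ^ 4 ≤ Q := by
    calc (Y : ℝ) ^ 4 ≤ ((Q : ℝ) ^ (1 / 50 : ℝ)) ^ 4 := pow_le_pow_left₀ hY0.le hYle 4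
      _ = (Q : ℝ) ^ (4 / 50 : ℝ) := by
          rw [← Real.rpow_natCast, ← Real.rpow_mul hQ0.le]
          norm_num
      _ ≤ (Q : ℝ) ^ (1 : ℝ) := Real.rpow_le_rpow_of_exponent_le (by linarith) (by norm_num)
      _ = Q := Real.rpow_one _
  -- the modulus
  obtain ⟨q, hq⟩ : ∃ q : ℝ, q = (p : ℝ) ^ k := ⟨_, rfl⟩
  have hq0 : 0 < q := by rw [hq]; positivity
  have hcast : ((p ^ k : ℕ) : ℝ) = q := by rw [hq]; push_cast; rfl
  have hqQ : (Q : ℝ) ^ 10 ≤ q := by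
    have hQq' := hQq
    rw [← hq] at hQq'
    calc (Q : ℝ) ^ 10 ≤ (q ^ (1 / 10 : ℝ)) ^ 10 := pow_le_pow_left₀ hQ0.le hQq' 10
      _ = q := by
          rw [← Real.rpow_natCast, ← Real.rpow_mul hq0.le]
          norm_num
  have hkd : p ^ k ≤ (p ^ j) ^ 3 := by
    rw [← pow_mul]
    exact Nat.pow_le_pow_right hp.pos (by omega)
  have hdQ : Q ^ 3 ≤ p ^ j := by
    have h1 : Q ^ 10 ≤ p ^ k := by
      rw [hq] at hqQ
      exact_mod_cast hqQ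
    have h3 : (Q ^ 3) ^ 3 ≤ (p ^ j) ^ 3 := by
      calc (Q ^ 3) ^ 3 = Q ^ 9 := by ring
        _ ≤ Q ^ 10 := Nat.pow_le_pow_right (by omega) (by norm_num)
        _ ≤ (p ^ j) ^ 3 := h1.trans hkd
    exact (Nat.pow_le_pow_iff_left (by norm_num)).1 h3
  obtain ⟨d, hdd⟩ : ∃ d, d = p ^ j := ⟨_, rfl⟩
  have hdR : (Q : ℝ) ^ 3 ≤ (p ^ j : ℕ) := by exact_mod_cast hdQ
  have hd1000 : 1000 < p ^ j := by
    have h1 : 1000 * 1000 * 1000 ≤ Q * Q * Q :=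
      Nat.mul_le_mul (Nat.mul_le_mul hQ1000 hQ1000) hQ1000
    have h2 : Q ^ 3 = Q * Q * Q := by ring
    omega
  have hjpos : 1 ≤ j := by
    rcases Nat.eq_zero_or_pos j with h | h
    · rw [h, pow_zero] at hd1000
      omega
    · exact h
  have hqn : 1 < p ^ k := by
    have h1 : p ^ j ≤ p ^ k := Nat.le_of_dvd (pow_pos hp.pos k) hd
    omega
  have hdsq : (p ^ j) ^ 2 ∣ p ^ k := by
    rw [← pow_mul]
    exact pow_dvd_pow p (by omega)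
  -- parity and the class
  obtain ⟨e, he, hpar⟩ : ∃ e : ℕ, e ≤ 1 ∧ ψ (-1) = (-1) ^ e := by
    rcases ψ.even_or_odd with h | h
    · exact ⟨0, by norm_num, by rw [pow_zero]; exact h⟩
    · exact ⟨1, le_rfl, by rw [pow_one]; exact h⟩
  obtain ⟨c₀, hc₀⟩ := KK_class hdsq ψ hψ
  have hz := norm_rn ψ hψ e
  have hmM : 1 + m1 e ≤ M := by
    rw [hM]
    interval_cases e <;> linarith
  have hme0 := m1_nonneg he
  -- the pieces
  obtain ⟨co, hco⟩ : ∃ co : ℕ → ℂ,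
    co = fun m : ℕ => (lamq Q m : ℂ) * ψ m / (√(m : ℝ) : ℂ) := ⟨_, rfl⟩
  have hcon : ∀ m, ‖co m‖ ≤ 1 / √(m : ℝ) := fun m => by
    rw [hco]
    exact PFirst_coef (by omega) ψ m
  obtain ⟨H, hH⟩ : ∃ H : ℕ → ℂ, H = fun m : ℕ => ∑ χ : DirichletCharacter ℂ (p ^ j),
    (1 + χ (-1)) * χ (m : ZMod (p ^ j)) * DirichletCharacter.LFunction
      (ψ * DirichletCharacter.changeLevel hd χ) (1 / 2) := ⟨_, rfl⟩
  obtain ⟨G, hG⟩ : ∃ G : ℕ → ℂ, G = fun m : ℕ => GG e ψ ((m : ZMod (p ^ j))⁻¹) +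
    GG e ψ (-(m : ZMod (p ^ j))⁻¹) := ⟨_, rfl⟩
  obtain ⟨D, hD⟩ : ∃ D : ℕ → ℂ, D = fun m : ℕ => (starRingEnd ℂ)
    (GG e ψ ((c₀ : ZMod (p ^ j)) * (m : ZMod (p ^ j))) +
      GG e ψ (-((c₀ : ZMod (p ^ j)) * (m : ZMod (p ^ j))))) := ⟨_, rfl⟩
  have hstep1 : ∑ χ : DirichletCharacter ℂ (p ^ j), (1 + χ (-1)) *
      (DirichletCharacter.LFunction (ψ * DirichletCharacter.changeLevel hd χ) (1 / 2) *
        MF Q (fun n => ψ n * χ n)) = ∑ m ∈ Icc 1 Y, co m * H m := by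
    have h1 : ∀ χ : DirichletCharacter ℂ (p ^ j), (1 + χ (-1)) *
      (DirichletCharacter.LFunction (ψ * DirichletCharacter.changeLevel hd χ) (1 / 2) *
        MF Q (fun n => ψ n * χ n)) = ∑ m ∈ Icc 1 Y, co m * ((1 + χ (-1)) * χ (m : ZMod (p ^ j)) *
        DirichletCharacter.LFunction (ψ * DirichletCharacter.changeLevel hd χ) (1 / 2)) := by
      intro χ
      unfold MF
      rw [← hY, Finset.mul_sum, Finset.mul_sum]
      refine Finset.sum_congr rfl fun m _ => ?_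
      rw [hco]
      simp only
      ring
    rw [Finset.sum_congr rfl fun χ _ => h1 χ, Finset.sum_comm]
    refine Finset.sum_congr rfl fun m _ => ?_
    rw [hH, Finset.mul_sum]
  obtain ⟨φ, hφ⟩ : ∃ φ : ℝ, φ = Nat.totient (p ^ j) := ⟨_, rfl⟩
  have hφ0 : 0 ≤ φ := by rw [hφ]; exact Nat.cast_nonneg _
  obtain ⟨E, hE⟩ : ∃ E : ℝ, E = 4 * ((1 + m1 e) * (1 / ((p ^ j : ℕ) : ℝ) *
    (((p ^ k : ℕ) : ℝ)) ^ (1 / 4 : ℝ))) := ⟨_, rfl⟩
  have hE0 : 0 ≤ E := by rw [hE]; positivity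
  have hcop : ∀ m : ℕ, co m ≠ 0 → m.Coprime p := by
    intro m hm
    by_contra h
    apply hm
    rw [hco]
    simp only
    have h1 : ψ (m : ZMod (p ^ k)) = 0 := by
      apply MulChar.map_nonunit
      rw [ZMod.isUnit_iff_coprime]
      intro h1
      exact h (Nat.Coprime.coprime_dvd_right (dvd_pow_self p (by omega)) h1)
    rw [h1]
    simp
  have hstep2 : ∀ m ∈ Icc 1 Y, ‖co m * H m - (φ : ℂ) * (co m * G m + rn ψ e * (co m * D m))‖ ≤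
      φ * E := by
    intro m hm
    rw [Finset.mem_Icc] at hm
    by_cases h0 : co m = 0
    · rw [h0]
      simp only [zero_mul, mul_zero, add_zero, sub_zero, norm_zero]
      positivity
    · have hc := hcop m h0
      obtain ⟨u, hu⟩ : ∃ u : (ZMod (p ^ j))ˣ, (u : ZMod (p ^ j)) = m :=
        (ZMod.isUnit_iff_coprime _ _).2 (hc.pow_right j)
      have h1 := PFirst_class hqn hdsq (by omega) ψ hψ he hpar c₀ hc₀ u
      have h2 : ((u⁻¹ : (ZMod (p ^ j))ˣ) : ZMod (p ^ j)) = (m : ZMod (p ^ j))⁻¹ := by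
        rw [← hu, ZMod.inv_coe_unit]
      rw [h2, hu, ← hφ] at h1
      have h3 : co m * H m - (φ : ℂ) * (co m * G m + rn ψ e * (co m * D m)) =
          co m * (H m - (φ : ℂ) * (G m + rn ψ e * D m)) := by ring
      have h4 : ‖H m - (φ : ℂ) * (G m + rn ψ e * D m)‖ ≤ φ * E := by
        rw [hH, hG, hD, hE]
        have h5 : ((Nat.totient (p ^ j) : ℕ) : ℂ) = (φ : ℂ) := by
          rw [hφ]
          simp
        rw [h5] at h1
        exact h1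
      rw [h3, norm_mul]
      have hm1R : (1 : ℝ) ≤ m := by exact_mod_cast hm.1
      have h6 : ‖co m‖ ≤ 1 := by
        refine (hcon m).trans ?_
        have h7 : 1 ≤ √(m : ℝ) := Real.one_le_sqrt.2 hm1R
        rw [div_le_one (by linarith)]
        exact h7
      calc ‖co m‖ * ‖H m - (φ : ℂ) * (G m + rn ψ e * D m)‖ ≤ 1 * (φ * E) :=
            mul_le_mul h6 h4 (norm_nonneg _) zero_le_one
        _ = φ * E := one_mul _
  -- the dual part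
  have hdu : ‖∑ m ∈ Icc 1 Y, co m * D m‖ ≤ 29 / 40 := by
    have h1 := hdual Q p k j e hQ1 he hj2 hj3 hQq ψ c₀
    rw [← hY] at h1
    rw [hco, hD]
    exact h1
  -- the main part
  have hsd0 : 0 < √(((p ^ j : ℕ) : ℝ) - 1) := by
    apply Real.sqrt_pos.2
    have : (1000 : ℝ) < (p ^ j : ℕ) := by exact_mod_cast hd1000
    linarith
  have hmain : 1 - K * √(1 / √q) - 2 * Y / √(((p ^ j : ℕ) : ℝ) - 1) ≤
      ‖∑ m ∈ Icc 1 Y, co m * G m‖ := by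
    have h1 : ∑ m ∈ Icc 1 Y, co m * G m = co 1 * G 1 + ∑ m ∈ Icc 2 Y, co m * G m := by
      rw [← Finset.add_sum_Ioc_eq_sum_Icc hY1]
      rfl
    have h2 : ‖∑ m ∈ Icc 2 Y, co m * G m‖ ≤ (Y - 1) * (2 / √(((p ^ j : ℕ) : ℝ) - 1)) := by
      refine (norm_sum_le _ _).trans ?_
      have h3 : ∀ m ∈ Icc 2 Y, ‖co m * G m‖ ≤ 2 / √(((p ^ j : ℕ) : ℝ) - 1) := by
        intro m hm
        rw [Finset.mem_Icc] at hm
        by_cases h0 : co m = 0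
        · rw [h0, zero_mul, norm_zero]
          positivity
        have hc := hcop m h0
        obtain ⟨u, hu⟩ : ∃ u : (ZMod (p ^ j))ˣ, (u : ZMod (p ^ j)) = m :=
          (ZMod.isUnit_iff_coprime _ _).2 (hc.pow_right j)
        have h2 : ((u⁻¹ : (ZMod (p ^ j))ˣ) : ZMod (p ^ j)) = (m : ZMod (p ^ j))⁻¹ := by
          rw [← hu, ZMod.inv_coe_unit]
        obtain ⟨h4, h5⟩ := PFirst_rep he (by omega) ψ (by omega : 1 < m) u hu
        rw [h2] at h4 h5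
        have h6 : ‖G m‖ ≤ 2 * (√(m : ℝ) / √(((p ^ j : ℕ) : ℝ) - 1)) := by
          rw [hG]
          refine (norm_add_le _ _).trans ?_
          linarith
        have hm0 : (0 : ℝ) < m := by exact_mod_cast (by omega : 0 < m)
        have hsm : 0 < √(m : ℝ) := Real.sqrt_pos.2 hm0
        rw [norm_mul]
        calc ‖co m‖ * ‖G m‖ ≤ 1 / √(m : ℝ) * (2 * (√(m : ℝ) / √(((p ^ j : ℕ) : ℝ) - 1))) :=
              mul_le_mul (hcon m) h6 (norm_nonneg _) (by positivity)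
          _ = 2 / √(((p ^ j : ℕ) : ℝ) - 1) := by field_simp
      refine (Finset.sum_le_sum h3).trans (le_of_eq ?_)
      rw [Finset.sum_const, Nat.card_Icc, nsmul_eq_mul]
      congr 1
      rw [show Y + 1 - 2 = Y - 1 by omega, Nat.cast_sub hY1, Nat.cast_one]
    have h3 : co 1 = 1 := by
      rw [hco]
      simp only [Nat.cast_one, map_one, Real.sqrt_one, PFirst_lam (by omega : 1 ≤ Q)]
      norm_num
    have h4 : G 1 = GG e ψ (1 : ZMod (p ^ j)) + GG e ψ (-(1 : ZMod (p ^ j))) := by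
      rw [hG]
      simp only [Nat.cast_one]
      have h5 : (1 : ZMod (p ^ j))⁻¹ = 1 := by
        have := ZMod.inv_coe_unit (1 : (ZMod (p ^ j))ˣ)
        simpa using this
      rw [h5]
    have h5 := PFirst_one (d := p ^ j) he (by omega) ψ
    rw [← h4, hcast] at h5
    have h6 := hwlow e he (√q) 1 (Real.sqrt_pos.2 hq0) one_pos (by
      rw [Nat.cast_one]
      apply Real.one_le_sqrt.2
      have : (1 : ℝ) ≤ (Q : ℝ) ^ 10 := one_le_pow₀ (by linarith)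
      linarith)
    rw [Nat.cast_one] at h6
    rw [h1, h3, one_mul]
    have h7 := norm_sub_le (G 1 + ∑ m ∈ Icc 2 Y, co m * G m) (∑ m ∈ Icc 2 Y, co m * G m)
    rw [add_sub_cancel_right] at h7
    have h8 : 1 / √(((p ^ j : ℕ) : ℝ) - 1) + (Y - 1) * (2 / √(((p ^ j : ℕ) : ℝ) - 1)) ≤
        2 * Y / √(((p ^ j : ℕ) : ℝ) - 1) := by
      have h9 : 0 < 1 / √(((p ^ j : ℕ) : ℝ) - 1) := by positivity
      have h10 : 2 * (Y : ℝ) / √(((p ^ j : ℕ) : ℝ) - 1) =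
          2 * Y * (1 / √(((p ^ j : ℕ) : ℝ) - 1)) := by ring
      have h11 : ((Y : ℝ) - 1) * (2 / √(((p ^ j : ℕ) : ℝ) - 1)) =
          2 * (Y - 1) * (1 / √(((p ^ j : ℕ) : ℝ) - 1)) := by ring
      rw [h10, h11]
      nlinarith
    linarith
  -- numbers
  have hn1 : K * √(1 / √q) ≤ 1 / 200 := by
    have h1 : (Q : ℝ) ^ 5 ≤ √q := by
      apply Real.le_sqrt_of_sq_le
      calc ((Q : ℝ) ^ 5) ^ 2 = (Q : ℝ) ^ 10 := by ring
        _ ≤ q := hqQ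
    have h2 : √(1 / √q) ≤ 1 / Q := by
      apply Real.sqrt_le_iff.2
      refine ⟨by positivity, ?_⟩
      rw [div_pow, one_pow]
      apply one_div_le_one_div_of_le (by positivity)
      refine le_trans ?_ h1
      exact pow_le_pow_right₀ (by linarith) (by norm_num)
    calc K * √(1 / √q) ≤ K * (1 / Q) := mul_le_mul_of_nonneg_left h2 hK.le
      _ = K / Q := by ring
      _ ≤ 1 / 200 := by
          rw [div_le_iff₀ hQ0]
          linarith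
  have hYsq : (Y : ℝ) ^ 2 ≤ Q := by
    have : (Y : ℝ) ^ 2 ≤ (Y : ℝ) ^ 4 := pow_le_pow_right₀ hY1R (by norm_num)
    linarith
  have hn2 : 2 * Y / √(((p ^ j : ℕ) : ℝ) - 1) ≤ 1 / 200 := by
    rw [div_le_iff₀ hsd0]
    have h1 : 400 * (Y : ℝ) ≤ √(((p ^ j : ℕ) : ℝ) - 1) := by
      apply Real.le_sqrt_of_sq_le
      have h2 : (Q : ℝ) ^ 3 = Q * Q * Q := by ring
      have h3 : 1000 * 1000 * (Q : ℝ) ≤ Q * Q * Q := by
        apply mul_le_mul_of_nonneg_right _ hQ0.le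
        exact mul_le_mul hQR hQR (by norm_num) hQ0.le
      nlinarith
    linarith
  have hn3 : Y * E ≤ 1 / 200 := by
    have h1 : (q : ℝ) ^ (1 / 4 : ℝ) ≤ ((p ^ j : ℕ) : ℝ) ^ (3 / 4 : ℝ) := by
      have h2 : q ≤ ((p ^ j : ℕ) : ℝ) ^ (3 : ℝ) := by
        rw [← hcast]
        exact_mod_cast hkd
      calc (q : ℝ) ^ (1 / 4 : ℝ) ≤ (((p ^ j : ℕ) : ℝ) ^ (3 : ℝ)) ^ (1 / 4 : ℝ) :=
            Real.rpow_le_rpow hq0.le h2 (by norm_num)
        _ = _ := by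
            rw [← Real.rpow_mul (Nat.cast_nonneg _)]
            norm_num
    have hd0 : (0 : ℝ) < (p ^ j : ℕ) := by exact_mod_cast pow_pos hp.pos j
    have h2 : 1 / ((p ^ j : ℕ) : ℝ) * q ^ (1 / 4 : ℝ) ≤ (Q : ℝ) ^ (-(3 / 4) : ℝ) := by
      calc 1 / ((p ^ j : ℕ) : ℝ) * q ^ (1 / 4 : ℝ)
          ≤ 1 / ((p ^ j : ℕ) : ℝ) * ((p ^ j : ℕ) : ℝ) ^ (3 / 4 : ℝ) :=
            mul_le_mul_of_nonneg_left h1 (by positivity)
        _ = ((p ^ j : ℕ) : ℝ) ^ (-(1 / 4) : ℝ) := by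
            rw [one_div, ← Real.rpow_neg_one, ← Real.rpow_add hd0]
            norm_num
        _ ≤ ((Q : ℝ) ^ (3 : ℝ)) ^ (-(1 / 4) : ℝ) := by
            apply Real.rpow_le_rpow_of_nonpos (by positivity) _ (by norm_num)
            exact_mod_cast hdR
        _ = (Q : ℝ) ^ (-(3 / 4) : ℝ) := by
            rw [← Real.rpow_mul hQ0.le]
            norm_num
    have h3 : (Y : ℝ) ≤ (Q : ℝ) ^ (1 / 4 : ℝ) :=
      hYle.trans (Real.rpow_le_rpow_of_exponent_le (by linarith) (by norm_num))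
    have h4 : E ≤ 4 * (M * (Q : ℝ) ^ (-(3 / 4) : ℝ)) := by
      rw [hE, hcast]
      have h5 : (1 + m1 e) * (1 / ((p ^ j : ℕ) : ℝ) * q ^ (1 / 4 : ℝ)) ≤
          M * (Q : ℝ) ^ (-(3 / 4) : ℝ) := mul_le_mul hmM h2 (by positivity) (by linarith)
      linarith
    have h5 : (Q : ℝ) ^ (1 / 4 : ℝ) * (Q : ℝ) ^ (-(3 / 4) : ℝ) = 1 / √Q := by
      have h6 : 1 / √(Q : ℝ) = (Q : ℝ) ^ (-(1 / 2) : ℝ) := by
        rw [Real.sqrt_eq_rpow, Real.rpow_neg hQ0.le]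
        simp only [one_div]
      rw [h6, ← Real.rpow_add hQ0]
      norm_num
    have h6 : 1000 * M ≤ √Q := Real.le_sqrt_of_sq_le hQM
    calc Y * E ≤ (Q : ℝ) ^ (1 / 4 : ℝ) * (4 * (M * (Q : ℝ) ^ (-(3 / 4) : ℝ))) :=
          mul_le_mul h3 h4 hE0 (by positivity)
      _ = 4 * M * ((Q : ℝ) ^ (1 / 4 : ℝ) * (Q : ℝ) ^ (-(3 / 4) : ℝ)) := by ring
      _ = 4 * M / √Q := by rw [h5]; ring
      _ ≤ 1 / 200 := by
          rw [div_le_iff₀ (Real.sqrt_pos.2 hQ0)]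
          linarith
  -- the end
  rw [hstep1, ← hφ]
  have hdiff : ‖∑ m ∈ Icc 1 Y, co m * H m - (φ : ℂ) * (∑ m ∈ Icc 1 Y, co m * G m +
      rn ψ e * ∑ m ∈ Icc 1 Y, co m * D m)‖ ≤ φ * (Y * E) := by
    have h1 : ∑ m ∈ Icc 1 Y, co m * H m - (φ : ℂ) * (∑ m ∈ Icc 1 Y, co m * G m +
        rn ψ e * ∑ m ∈ Icc 1 Y, co m * D m) =
        ∑ m ∈ Icc 1 Y, (co m * H m - (φ : ℂ) * (co m * G m + rn ψ e * (co m * D m))) := by
      rw [Finset.sum_sub_distrib, Finset.mul_sum, ← Finset.sum_add_distrib, Finset.mul_sum]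
    rw [h1]
    refine (norm_sum_le _ _).trans ((Finset.sum_le_sum hstep2).trans (le_of_eq ?_))
    rw [Finset.sum_const, Nat.card_Icc, Nat.add_sub_cancel, nsmul_eq_mul]
    ring
  obtain ⟨S, hS⟩ : ∃ S, S = ∑ m ∈ Icc 1 Y, co m * H m := ⟨_, rfl⟩
  obtain ⟨SG, hSG⟩ : ∃ S, S = ∑ m ∈ Icc 1 Y, co m * G m := ⟨_, rfl⟩
  obtain ⟨SD, hSD⟩ : ∃ S, S = ∑ m ∈ Icc 1 Y, co m * D m := ⟨_, rfl⟩
  rw [← hS, ← hSG, ← hSD] at hdiff
  rw [← hSD] at hdu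
  rw [← hSG] at hmain
  rw [← hS]
  have h1 : 1 / 4 + 1 / 200 ≤ ‖SG + rn ψ e * SD‖ := by
    have h2 := norm_sub_le (SG + rn ψ e * SD) (rn ψ e * SD)
    rw [add_sub_cancel_right, norm_mul, hz, one_mul] at h2
    linarith
  have h2 : φ * ‖SG + rn ψ e * SD‖ ≤ ‖S‖ + φ * (Y * E) := by
    have h3 := norm_sub_le S (S - (φ : ℂ) * (SG + rn ψ e * SD))
    rw [sub_sub_cancel, norm_mul, Complex.norm_real, Real.norm_of_nonneg hφ0] at h3
    linarith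
  have h3 : φ * (1 / 4 + 1 / 200) ≤ φ * ‖SG + rn ψ e * SD‖ := mul_le_mul_of_nonneg_left h1 hφ0
  have h4 : φ * (Y * E) ≤ φ * (1 / 200) := mul_le_mul_of_nonneg_left hn3 hφ0
  linarith

end Pool.Agent.NP
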