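import Pool.Agent.Lib.MP_afd523_nt_P.PDefs
import Pool.Agent.Lib.MP_afd523_nt_W.WChar

/-!
Project NP (MP_afd523_nt): linearization of the correlations of a character modulo a prime power.
-/

namespace Pool.Agent.NP

open Finset Complex MeasureTheory Pool.Agent.NV Pool.Agent.NVW

private theorem PLin_zero {p k m : ℕ} (h : k ≤ m) : (p : ZMod (p ^ k)) ^ m = 0 := by
  rw [← Nat.cast_pow, ZMod.natCast_eq_zero_iff]
  exact pow_dvd_pow p h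

private theorem PLin_conj {p k : ℕ} (ψ : DirichletCharacter ℂ (p ^ k)) {x : ZMod (p ^ k)}
    (hx : IsUnit x) : ψ x * (starRingEnd ℂ) (ψ x) = 1 := by
  obtain ⟨u, rfl⟩ := hx
  rw [Complex.mul_conj, Complex.normSq_eq_norm_sq, DirichletCharacter.unit_norm_eq_one]
  simp

/-- the linearization of the correlation -/
theorem lin2 {p k a i : ℕ} [Fact p.Prime] (ha : 1 ≤ a) (hi : 1 ≤ i) (h1 : k ≤ a + 2 * i)
    (h2 : k ≤ 2 * a + i) (ψ : DirichletCharacter ℂ (p ^ k)) (x D M t : ℕ) (hx : x.Coprime p) :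
    ψ ((x + M * (p ^ i * t) + p ^ a * D : ℕ) : ZMod (p ^ k)) *
        (starRingEnd ℂ) (ψ ((x + M * (p ^ i * t) : ℕ) : ZMod (p ^ k))) =
      ψ ((x + p ^ a * D : ℕ) : ZMod (p ^ k)) * (starRingEnd ℂ) (ψ ((x : ℕ) : ZMod (p ^ k))) *
        ψ (1 + (p : ZMod (p ^ k)) ^ (a + i) * (-(D * M : ZMod (p ^ k)) *
          ((x : ZMod (p ^ k))⁻¹) ^ 2)) ^ t := by
  have hp : p.Prime := Fact.out
  have hX : IsUnit (x : ZMod (p ^ k)) := (ZMod.isUnit_iff_coprime _ _).2 (hx.pow_right k)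
  have hXS : IsUnit ((x + M * (p ^ i * t) : ℕ) : ZMod (p ^ k)) := by
    rw [ZMod.isUnit_iff_coprime]
    apply Nat.Coprime.pow_right
    have h3 : p ∣ M * (p ^ i * t) := (Dvd.dvd.mul_right (dvd_pow_self p (by omega)) t).mul_left M
    obtain ⟨c, hc⟩ := h3
    rw [hc, Nat.coprime_comm, mul_comm]
    rw [Nat.coprime_comm] at hx
    simpa using hx
  rw [← psi_pow (by omega)]
  obtain ⟨Y, hY⟩ : ∃ Y : ZMod (p ^ k), Y = (x : ZMod (p ^ k))⁻¹ := ⟨_, rfl⟩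
  have hYX : (x : ZMod (p ^ k)) * Y = 1 := by
    rw [hY]
    exact ZMod.mul_inv_of_unit _ hX
  rw [← hY]
  have e1 : (p : ZMod (p ^ k)) ^ a * ((p : ZMod (p ^ k)) ^ i) ^ 2 = 0 := by
    rw [← pow_mul, ← pow_add]
    exact PLin_zero (by omega)
  have e2 : ((p : ZMod (p ^ k)) ^ a) ^ 2 * (p : ZMod (p ^ k)) ^ i = 0 := by
    rw [← pow_mul, ← pow_add]
    exact PLin_zero (by omega)
  have c1 := PLin_conj ψ hX
  have c2 := PLin_conj ψ hXS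
  have key : ((x + M * (p ^ i * t) + p ^ a * D : ℕ) : ZMod (p ^ k)) * (x : ZMod (p ^ k)) =
      ((x + p ^ a * D : ℕ) : ZMod (p ^ k)) * ((x + M * (p ^ i * t) : ℕ) : ZMod (p ^ k)) *
      (1 + (p : ZMod (p ^ k)) ^ (a + i) * (-(D * M : ZMod (p ^ k)) * Y ^ 2 * t)) := by
    push_cast
    rw [pow_add]
    obtain ⟨P, hP⟩ : ∃ P : ZMod (p ^ k), P = (p : ZMod (p ^ k)) ^ a := ⟨_, rfl⟩
    obtain ⟨I, hI⟩ : ∃ I : ZMod (p ^ k), I = (p : ZMod (p ^ k)) ^ i := ⟨_, rfl⟩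
    rw [← hP, ← hI] at e1 e2 ⊢
    obtain ⟨X, hXd⟩ : ∃ X : ZMod (p ^ k), X = (x : ZMod (p ^ k)) := ⟨_, rfl⟩
    rw [← hXd] at hYX ⊢
    obtain ⟨m, hm⟩ : ∃ m : ZMod (p ^ k), m = (M : ZMod (p ^ k)) := ⟨_, rfl⟩
    obtain ⟨D', hD'⟩ : ∃ D' : ZMod (p ^ k), D' = (D : ZMod (p ^ k)) := ⟨_, rfl⟩
    obtain ⟨t', ht'⟩ : ∃ t' : ZMod (p ^ k), t' = (t : ZMod (p ^ k)) := ⟨_, rfl⟩
    rw [← hm, ← hD', ← ht']
    linear_combination (P * I * D' * m * t' * (X * Y + 1)) * hYX +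
      (D' * m ^ 2 * t' ^ 2 * X * Y ^ 2 + P * D' ^ 2 * m ^ 2 * t' ^ 2 * Y ^ 2) * e1 +
      (D' ^ 2 * m * t' * X * Y ^ 2) * e2
  have key2 := congrArg ψ key
  rw [map_mul, map_mul, map_mul] at key2
  have hx0 : ψ (x : ZMod (p ^ k)) ≠ 0 := by
    intro h0
    rw [h0] at c1
    simp at c1
  have hxs0 : ψ ((x + M * (p ^ i * t) : ℕ) : ZMod (p ^ k)) ≠ 0 := by
    intro h0
    rw [h0] at c2
    simp at c2
  have d1 : (starRingEnd ℂ) (ψ (x : ZMod (p ^ k))) = (ψ (x : ZMod (p ^ k)))⁻¹ :=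
    eq_inv_of_mul_eq_one_right c1
  have d2 : (starRingEnd ℂ) (ψ ((x + M * (p ^ i * t) : ℕ) : ZMod (p ^ k))) =
      (ψ ((x + M * (p ^ i * t) : ℕ) : ZMod (p ^ k)))⁻¹ := eq_inv_of_mul_eq_one_right c2
  rw [d1, d2]
  field_simp
  linear_combination key2

end Pool.Agent.NP
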