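import Pool.Agent.Lib.MP_afd523_nt_P.PDefs

/-!
Project NP (MP_afd523_nt): sums of the Moebius function over numbers prime to a given number.
-/

namespace Pool.Agent.NP

open Finset

private theorem PMu_part (m K : ℕ) (hm : m ≠ 0) :
    ∃ m' : ℕ, m' ≠ 0 ∧ m'.Coprime K ∧ m' ∣ m ∧ ∀ n, n ∣ m → n.Coprime K → n ∣ m' := by
  obtain ⟨g, hg⟩ : ∃ g, g = Nat.gcd m (K ^ m) := ⟨_, rfl⟩
  have hgm : g ∣ m := hg ▸ Nat.gcd_dvd_left _ _
  have hg0 : g ≠ 0 := fun h => hm (Nat.eq_zero_of_zero_dvd (h ▸ hgm))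
  obtain ⟨m', hm'⟩ := hgm
  have hm'0 : m' ≠ 0 := fun h => hm (by rw [hm', h, mul_zero])
  refine ⟨m', hm'0, ?_, ⟨g, by rw [hm', mul_comm]⟩, ?_⟩
  · rw [Nat.coprime_iff_gcd_eq_one]
    by_contra hne
    obtain ⟨l, hl, hlg⟩ := Nat.exists_prime_and_dvd hne
    have h1 : l ∣ m' := hlg.trans (Nat.gcd_dvd_left _ _)
    have h2 : l ∣ K := hlg.trans (Nat.gcd_dvd_right _ _)
    obtain ⟨a, ha⟩ : ∃ a, a = m.factorization l := ⟨_, rfl⟩
    have h3 : l ^ a ∣ m := ha ▸ Nat.ordProj_dvd m l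
    have ham : a ≤ m := by
      have h4 : l ^ a ≤ m := Nat.le_of_dvd (Nat.pos_of_ne_zero hm) h3
      have h5 : a < l ^ a := Nat.lt_pow_self hl.one_lt
      omega
    have h4 : l ^ a ∣ g := by
      rw [hg]
      refine Nat.dvd_gcd h3 ?_
      exact (pow_dvd_pow_of_dvd h2 a).trans (pow_dvd_pow K ham)
    have h5 : l ^ (a + 1) ∣ m := by
      rw [pow_succ, hm']
      exact mul_dvd_mul h4 h1
    rw [ha] at h5
    exact Nat.pow_succ_factorization_not_dvd hm hl h5
  · intro n hn hnK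
    have h1 : n.Coprime g := by
      rw [hg]
      exact Nat.Coprime.coprime_dvd_right (Nat.gcd_dvd_right _ _) (hnK.pow_right m)
    rw [hm'] at hn
    exact h1.dvd_of_dvd_mul_left hn

open Classical in
private theorem PMu_sum (m K : ℕ) (hm : m ≠ 0) :
    ∑ n ∈ m.divisors.filter (fun n => n.Coprime K), ArithmeticFunction.moebius n =
      if (∀ n, n ∣ m → n.Coprime K → n = 1) then 1 else 0 := by
  obtain ⟨m', hm'0, hcop, hdvd, huniv⟩ := PMu_part m K hm
  have h1 : m.divisors.filter (fun n => n.Coprime K) = m'.divisors := by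
    ext n
    rw [Finset.mem_filter, Nat.mem_divisors, Nat.mem_divisors]
    constructor
    · rintro ⟨⟨h2, _⟩, h3⟩
      exact ⟨huniv n h2 h3, hm'0⟩
    · rintro ⟨h2, _⟩
      exact ⟨⟨h2.trans hdvd, hm⟩, Nat.Coprime.coprime_dvd_left h2 hcop⟩
  rw [h1, ← ArithmeticFunction.coe_mul_zeta_apply, ArithmeticFunction.moebius_mul_coe_zeta,
    ArithmeticFunction.one_apply]
  by_cases h2 : m' = 1
  · rw [if_pos h2, if_pos]
    intro n hn hc
    have := huniv n hn hc
    rw [h2] at this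
    exact Nat.dvd_one.1 this
  · rw [if_neg h2, if_neg]
    intro h3
    exact h2 (h3 m' hdvd hcop)

/-- the sum over the numbers prime to `K` -/
theorem mu_cop (K N : ℕ) (hK : K ≠ 0) :
    |∑ n ∈ (Icc 1 N).filter (fun n => n.Coprime K), (ArithmeticFunction.moebius n : ℝ) / n| ≤
      1 := by
  classical
  rcases Nat.eq_zero_or_pos N with rfl | hN
  · simp
  have hN0 : (0 : ℝ) < N := by exact_mod_cast hN
  obtain ⟨S, hS⟩ : ∃ S : Finset ℕ, S = (Icc 1 N).filter (fun n => n.Coprime K) := ⟨_, rfl⟩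
  rw [← hS]
  -- the sum of the integral parts
  have h1 : ∑ n ∈ S, ArithmeticFunction.moebius n * ((N / n : ℕ) : ℤ) =
      ∑ m ∈ Icc 1 N, if (∀ n, n ∣ m → n.Coprime K → n = 1) then (1 : ℤ) else 0 := by
    have h2 : ∀ n ∈ S, ArithmeticFunction.moebius n * ((N / n : ℕ) : ℤ) =
        ∑ m ∈ Icc 1 N, if n ∣ m then ArithmeticFunction.moebius n else 0 := by
      intro n hn
      rw [hS, Finset.mem_filter, Finset.mem_Icc] at hn
      rw [← Finset.sum_filter, Finset.sum_const, nsmul_eq_mul, mul_comm]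
      congr 1
      have h3 : (Icc 1 N).filter (fun m => n ∣ m) = (Ioc 0 N).filter (fun m => n ∣ m) := by
        congr 1
      rw [h3, Nat.Ioc_filter_dvd_card_eq_div]
    rw [Finset.sum_congr rfl h2, Finset.sum_comm]
    refine Finset.sum_congr rfl fun m hm => ?_
    rw [Finset.mem_Icc] at hm
    rw [← PMu_sum m K (by omega), ← Finset.sum_filter]
    refine Finset.sum_congr ?_ fun _ _ => rfl
    ext n
    rw [Finset.mem_filter, Finset.mem_filter, hS, Finset.mem_filter, Finset.mem_Icc,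
      Nat.mem_divisors]
    constructor
    · rintro ⟨⟨⟨h3, h4⟩, h5⟩, h6⟩
      exact ⟨⟨h6, by omega⟩, h5⟩
    · rintro ⟨⟨h3, h4⟩, h5⟩
      have h6 := Nat.le_of_dvd (by omega) h3
      have h7 := Nat.pos_of_dvd_of_pos h3 (by omega)
      exact ⟨⟨⟨h7, by omega⟩, h5⟩, h3⟩
  obtain ⟨A, hA⟩ : ∃ A : Finset ℕ, A = (Icc 1 N).filter
    (fun m => ∀ n, n ∣ m → n.Coprime K → n = 1) := ⟨_, rfl⟩
  have h2 : ∑ m ∈ Icc 1 N, (if (∀ n, n ∣ m → n.Coprime K → n = 1) then (1 : ℤ) else 0) =
      A.card := by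
    rw [← Finset.sum_filter, hA]
    simp
  have h3 : (N : ℝ) * ∑ n ∈ S, (ArithmeticFunction.moebius n : ℝ) / n =
      A.card + ∑ n ∈ S, (ArithmeticFunction.moebius n : ℝ) * (((N % n : ℕ) : ℝ) / n) := by
    have h4 : ((∑ n ∈ S, ArithmeticFunction.moebius n * ((N / n : ℕ) : ℤ) : ℤ) : ℝ) =
        (A.card : ℝ) := by
      rw [h1, h2]
      simp
    rw [← h4, Int.cast_sum, ← Finset.sum_add_distrib, Finset.mul_sum]
    refine Finset.sum_congr rfl fun n hn => ?_
    rw [hS, Finset.mem_filter, Finset.mem_Icc] at hn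
    have hn0 : (n : ℝ) ≠ 0 := by
      have : n ≠ 0 := by omega
      exact_mod_cast this
    have h5 : (N : ℝ) = n * ((N / n : ℕ) : ℝ) + ((N % n : ℕ) : ℝ) := by
      exact_mod_cast (Nat.div_add_mod N n).symm
    have h6 : (N : ℝ) / n = ((N / n : ℕ) : ℝ) + ((N % n : ℕ) : ℝ) / n := by
      rw [div_eq_iff hn0, add_mul, div_mul_cancel₀ _ hn0]
      linarith
    rw [Int.cast_mul, Int.cast_natCast]
    calc (N : ℝ) * ((ArithmeticFunction.moebius n : ℝ) / n) =
          (ArithmeticFunction.moebius n : ℝ) * ((N : ℝ) / n) := by ring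
      _ = _ := by rw [h6]; ring
  have h4 : |∑ n ∈ S, (ArithmeticFunction.moebius n : ℝ) * (((N % n : ℕ) : ℝ) / n)| ≤
      (S.filter (fun n => n ≠ 1)).card := by
    refine (Finset.abs_sum_le_sum_abs _ _).trans ?_
    rw [← Finset.sum_filter_add_sum_filter_not S (fun n => n ≠ 1)]
    have h5 : ∑ n ∈ S.filter (fun n => ¬ n ≠ 1), |(ArithmeticFunction.moebius n : ℝ) *
        (((N % n : ℕ) : ℝ) / n)| = 0 := by
      refine Finset.sum_eq_zero fun n hn => ?_
      rw [Finset.mem_filter] at hn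
      have : n = 1 := not_not.1 hn.2
      rw [this, Nat.mod_one]
      simp
    rw [h5, add_zero]
    have h6 : ∀ n ∈ S.filter (fun n => n ≠ 1), |(ArithmeticFunction.moebius n : ℝ) *
        (((N % n : ℕ) : ℝ) / n)| ≤ 1 := by
      intro n hn
      rw [Finset.mem_filter, hS, Finset.mem_filter, Finset.mem_Icc] at hn
      have hn0 : (0 : ℝ) < n := by exact_mod_cast (by omega : 0 < n)
      rw [abs_mul]
      have h7 : |(ArithmeticFunction.moebius n : ℝ)| ≤ 1 := by
        exact_mod_cast ArithmeticFunction.abs_moebius_le_one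
      have h8 : |((N % n : ℕ) : ℝ) / n| ≤ 1 := by
        rw [abs_of_nonneg (by positivity), div_le_one hn0]
        exact_mod_cast (Nat.mod_lt N (by omega)).le
      exact mul_le_one₀ h7 (abs_nonneg _) h8
    refine (Finset.sum_le_sum h6).trans ?_
    simp
  have h5 : A.card + (S.filter (fun n => n ≠ 1)).card ≤ N := by
    have h6 : Disjoint A (S.filter (fun n => n ≠ 1)) := by
      rw [Finset.disjoint_left]
      intro n hn hn'
      rw [hA, Finset.mem_filter] at hn
      rw [Finset.mem_filter, hS, Finset.mem_filter] at hn'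
      exact hn'.2 (hn.2 n dvd_rfl hn'.1.2)
    rw [← Finset.card_union_of_disjoint h6]
    have h7 : A ∪ S.filter (fun n => n ≠ 1) ⊆ Icc 1 N := by
      intro n hn
      rw [Finset.mem_union] at hn
      rcases hn with hn | hn
      · rw [hA, Finset.mem_filter] at hn
        exact hn.1
      · rw [Finset.mem_filter, hS, Finset.mem_filter] at hn
        exact hn.1.1
    have h8 := Finset.card_le_card h7
    simpa using h8
  have h6 : (A.card : ℝ) + (S.filter (fun n => n ≠ 1)).card ≤ N := by exact_mod_cast h5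
  have h7 : |(N : ℝ) * ∑ n ∈ S, (ArithmeticFunction.moebius n : ℝ) / n| ≤ N := by
    rw [h3]
    refine (abs_add_le _ _).trans ?_
    rw [abs_of_nonneg (Nat.cast_nonneg A.card)]
    linarith
  rw [abs_mul, abs_of_pos hN0] at h7
  have h8 : (N : ℝ) * |∑ n ∈ S, (ArithmeticFunction.moebius n : ℝ) / n| ≤ N * 1 := by
    rw [mul_one]
    exact h7
  exact le_of_mul_le_mul_left h8 hN0

/-- the sum over the divisors of a squarefree number up to a bound -/
theorem mu_pi (P z : ℕ) (hP : Squarefree P) :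
    |∑ s ∈ P.divisors.filter (fun s => s ≤ z), (ArithmeticFunction.moebius s : ℝ) / s| ≤ 1 := by
  classical
  have hP0 : P ≠ 0 := hP.ne_zero
  obtain ⟨K, hK⟩ : ∃ K : ℕ, K = ∏ l ∈ (Icc 1 z).filter (fun l => l.Prime ∧ ¬ l ∣ P), l := ⟨_, rfl⟩
  have hK0 : K ≠ 0 := by
    rw [hK, Finset.prod_ne_zero_iff]
    intro l hl
    rw [Finset.mem_filter] at hl
    exact hl.2.1.ne_zero
  have hKp : ∀ l : ℕ, l.Prime → (l ∣ K ↔ l ≤ z ∧ ¬ l ∣ P) := by
    intro l hl
    rw [hK, Prime.dvd_finsetProd_iff (Nat.prime_iff.1 hl)]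
    constructor
    · rintro ⟨a, ha, hla⟩
      rw [Finset.mem_filter, Finset.mem_Icc] at ha
      have := (Nat.prime_dvd_prime_iff_eq hl ha.2.1).1 hla
      rw [this]
      exact ⟨ha.1.2, ha.2.2⟩
    · rintro ⟨h1, h2⟩
      exact ⟨l, by rw [Finset.mem_filter, Finset.mem_Icc]; exact ⟨⟨hl.one_le, h1⟩, hl, h2⟩,
        dvd_rfl⟩
  have h1 : ∑ s ∈ P.divisors.filter (fun s => s ≤ z), (ArithmeticFunction.moebius s : ℝ) / s =
      ∑ n ∈ (Icc 1 z).filter (fun n => n.Coprime K), (ArithmeticFunction.moebius n : ℝ) / n := by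
    refine Finset.sum_subset (fun s hs => ?_) (fun n hn hn' => ?_)
    · rw [Finset.mem_filter, Nat.mem_divisors] at hs
      rw [Finset.mem_filter, Finset.mem_Icc]
      refine ⟨⟨Nat.pos_of_dvd_of_pos hs.1.1 (Nat.pos_of_ne_zero hP0), hs.2⟩, ?_⟩
      apply Nat.coprime_of_dvd
      intro l hl h2 h3
      exact ((hKp l hl).1 h3).2 (h2.trans hs.1.1)
    · rw [Finset.mem_filter, Finset.mem_Icc] at hn
      rw [Finset.mem_filter, Nat.mem_divisors] at hn'
      have h2 : ¬ Squarefree n := by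
        intro hsq
        apply hn'
        refine ⟨⟨?_, hP0⟩, hn.1.2⟩
        rw [← Nat.prod_primeFactors_of_squarefree hsq, ← Nat.prod_primeFactors_of_squarefree hP]
        apply Finset.prod_dvd_prod_of_subset
        intro l hl
        have hlp := Nat.prime_of_mem_primeFactors hl
        have hln := Nat.dvd_of_mem_primeFactors hl
        rw [Nat.mem_primeFactors]
        refine ⟨hlp, ?_, hP0⟩
        by_contra h3
        have h4 : l ∣ K := (hKp l hlp).2 ⟨(Nat.le_of_dvd (by omega) hln).trans hn.1.2, h3⟩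
        have h5 := Nat.dvd_gcd hln h4
        rw [Nat.coprime_iff_gcd_eq_one.1 hn.2] at h5
        exact hlp.one_lt.ne' (Nat.dvd_one.1 h5)
      rw [ArithmeticFunction.moebius_eq_zero_of_not_squarefree h2]
      simp
  rw [h1]
  exact mu_cop K z hK0

end Pool.Agent.NP
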