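import Pool.Agent.Lib.MP_afd523_nt_P.PDefs

/-!
Project NP (MP_afd523_nt): numerical estimates.
-/

namespace Pool.Agent.NP

open Finset Complex MeasureTheory Pool.Agent.NV Filter

/-- the off-diagonal bound in terms of powers of `q` -/
theorem num_off {δ q p Y ρ F d N : ℝ} (hδ : 0 < δ) (hq : 1 ≤ q) (hp0 : 0 ≤ p)
    (hp : p ≤ q ^ δ) (hY0 : 0 ≤ Y) (hY : Y ≤ q ^ (δ / 4)) (hρ : ρ = q ^ (10 * δ)) (hF0 : 0 ≤ F)
    (hF : F ≤ q ^ δ) (hd : q ^ (1 / 3 + 20 * δ) ≤ d) (hN0 : 0 ≤ N) (hN : N ≤ q ^ (1 / 2 + δ)) :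
    64 * p * Y ^ 4 * ρ * F / d * ((N + 1) * √(Y * N / q) + 1 + √(q / d) * (1 + Real.log q)) ≤
      192 * q ^ (-(1 / 12) - 5 * δ) + 64 * ((1 + Real.log q) * q ^ (-(17 * δ))) := by
  have hq0 : 0 < q := by linarith
  have hlog : 0 ≤ Real.log q := Real.log_nonneg hq
  have hd0 : 0 < d := lt_of_lt_of_le (Real.rpow_pos_of_pos hq0 _) hd
  have hY4 : Y ^ 4 ≤ q ^ δ := by
    calc Y ^ 4 ≤ (q ^ (δ / 4)) ^ 4 := pow_le_pow_left₀ hY0 hY 4
      _ = q ^ δ := by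
        rw [← Real.rpow_natCast, ← Real.rpow_mul hq0.le]
        congr 1
        push_cast
        ring
  have hY1 : Y ≤ q ^ δ := hY.trans (Real.rpow_le_rpow_of_exponent_le hq (by linarith))
  -- the bracket
  have h1 : (N + 1) * √(Y * N / q) ≤ 2 * q ^ (1 / 4 + 2 * δ) := by
    have h2 : N + 1 ≤ 2 * q ^ (1 / 2 + δ) := by
      have : 1 ≤ q ^ (1 / 2 + δ) := Real.one_le_rpow hq (by linarith)
      linarith
    have h3 : √(Y * N / q) ≤ q ^ (-(1 / 4) + δ) := by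
      apply Real.sqrt_le_iff.2
      refine ⟨by positivity, ?_⟩
      rw [div_le_iff₀ hq0]
      calc Y * N ≤ q ^ δ * q ^ (1 / 2 + δ) := mul_le_mul hY1 hN hN0 (by positivity)
        _ = (q ^ (-(1 / 4) + δ)) ^ 2 * q := by
          rw [← Real.rpow_natCast, ← Real.rpow_mul hq0.le, ← Real.rpow_add hq0]
          nth_rewrite 3 [← Real.rpow_one q]
          rw [← Real.rpow_add hq0]
          congr 1
          push_cast
          ring
    calc (N + 1) * √(Y * N / q) ≤ (2 * q ^ (1 / 2 + δ)) * q ^ (-(1 / 4) + δ) :=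
          mul_le_mul h2 h3 (Real.sqrt_nonneg _) (by positivity)
      _ = 2 * q ^ (1 / 4 + 2 * δ) := by
          rw [mul_assoc, ← Real.rpow_add hq0]
          congr 2
          ring
  have h2 : (1 : ℝ) ≤ q ^ (1 / 4 + 2 * δ) := Real.one_le_rpow hq (by linarith)
  have h3 : √(q / d) ≤ q ^ (1 / 3 - 10 * δ) := by
    apply Real.sqrt_le_iff.2
    refine ⟨by positivity, ?_⟩
    rw [div_le_iff₀ hd0]
    calc q = (q ^ (1 / 3 - 10 * δ)) ^ 2 * q ^ (1 / 3 + 20 * δ) := by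
          rw [← Real.rpow_natCast, ← Real.rpow_mul hq0.le, ← Real.rpow_add hq0]
          nth_rewrite 1 [← Real.rpow_one q]
          congr 1
          push_cast
          ring
      _ ≤ (q ^ (1 / 3 - 10 * δ)) ^ 2 * d := mul_le_mul_of_nonneg_left hd (by positivity)
  have h4 : (N + 1) * √(Y * N / q) + 1 + √(q / d) * (1 + Real.log q) ≤
      3 * q ^ (1 / 4 + 2 * δ) + q ^ (1 / 3 - 10 * δ) * (1 + Real.log q) := by
    have h5 : √(q / d) * (1 + Real.log q) ≤ q ^ (1 / 3 - 10 * δ) * (1 + Real.log q) :=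
      mul_le_mul_of_nonneg_right h3 (by linarith)
    linarith
  have h5 : 64 * p * Y ^ 4 * ρ * F / d ≤ 64 * q ^ (-(1 / 3) - 7 * δ) := by
    have h6 : 1 / d ≤ q ^ (-(1 / 3 + 20 * δ)) := by
      rw [Real.rpow_neg hq0.le, ← one_div]
      exact one_div_le_one_div_of_le (by positivity) hd
    have h7 : p * Y ^ 4 * ρ * F ≤ q ^ δ * q ^ δ * q ^ (10 * δ) * q ^ δ := by
      rw [hρ]
      gcongr
    calc 64 * p * Y ^ 4 * ρ * F / d = 64 * ((p * Y ^ 4 * ρ * F) * (1 / d)) := by ring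
      _ ≤ 64 * ((q ^ δ * q ^ δ * q ^ (10 * δ) * q ^ δ) * q ^ (-(1 / 3 + 20 * δ))) := by
          have h8 : 0 ≤ 1 / d := by positivity
          have h9 := mul_le_mul h7 h6 h8 (by positivity)
          linarith
      _ = 64 * q ^ (-(1 / 3) - 7 * δ) := by
          rw [← Real.rpow_add hq0, ← Real.rpow_add hq0, ← Real.rpow_add hq0,
            ← Real.rpow_add hq0]
          congr 2
          ring
  have h6 : 0 ≤ (N + 1) * √(Y * N / q) + 1 + √(q / d) * (1 + Real.log q) := by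
    have h7 : 0 ≤ √(q / d) * (1 + Real.log q) := mul_nonneg (Real.sqrt_nonneg _) (by linarith)
    positivity
  calc 64 * p * Y ^ 4 * ρ * F / d * ((N + 1) * √(Y * N / q) + 1 + √(q / d) * (1 + Real.log q))
      ≤ (64 * q ^ (-(1 / 3) - 7 * δ)) *
          (3 * q ^ (1 / 4 + 2 * δ) + q ^ (1 / 3 - 10 * δ) * (1 + Real.log q)) :=
        mul_le_mul h5 h4 h6 (by positivity)
    _ = 192 * (q ^ (-(1 / 3) - 7 * δ) * q ^ (1 / 4 + 2 * δ)) +
          64 * ((1 + Real.log q) * (q ^ (-(1 / 3) - 7 * δ) * q ^ (1 / 3 - 10 * δ))) := by ring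
    _ = _ := by
        rw [← Real.rpow_add hq0, ← Real.rpow_add hq0]
        congr 3
        · ring
        · congr 1
          ring

/-- the bound is small for large `q` -/
theorem num_small {δ : ℝ} (hδ : 0 < δ) : ∃ q₀ : ℝ, ∀ q : ℝ, q₀ ≤ q →
    192 * q ^ (-(1 / 12) - 5 * δ) + 64 * ((1 + Real.log q) * q ^ (-(17 * δ))) ≤ 1 / 2 := by
  have h1 : Tendsto (fun q : ℝ => q ^ (-(1 / 12 + 5 * δ))) atTop (nhds 0) :=
    tendsto_rpow_neg_atTop (by linarith)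
  have h2 : Tendsto (fun q : ℝ => q ^ (-(17 * δ))) atTop (nhds 0) :=
    tendsto_rpow_neg_atTop (by linarith)
  have h3 : Tendsto (fun q : ℝ => Real.log q * q ^ (-(17 * δ))) atTop (nhds 0) := by
    have h4 := (isLittleO_log_rpow_atTop (by linarith : 0 < 17 * δ)).tendsto_div_nhds_zero
    refine h4.congr' ?_
    filter_upwards [eventually_gt_atTop 0] with q hq
    rw [Real.rpow_neg hq.le, div_eq_mul_inv]
  have h4 : Tendsto (fun q : ℝ => 192 * q ^ (-(1 / 12 + 5 * δ)) +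
      64 * (q ^ (-(17 * δ)) + Real.log q * q ^ (-(17 * δ)))) atTop (nhds 0) := by
    have := (h1.const_mul 192).add ((h2.add h3).const_mul 64)
    simpa using this
  obtain ⟨q₀, hq₀⟩ := Filter.eventually_atTop.1 (h4.eventually_le_const (by norm_num : (0:ℝ) < 1 / 2))
  refine ⟨q₀, fun q hq => ?_⟩
  have h5 := hq₀ q hq
  have e1 : -(1 / 12) - 5 * δ = -(1 / 12 + 5 * δ) := by ring
  rw [e1]
  linarith

/-- the parameter `Q` -/
theorem num_Q {ε : ℝ} (hε : 0 < ε) (Q₀ : ℕ) : ∃ k₀ : ℕ, ∀ (p k : ℕ) [Fact p.Prime], k₀ ≤ k →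
    Q₀ ≤ QQ ε (p ^ k) ∧ (QQ ε (p ^ k) : ℝ) ≤ ((p : ℝ) ^ k) ^ (ε / 20) ∧
      (p : ℝ) ^ k ≤ (QQ ε (p ^ k) : ℝ) ^ (40 / ε) ∧ (p : ℝ) ≤ ((p : ℝ) ^ k) ^ (ε / 20) := by
  have h1 : Tendsto (fun k : ℕ => ((2 : ℝ) ^ k) ^ (ε / 40)) atTop atTop :=
    (tendsto_rpow_atTop (by linarith)).comp (tendsto_pow_atTop_atTop_of_one_lt (by norm_num))
  obtain ⟨k₁, hk₁⟩ := Filter.eventually_atTop.1 (h1.eventually_ge_atTop ((Q₀ : ℝ) + 4))
  refine ⟨max k₁ ⌈20 / ε⌉₊, fun p k _ hk => ?_⟩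
  have hp : p.Prime := Fact.out
  have hp2 : (2 : ℝ) ≤ p := by exact_mod_cast hp.two_le
  have hk1 := hk₁ k (le_trans (le_max_left _ _) hk)
  have hk2 : 20 / ε ≤ k := (Nat.le_ceil _).trans (by exact_mod_cast le_trans (le_max_right _ _) hk)
  obtain ⟨q, hq⟩ : ∃ q : ℝ, q = (p : ℝ) ^ k := ⟨_, rfl⟩
  have hq1 : 1 ≤ q := by rw [hq]; exact one_le_pow₀ (by linarith)
  have hq0 : 0 < q := by linarith
  have hcast : ((p ^ k : ℕ) : ℝ) = q := by rw [hq]; push_cast; rfl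
  -- x = q^(ε/40)
  obtain ⟨x, hx⟩ : ∃ x : ℝ, x = q ^ (ε / 40) := ⟨_, rfl⟩
  have hx4 : (Q₀ : ℝ) + 4 ≤ x := by
    refine hk1.trans ?_
    rw [hx, hq]
    exact Real.rpow_le_rpow (by positivity) (pow_le_pow_left₀ (by norm_num) hp2 k) (by linarith)
  have hQ0' : (0 : ℝ) ≤ Q₀ := Nat.cast_nonneg _
  have hxx : q ^ (ε / 20) = x * x := by
    rw [hx, ← Real.rpow_add hq0]
    congr 1
    ring
  have hQ : QQ ε (p ^ k) = ⌊x * x⌋₊ := by
    unfold QQ
    rw [hcast, hxx]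
  have hfl : (⌊x * x⌋₊ : ℝ) ≤ x * x := Nat.floor_le (by nlinarith)
  have hlt : x * x < (⌊x * x⌋₊ : ℝ) + 1 := Nat.lt_floor_add_one _
  have hQx : x ≤ (⌊x * x⌋₊ : ℝ) := by nlinarith
  rw [hQ, ← hq, hxx]
  refine ⟨?_, hfl, ?_, ?_⟩
  · have : (Q₀ : ℝ) ≤ (⌊x * x⌋₊ : ℝ) := by linarith
    exact_mod_cast this
  · calc q = x ^ (40 / ε) := by
          rw [hx, ← Real.rpow_mul hq0.le]
          nth_rewrite 1 [← Real.rpow_one q]
          congr 1
          field_simp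
      _ ≤ (⌊x * x⌋₊ : ℝ) ^ (40 / ε) :=
          Real.rpow_le_rpow (by linarith) hQx (by positivity)
  · rw [← hxx, hq, ← Real.rpow_natCast, ← Real.rpow_mul (by linarith)]
    nth_rewrite 1 [← Real.rpow_one (p : ℝ)]
    apply Real.rpow_le_rpow_of_exponent_le (by linarith)
    rw [div_le_iff₀ hε] at hk2
    linarith

/-- the length of the mollifier -/
theorem num_Y {ε q : ℝ} {Q : ℕ} (hq : 1 ≤ q) (hQ : 1 ≤ Q)
    (hQq : (Q : ℝ) ≤ q ^ (ε / 20)) (hε : 0 < ε) : (YY Q : ℝ) ≤ q ^ (ε / 1000) ∧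
      (Q : ℝ) ^ (1 / 50 : ℝ) ≤ q ^ (ε / 1000) := by
  have hQ0 : (0 : ℝ) < Q := by exact_mod_cast hQ
  have hq0 : 0 < q := by linarith
  have h1 : (Q : ℝ) ^ (1 / 50 : ℝ) ≤ q ^ (ε / 1000) := by
    calc (Q : ℝ) ^ (1 / 50 : ℝ) ≤ (q ^ (ε / 20)) ^ (1 / 50 : ℝ) :=
          Real.rpow_le_rpow hQ0.le hQq (by norm_num)
      _ = q ^ (ε / 1000) := by
          rw [← Real.rpow_mul hq0.le]
          congr 1
          ring
  refine ⟨?_, h1⟩
  refine le_trans ?_ h1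
  unfold YY yy
  refine (Nat.floor_le (by positivity)).trans (le_of_eq ?_)
  rw [← Real.rpow_natCast, ← Real.rpow_mul hQ0.le]
  norm_num

/-- the length of the smoothed sums -/
theorem num_N {ε q : ℝ} {Q : ℕ} (hq : 1 ≤ q) (hQ : 1 ≤ Q)
    (hQq : (Q : ℝ) ≤ q ^ (ε / 20)) (hε : 0 < ε) {R : ℝ} (hR0 : 0 < R)
    (hR : R ≤ q ^ (ε / 40) * √(q / Q)) : (NN Q R : ℝ) ≤ q ^ (1 / 2 + ε / 20) ∧
      R ≤ q ^ (1 / 2 + ε / 20) := by
  have hQ0 : (0 : ℝ) < Q := by exact_mod_cast hQ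
  have hQ1 : (1 : ℝ) ≤ Q := by exact_mod_cast hQ
  have hq0 : 0 < q := by linarith
  have e1 : √(q / Q) = q ^ (1 / 2 : ℝ) * (Q : ℝ) ^ (-(1 / 2) : ℝ) := by
    rw [Real.sqrt_eq_rpow, Real.div_rpow hq0.le hQ0.le, Real.rpow_neg hQ0.le, div_eq_mul_inv]
  constructor
  · unfold NN
    refine (Nat.floor_le (by positivity)).trans ?_
    calc R * (Q : ℝ) ^ (51 / 100 : ℝ)
        ≤ (q ^ (ε / 40) * (q ^ (1 / 2 : ℝ) * (Q : ℝ) ^ (-(1 / 2) : ℝ))) *
            (Q : ℝ) ^ (51 / 100 : ℝ) := by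
          rw [← e1]
          exact mul_le_mul_of_nonneg_right hR (by positivity)
      _ = q ^ (ε / 40) * q ^ (1 / 2 : ℝ) * (Q : ℝ) ^ (1 / 100 : ℝ) := by
          rw [mul_assoc, mul_assoc (q ^ (1 / 2 : ℝ)), ← Real.rpow_add hQ0, ← mul_assoc]
          norm_num
      _ ≤ q ^ (ε / 40) * q ^ (1 / 2 : ℝ) * q ^ (ε / 40) := by
          refine mul_le_mul_of_nonneg_left ?_ (by positivity)
          calc (Q : ℝ) ^ (1 / 100 : ℝ) ≤ (q ^ (ε / 20)) ^ (1 / 100 : ℝ) :=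
                Real.rpow_le_rpow hQ0.le hQq (by norm_num)
            _ = q ^ (ε / 2000) := by
                rw [← Real.rpow_mul hq0.le]
                congr 1
                ring
            _ ≤ q ^ (ε / 40) := Real.rpow_le_rpow_of_exponent_le hq (by linarith)
      _ = q ^ (1 / 2 + ε / 20) := by
          rw [← Real.rpow_add hq0, ← Real.rpow_add hq0]
          congr 1
          ring
  · calc R ≤ q ^ (ε / 40) * √(q / Q) := hR
      _ ≤ q ^ (ε / 40) * q ^ (1 / 2 : ℝ) := by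
          refine mul_le_mul_of_nonneg_left ?_ (by positivity)
          rw [← Real.sqrt_eq_rpow]
          apply Real.sqrt_le_sqrt
          rw [div_le_iff₀ hQ0]
          nlinarith
      _ = q ^ (1 / 2 + ε / 40) := by
          rw [← Real.rpow_add hq0]
          congr 1
          ring
      _ ≤ _ := Real.rpow_le_rpow_of_exponent_le hq (by linarith)

end Pool.Agent.NP
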