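import Pool.Agent.Lib.MP_afd523_nt_P.PDefs

/-!
Project NP (MP_afd523_nt): partial summation in the off-diagonal terms.
-/

namespace Pool.Agent.NP

open Finset Complex MeasureTheory Pool.Agent.NV

private theorem PTT_split (m S : ℕ) (G : ℕ → ℂ) :
    ∑ n ∈ range (m * S), G n = ∑ s ∈ range S, ∑ c ∈ range m, G (c + m * s) := by
  induction S with
  | zero => simp
  | succ S ih =>
    rw [Nat.mul_succ, Finset.sum_range_add, ih, Finset.sum_range_succ]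
    congr 1
    refine Finset.sum_congr rfl fun c _ => ?_
    rw [add_comm]

private theorem PTT_parts (w : ℕ → ℝ) (e : ℕ → ℂ) (n : ℕ) :
    ∑ t ∈ range (n + 1), (w t : ℂ) * e t = (w n : ℂ) * ∑ t ∈ range (n + 1), e t +
      ∑ t ∈ range n, ((w t - w (t + 1) : ℝ) : ℂ) * ∑ u ∈ range (t + 1), e u := by
  induction n with
  | zero => simp
  | succ n ih =>
    rw [Finset.sum_range_succ (fun t => (w t : ℂ) * e t) (n + 1), ih,
      Finset.sum_range_succ e (n + 1), Finset.sum_range_succ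
        (fun t => ((w t - w (t + 1) : ℝ) : ℂ) * ∑ u ∈ range (t + 1), e u) n]
    push_cast
    ring

theorem PTT_abel {w : ℕ → ℝ} {e : ℕ → ℂ} {F : ℝ} {n : ℕ}
    (hw0 : ∀ t, 0 ≤ w t) (hw : ∀ t, w (t + 1) ≤ w t)
    (h : ∀ m, m ≤ n → ‖∑ t ∈ range m, e t‖ ≤ F) :
    ‖∑ t ∈ range n, (w t : ℂ) * e t‖ ≤ w 0 * F := by
  have hF : 0 ≤ F := (norm_nonneg _).trans (h 0 (Nat.zero_le n))
  rcases Nat.eq_zero_or_pos n with rfl | hn
  · simp only [Finset.range_zero, Finset.sum_empty, norm_zero]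
    exact mul_nonneg (hw0 0) hF
  obtain ⟨m, rfl⟩ : ∃ m, n = m + 1 := ⟨n - 1, by omega⟩
  rw [PTT_parts]
  refine (norm_add_le _ _).trans ?_
  have h1 : ‖(w m : ℂ) * ∑ t ∈ range (m + 1), e t‖ ≤ w m * F := by
    rw [norm_mul, Complex.norm_real, Real.norm_of_nonneg (hw0 m)]
    exact mul_le_mul_of_nonneg_left (h _ le_rfl) (hw0 m)
  have h2 : ‖∑ t ∈ range m, ((w t - w (t + 1) : ℝ) : ℂ) * ∑ u ∈ range (t + 1), e u‖ ≤
      (w 0 - w m) * F := by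
    refine (norm_sum_le _ _).trans ?_
    have h3 : ∀ t ∈ range m, ‖((w t - w (t + 1) : ℝ) : ℂ) * ∑ u ∈ range (t + 1), e u‖ ≤
        (w t - w (t + 1)) * F := by
      intro t ht
      rw [Finset.mem_range] at ht
      rw [norm_mul, Complex.norm_real, Real.norm_of_nonneg (sub_nonneg.2 (hw t))]
      exact mul_le_mul_of_nonneg_left (h _ (by omega)) (sub_nonneg.2 (hw t))
    refine (Finset.sum_le_sum h3).trans (le_of_eq ?_)
    rw [← Finset.sum_mul, Finset.sum_range_sub']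
  linarith

private theorem PTT_abel2 {w : ℕ → ℝ} {e : ℕ → ℂ} {E B : ℝ} {s₁ T : ℕ} (hE : 0 ≤ E)
    (hw0 : ∀ t, s₁ ≤ t → 0 ≤ w t) (hw : ∀ t, s₁ ≤ t → w (t + 1) ≤ w t) (hB : w s₁ ≤ B)
    (h : ∀ m, m ≤ T → ‖∑ t ∈ range m, e t‖ ≤ E) :
    ‖∑ t ∈ Ico s₁ T, (w t : ℂ) * e t‖ ≤ 2 * B * E := by
  have hB0 : 0 ≤ B := (hw0 s₁ le_rfl).trans hB
  rcases le_or_gt T s₁ with h0 | h0
  · rw [Finset.Ico_eq_empty_of_le h0]
    simp only [Finset.sum_empty, norm_zero]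
    positivity
  rw [Finset.sum_Ico_eq_sum_range]
  have h1 := PTT_abel (w := fun t => w (s₁ + t)) (e := fun t => e (s₁ + t)) (F := 2 * E)
    (n := T - s₁) (fun t => hw0 _ (by omega))
    (fun t => by
      have := hw (s₁ + t) (by omega)
      rwa [add_assoc] at this) ?_
  · refine h1.trans ?_
    simp only [add_zero]
    nlinarith
  · intro m hm
    have h2 : ∑ t ∈ range m, e (s₁ + t) = ∑ t ∈ range (s₁ + m), e t - ∑ t ∈ range s₁, e t := by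
      rw [Finset.sum_range_add]
      ring
    rw [h2]
    refine (norm_sub_le _ _).trans ?_
    have h3 := h (s₁ + m) (by omega)
    have h4 := h s₁ (by omega)
    linarith

/-- the sum over one class -/
private theorem PTT_class {g u₁ u₂ : ℕ → ℝ} {A N a b m₁ m₂ : ℕ} {B E : ℝ} {e : ℕ → ℂ}
    (hm₁ : 1 ≤ m₁) (hm₂ : 1 ≤ m₂) (hE0 : 0 ≤ E) (hg : ∀ n, g n = u₁ n - u₂ n)
    (hgA : ∀ n, n < A → g n = 0)
    (hu₁ : ∀ n, A ≤ n → u₁ (n + 1) ≤ u₁ n ∧ 0 ≤ u₁ n ∧ u₁ n ≤ B)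
    (hu₂ : ∀ n, A ≤ n → u₂ (n + 1) ≤ u₂ n ∧ 0 ≤ u₂ n ∧ u₂ n ≤ B)
    (hE : ∀ S : ℕ, S ≤ N + 1 → ‖∑ s ∈ range S, e s‖ ≤ E) :
    ‖∑ s ∈ range (N + 1), (g (b + m₂ * s) : ℂ) * (g (a + m₁ * s) : ℂ) * e s‖ ≤
      8 * B ^ 2 * E := by
  have hex : ∃ s, A ≤ b + m₂ * s ∧ A ≤ a + m₁ * s := by
    refine ⟨A, ?_, ?_⟩
    · have := Nat.mul_le_mul_right A hm₂
      omega
    · have := Nat.mul_le_mul_right A hm₁
      omega
  classical
  obtain ⟨s₁, hs₁⟩ : ∃ s₁, s₁ = Nat.find hex := ⟨_, rfl⟩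
  have hspec := Nat.find_spec hex
  rw [← hs₁] at hspec
  have hlow : ∀ s, s < s₁ → (g (b + m₂ * s) : ℂ) * (g (a + m₁ * s) : ℂ) * e s = 0 := by
    intro s hs
    rw [hs₁] at hs
    have h1 := Nat.find_min hex hs
    rcases not_and_or.1 h1 with h2 | h2
    · rw [hgA _ (not_le.1 h2)]
      simp
    · rw [hgA _ (not_le.1 h2)]
      simp
  have hup : ∀ s, s₁ ≤ s → A ≤ b + m₂ * s ∧ A ≤ a + m₁ * s := by
    intro s hs
    have h1 := Nat.mul_le_mul_left m₂ hs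
    have h2 := Nat.mul_le_mul_left m₁ hs
    exact ⟨by omega, by omega⟩
  have hmono : ∀ u : ℕ → ℝ, (∀ n, A ≤ n → u (n + 1) ≤ u n ∧ 0 ≤ u n ∧ u n ≤ B) →
      ∀ n m, A ≤ n → u (n + m) ≤ u n := by
    intro u hu n m hn
    induction m with
    | zero => exact le_rfl
    | succ m ih => exact ((hu (n + m) (by omega)).1).trans ih
  have hprod : ∀ u v : ℕ → ℝ, (∀ n, A ≤ n → u (n + 1) ≤ u n ∧ 0 ≤ u n ∧ u n ≤ B) →
      (∀ n, A ≤ n → v (n + 1) ≤ v n ∧ 0 ≤ v n ∧ v n ≤ B) →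
      ‖∑ s ∈ Ico s₁ (N + 1), ((u (b + m₂ * s) * v (a + m₁ * s) : ℝ) : ℂ) * e s‖ ≤
        2 * B ^ 2 * E := by
    intro u v hu hv
    refine PTT_abel2 hE0 (fun t ht => ?_) (fun t ht => ?_) ?_ hE
    · exact mul_nonneg (hu _ (hup t ht).1).2.1 (hv _ (hup t ht).2).2.1
    · have h1 : u (b + m₂ * (t + 1)) ≤ u (b + m₂ * t) := by
        have := hmono u hu (b + m₂ * t) m₂ (hup t ht).1
        rwa [add_assoc, ← Nat.mul_succ] at this
      have h2 : v (a + m₁ * (t + 1)) ≤ v (a + m₁ * t) := by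
        have := hmono v hv (a + m₁ * t) m₁ (hup t ht).2
        rwa [add_assoc, ← Nat.mul_succ] at this
      exact mul_le_mul h1 h2 (hv _ (hup (t + 1) (by omega)).2).2.1 (hu _ (hup t ht).1).2.1
    · rw [sq]
      have h1 := hu _ (hup s₁ le_rfl).1
      have h2 := hv _ (hup s₁ le_rfl).2
      exact mul_le_mul h1.2.2 h2.2.2 h2.2.1 (h1.2.1.trans h1.2.2)
  have hsum : ∑ s ∈ range (N + 1), (g (b + m₂ * s) : ℂ) * (g (a + m₁ * s) : ℂ) * e s =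
      ∑ s ∈ Ico s₁ (N + 1), (g (b + m₂ * s) : ℂ) * (g (a + m₁ * s) : ℂ) * e s := by
    symm
    refine Finset.sum_subset (fun s hs => ?_) (fun s hs hns => ?_)
    · rw [Finset.mem_Ico] at hs
      exact Finset.mem_range.2 hs.2
    · rw [Finset.mem_range] at hs
      rw [Finset.mem_Ico] at hns
      exact hlow s (by omega)
  have hexp : ∑ s ∈ Ico s₁ (N + 1), (g (b + m₂ * s) : ℂ) * (g (a + m₁ * s) : ℂ) * e s =
      ∑ s ∈ Ico s₁ (N + 1), ((u₁ (b + m₂ * s) * u₁ (a + m₁ * s) : ℝ) : ℂ) * e s -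
      ∑ s ∈ Ico s₁ (N + 1), ((u₁ (b + m₂ * s) * u₂ (a + m₁ * s) : ℝ) : ℂ) * e s -
      ∑ s ∈ Ico s₁ (N + 1), ((u₂ (b + m₂ * s) * u₁ (a + m₁ * s) : ℝ) : ℂ) * e s +
      ∑ s ∈ Ico s₁ (N + 1), ((u₂ (b + m₂ * s) * u₂ (a + m₁ * s) : ℝ) : ℂ) * e s := by
    rw [← Finset.sum_sub_distrib, ← Finset.sum_sub_distrib, ← Finset.sum_add_distrib]
    refine Finset.sum_congr rfl fun s _ => ?_
    rw [hg, hg]
    push_cast
    ring
  rw [hsum, hexp]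
  have h11 := hprod u₁ u₁ hu₁ hu₁
  have h12 := hprod u₁ u₂ hu₁ hu₂
  have h21 := hprod u₂ u₁ hu₂ hu₁
  have h22 := hprod u₂ u₂ hu₂ hu₂
  refine (norm_add_le _ _).trans ?_
  have h3 := norm_sub_le (∑ s ∈ Ico s₁ (N + 1), ((u₁ (b + m₂ * s) * u₁ (a + m₁ * s) : ℝ) : ℂ) *
    e s - ∑ s ∈ Ico s₁ (N + 1), ((u₁ (b + m₂ * s) * u₂ (a + m₁ * s) : ℝ) : ℂ) * e s)
    (∑ s ∈ Ico s₁ (N + 1), ((u₂ (b + m₂ * s) * u₁ (a + m₁ * s) : ℝ) : ℂ) * e s)
  have h4 := norm_sub_le (∑ s ∈ Ico s₁ (N + 1), ((u₁ (b + m₂ * s) * u₁ (a + m₁ * s) : ℝ) : ℂ) *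
    e s) (∑ s ∈ Ico s₁ (N + 1), ((u₁ (b + m₂ * s) * u₂ (a + m₁ * s) : ℝ) : ℂ) * e s)
  linarith

/-- partial summation in the off-diagonal terms -/
theorem tt_le {p k : ℕ} [Fact p.Prime] (hk : 1 ≤ k) (ψ : DirichletCharacter ℂ (p ^ k))
    (g u₁ u₂ : ℕ → ℝ) (A N m₁ m₂ D : ℕ) (B E : ℝ) (hA : 1 ≤ A) (hm₁ : 1 ≤ m₁) (hm₂ : 1 ≤ m₂)
    (hE0 : 0 ≤ E) (hg : ∀ n, g n = u₁ n - u₂ n) (hgA : ∀ n, n < A → g n = 0)
    (hgN : ∀ n, N < n → g n = 0)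
    (hu₁ : ∀ n, A ≤ n → u₁ (n + 1) ≤ u₁ n ∧ 0 ≤ u₁ n ∧ u₁ n ≤ B)
    (hu₂ : ∀ n, A ≤ n → u₂ (n + 1) ≤ u₂ n ∧ 0 ≤ u₂ n ∧ u₂ n ≤ B)
    (hE : m₁.Coprime p → m₂.Coprime p → ∀ x₀ S : ℕ, S ≤ N + 1 →
      ‖∑ s ∈ range S, ψ ((x₀ + m₁ * m₂ * s + D : ℕ) : ZMod (p ^ k)) *
        (starRingEnd ℂ) (ψ ((x₀ + m₁ * m₂ * s : ℕ) : ZMod (p ^ k)))‖ ≤ E) :
    ‖TT ψ g N m₁ m₂ D‖ ≤ 8 * m₁ * B ^ 2 * E := by
  have hp : p.Prime := Fact.out
  have hzero : ∀ x : ℕ, p ∣ x → ψ ((x : ℕ) : ZMod (p ^ k)) = 0 := by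
    intro x hx
    apply MulChar.map_nonunit
    rw [ZMod.isUnit_iff_coprime]
    intro h1
    have h2 : x.Coprime p := Nat.Coprime.coprime_dvd_right (dvd_pow_self p (by omega)) h1
    rw [Nat.coprime_comm] at h2
    exact (Nat.Prime.coprime_iff_not_dvd hp).1 h2 hx
  have hndvd : ∀ m : ℕ, ¬ m.Coprime p → p ∣ m := by
    intro m hm
    by_contra h
    apply hm
    rw [Nat.coprime_comm]
    exact (Nat.Prime.coprime_iff_not_dvd hp).2 h
  have hRHS : 0 ≤ 8 * (m₁ : ℝ) * B ^ 2 * E := by positivity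
  by_cases h1 : m₁.Coprime p
  swap
  · have h3 : TT ψ g N m₁ m₂ D = 0 := by
      unfold TT
      refine Finset.sum_eq_zero fun n₁ _ => Finset.sum_eq_zero fun n₂ _ => ?_
      split_ifs with h4
      · rw [← h4, hzero _ ((hndvd _ h1).mul_right n₁)]
        simp
      · rfl
    rw [h3, norm_zero]
    exact hRHS
  by_cases h2 : m₂.Coprime p
  swap
  · have h3 : TT ψ g N m₁ m₂ D = 0 := by
      unfold TT
      refine Finset.sum_eq_zero fun n₁ _ => Finset.sum_eq_zero fun n₂ _ => ?_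
      split_ifs with h4
      · rw [hzero _ ((hndvd _ h2).mul_right n₂)]
        simp
      · rfl
    rw [h3, norm_zero]
    exact hRHS
  -- the main case
  obtain ⟨X, hX⟩ : ∃ X : ℕ → ℕ → ℂ, X = fun n₁ n₂ => (g n₁ : ℂ) * (g n₂ : ℂ) *
    (ψ ((m₂ * n₂ + D : ℕ) : ZMod (p ^ k)) *
      (starRingEnd ℂ) (ψ ((m₂ * n₂ : ℕ) : ZMod (p ^ k)))) := ⟨_, rfl⟩
  obtain ⟨G, hG⟩ : ∃ G : ℕ → ℂ, G = fun n₂ => if m₁ ∣ m₂ * n₂ + D then
    X ((m₂ * n₂ + D) / m₁) n₂ else 0 := ⟨_, rfl⟩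
  have hinner : ∀ n₂ ∈ Icc 1 N, ∑ n₁ ∈ Icc 1 N, (if m₁ * n₁ = m₂ * n₂ + D then X n₁ n₂ else 0) =
      G n₂ := by
    intro n₂ hn₂
    rw [Finset.mem_Icc] at hn₂
    simp only [hG]
    split_ifs with h3
    · obtain ⟨v, hv⟩ := h3
      have hpos : 0 < m₂ * n₂ := Nat.mul_pos (by omega) (by omega)
      have hv0 : 1 ≤ v := by
        rcases Nat.eq_zero_or_pos v with h4 | h4
        · rw [h4, mul_zero] at hv
          omega
        · exact h4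
      rw [hv, Nat.mul_div_cancel_left v (by omega)]
      have h5 : ∀ n₁, (m₁ * n₁ = m₁ * v) ↔ n₁ = v := fun n₁ =>
        ⟨fun h => Nat.eq_of_mul_eq_mul_left (by omega) h, fun h => by rw [h]⟩
      simp only [h5]
      rw [Finset.sum_ite_eq']
      split_ifs with h6
      · rfl
      · rw [Finset.mem_Icc] at h6
        rw [hX]
        simp only
        rw [hgN v (by omega)]
        simp
    · refine Finset.sum_eq_zero fun n₁ _ => ?_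
      rw [if_neg]
      intro h4
      exact h3 ⟨n₁, h4.symm⟩
  have hTT : TT ψ g N m₁ m₂ D = ∑ n₂ ∈ Icc 1 N, G n₂ := by
    unfold TT
    rw [Finset.sum_comm]
    refine Finset.sum_congr rfl fun n₂ hn₂ => ?_
    rw [← hinner n₂ hn₂, hX]
  have hGN : ∀ n, N < n → G n = 0 := by
    intro n hn
    simp only [hG, hX]
    rw [hgN n hn]
    simp
  have hsum : ∑ n₂ ∈ Icc 1 N, G n₂ =
      ∑ c ∈ range m₁, ∑ s ∈ range (N + 1), G (c + 1 + m₁ * s) := by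
    have h3 : ∑ n₂ ∈ Icc 1 N, G n₂ = ∑ n ∈ range N, G (n + 1) := by
      rw [Finset.range_eq_Ico, Finset.sum_Ico_add' (fun n => G n) 0 N 1]
      rfl
    have h4 : ∑ n ∈ range N, G (n + 1) = ∑ n ∈ range (m₁ * (N + 1)), G (n + 1) := by
      refine Finset.sum_subset (fun n hn => ?_) (fun n _ hn => ?_)
      · rw [Finset.mem_range] at hn ⊢
        have := Nat.mul_le_mul_right (N + 1) hm₁
        omega
      · rw [Finset.mem_range] at hn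
        exact hGN _ (by omega)
    rw [h3, h4, PTT_split, Finset.sum_comm]
    refine Finset.sum_congr rfl fun c _ => Finset.sum_congr rfl fun s _ => ?_
    congr 1
    ring
  rw [hTT, hsum]
  refine (norm_sum_le _ _).trans ?_
  have hclass : ∀ c ∈ range m₁, ‖∑ s ∈ range (N + 1), G (c + 1 + m₁ * s)‖ ≤ 8 * B ^ 2 * E := by
    intro c _
    by_cases h3 : m₁ ∣ m₂ * (c + 1) + D
    · obtain ⟨b, hb⟩ := h3
      have h4 : ∀ s ∈ range (N + 1), G (c + 1 + m₁ * s) =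
          (g (b + m₂ * s) : ℂ) * (g (c + 1 + m₁ * s) : ℂ) *
          (ψ ((m₂ * (c + 1) + m₁ * m₂ * s + D : ℕ) : ZMod (p ^ k)) *
            (starRingEnd ℂ) (ψ ((m₂ * (c + 1) + m₁ * m₂ * s : ℕ) : ZMod (p ^ k)))) := by
        intro s _
        have h5 : m₂ * (c + 1 + m₁ * s) + D = m₁ * (b + m₂ * s) := by
          calc m₂ * (c + 1 + m₁ * s) + D = m₂ * (c + 1) + D + m₁ * (m₂ * s) := by ring
            _ = m₁ * (b + m₂ * s) := by rw [hb]; ring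
        simp only [hG]
        rw [if_pos ⟨_, h5⟩]
        simp only [hX]
        have h6 : m₂ * (c + 1 + m₁ * s) = m₂ * (c + 1) + m₁ * m₂ * s := by ring
        have h7 : (m₂ * (c + 1 + m₁ * s) + D) / m₁ = b + m₂ * s := by
          rw [h5, Nat.mul_div_cancel_left _ (by omega)]
        rw [h7, h6]
      rw [Finset.sum_congr rfl h4]
      exact PTT_class hm₁ hm₂ hE0 hg hgA hu₁ hu₂ (hE h1 h2 (m₂ * (c + 1)))
    · have h4 : ∀ s ∈ range (N + 1), G (c + 1 + m₁ * s) = 0 := by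
        intro s _
        simp only [hG]
        rw [if_neg]
        intro h5
        apply h3
        have h6 : m₂ * (c + 1 + m₁ * s) + D = m₂ * (c + 1) + D + m₁ * (m₂ * s) := by ring
        rw [h6] at h5
        exact (Nat.dvd_add_left (dvd_mul_right _ _)).1 h5
      rw [Finset.sum_eq_zero h4, norm_zero]
      positivity
  refine (Finset.sum_le_sum hclass).trans (le_of_eq ?_)
  rw [Finset.sum_const, Finset.card_range, nsmul_eq_mul]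
  ring

end Pool.Agent.NP
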