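import Pool.Agent.Lib.MP_afd523_nt_P.PCorr
import Pool.Agent.Lib.MP_afd523_nt_P.PTT
import Pool.Agent.Lib.MP_afd523_nt.Maj
import Pool.Agent.Lib.MP_afd523_nt.SecA

/-!
Project NP (MP_afd523_nt): the bound of the off-diagonal terms.
-/

namespace Pool.Agent.NP

open Finset Complex MeasureTheory Pool.Agent.NV Pool.Agent.NVW

theorem POff_Phi_one {μ : Measure ℝ} {C' : ℝ} {K : ℕ} (hμ : Smooth μ C' K) {Q : ℕ} (hQ : 3 ≤ Q)
    {r : ℝ} (hr : 0 < r) {n : ℕ} (hn1 : 1 ≤ n) (hn : (n : ℝ) < r * (Q : ℝ) ^ (49 / 100 : ℝ)) :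
    Phi μ Q r n = 1 := by
  have hpμ := hμ.prob
  have hQ0 : (0 : ℝ) < Q := by exact_mod_cast (by omega : 0 < Q)
  have h2 : (Real.log n - Real.log r) / Real.log Q < 49 / 100 := by
    rw [← Maj_iff hQ hn1 hr, div_lt_iff₀ (Real.rpow_pos_of_pos hQ0 _)]
    exact hn
  have h3 : μ (Set.Ioi ((Real.log n - Real.log r) / Real.log Q))ᶜ = 0 := by
    refine measure_mono_null (fun v hv => ?_) hμ.supp
    intro hv'
    exact hv (lt_of_lt_of_le h2 hv'.1)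
  unfold Phi
  rw [measureReal_def, (prob_compl_eq_zero_iff measurableSet_Ioi).1 h3]
  rfl

theorem POff_Phi_anti {μ : Measure ℝ} [IsProbabilityMeasure μ] {Q : ℕ} (hQ : 3 ≤ Q) (r : ℝ)
    {n m : ℕ} (hn : 1 ≤ n) (hnm : n ≤ m) : Phi μ Q r m ≤ Phi μ Q r n := by
  unfold Phi
  apply measureReal_mono
  · apply Set.Ioi_subset_Ioi
    have hl := Maj_log_pos hQ
    have hn0 : (0 : ℝ) < n := by exact_mod_cast hn
    have h1 : Real.log n ≤ Real.log m := Real.log_le_log hn0 (by exact_mod_cast hnm)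
    exact div_le_div_of_nonneg_right (by linarith) hl.le
  · exact measure_ne_top μ _

private theorem POff_u {μ : Measure ℝ} [IsProbabilityMeasure μ] {Q : ℕ} (hQ : 3 ≤ Q) (r : ℝ)
    {A : ℕ} (hA : 1 ≤ A) {B : ℝ} (hB : ∀ n, A ≤ n → 1 / √(n : ℝ) ≤ B) (n : ℕ) (hn : A ≤ n) :
    Phi μ Q r (n + 1) / √((n + 1 : ℕ) : ℝ) ≤ Phi μ Q r n / √(n : ℝ) ∧
      0 ≤ Phi μ Q r n / √(n : ℝ) ∧ Phi μ Q r n / √(n : ℝ) ≤ B := by
  have hn0 : (0 : ℝ) < n := by exact_mod_cast (by omega : 0 < n)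
  have hs : 0 < √(n : ℝ) := Real.sqrt_pos.2 hn0
  have h1 : √(n : ℝ) ≤ √((n + 1 : ℕ) : ℝ) := Real.sqrt_le_sqrt (by push_cast; linarith)
  refine ⟨?_, div_nonneg (Maj_Phi_nonneg _ _ _ _) hs.le, ?_⟩
  · exact div_le_div₀ (Maj_Phi_nonneg _ _ _ _) (POff_Phi_anti hQ r (by omega) (by omega)) hs h1
  · refine le_trans ?_ (hB n hn)
    exact div_le_div_of_nonneg_right (Maj_Phi_le_one _ _ _) hs.le

/-- the bound of the off-diagonal terms -/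
theorem off_le {p k j : ℕ} [Fact p.Prime] (hj : k ≤ 3 * j) (hj1 : 1 ≤ j)
    {ψ : DirichletCharacter ℂ (p ^ k)} (hψ : ψ.IsPrimitive) {μ : Measure ℝ} {C : ℝ} {K : ℕ}
    (hμ : Smooth μ C K) {Q : ℕ} (hQ : 3 ≤ Q) {R R' : ℝ} (hR' : 0 < R') (hRR : R' ≤ R)
    (hN : YY Q * NN Q R < p ^ k) :
    ∑ m₁ ∈ Icc 1 (YY Q), ∑ m₂ ∈ Icc 1 (YY Q), |lamq Q m₁ / √(m₁ : ℝ)| * |lamq Q m₂ / √(m₂ : ℝ)| *
      ∑ l ∈ Icc 1 (YY Q * NN Q R / p ^ j), ‖TT ψ (fun n => (Phi μ Q R n - Phi μ Q R' n) /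
        √(n : ℝ)) (NN Q R) m₁ m₂ (p ^ j * l)‖ ≤
      64 * p * (YY Q : ℝ) ^ 4 * (R / R') * (Q : ℝ) ^ (1 / 50 : ℝ) / (p : ℝ) ^ j *
        ((NN Q R + 1) * √(YY Q * NN Q R / (p : ℝ) ^ k) + 1 +
          √((p : ℝ) ^ k / (p : ℝ) ^ j) * (1 + Real.log ((p : ℝ) ^ k))) := by
  have hp : p.Prime := Fact.out
  have hp0 : (0 : ℝ) < p := by exact_mod_cast hp.pos
  have hp1 : (1 : ℝ) ≤ p := by exact_mod_cast hp.one_le
  have hpμ := hμ.prob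
  have hQ0 : (0 : ℝ) < Q := by exact_mod_cast (by omega : 0 < Q)
  have hR : 0 < R := lt_of_lt_of_le hR' hRR
  obtain ⟨N, hNd⟩ : ∃ N, N = NN Q R := ⟨_, rfl⟩
  obtain ⟨Y, hYd⟩ : ∃ Y, Y = YY Q := ⟨_, rfl⟩
  rw [← hNd, ← hYd] at hN ⊢
  have hlog : 0 ≤ Real.log ((p : ℝ) ^ k) := Real.log_nonneg (one_le_pow₀ hp1)
  obtain ⟨E₀, hE₀⟩ : ∃ E : ℝ, E = (N + 1) * √(Y * N / (p : ℝ) ^ k) + 1 +
    √((p : ℝ) ^ k / (p : ℝ) ^ j) * (1 + Real.log ((p : ℝ) ^ k)) := ⟨_, rfl⟩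
  have hE₀0 : 0 ≤ E₀ := by
    rw [hE₀]
    have h1 : 0 ≤ √((p : ℝ) ^ k / (p : ℝ) ^ j) * (1 + Real.log ((p : ℝ) ^ k)) :=
      mul_nonneg (Real.sqrt_nonneg _) (by linarith)
    positivity
  rw [← hE₀]
  have hA0 : 0 < R' * (Q : ℝ) ^ (49 / 100 : ℝ) := mul_pos hR' (Real.rpow_pos_of_pos hQ0 _)
  obtain ⟨A, hA⟩ : ∃ A, A = max 1 ⌈R' * (Q : ℝ) ^ (49 / 100 : ℝ)⌉₊ := ⟨_, rfl⟩
  obtain ⟨B, hB⟩ : ∃ B : ℝ, B = 1 / √(R' * (Q : ℝ) ^ (49 / 100 : ℝ)) := ⟨_, rfl⟩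
  have hA1 : 1 ≤ A := hA ▸ le_max_left _ _
  have hB2 : B ^ 2 = 1 / (R' * (Q : ℝ) ^ (49 / 100 : ℝ)) := by
    rw [hB, div_pow, one_pow, Real.sq_sqrt hA0.le]
  have hBn : ∀ n, A ≤ n → 1 / √(n : ℝ) ≤ B := by
    intro n hn
    rw [hB]
    apply one_div_le_one_div_of_le (Real.sqrt_pos.2 hA0)
    apply Real.sqrt_le_sqrt
    have h1 : ⌈R' * (Q : ℝ) ^ (49 / 100 : ℝ)⌉₊ ≤ n := le_trans (hA ▸ le_max_right _ _) hn
    exact (Nat.le_ceil _).trans (by exact_mod_cast h1)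
  -- the bound of one term
  have hterm : ∀ m₁ ∈ Icc 1 Y, ∀ m₂ ∈ Icc 1 Y, ∀ l ∈ Icc 1 (Y * N / p ^ j),
      ‖TT ψ (fun n => (Phi μ Q R n - Phi μ Q R' n) / √(n : ℝ)) N m₁ m₂ (p ^ j * l)‖ ≤
        8 * Y * B ^ 2 * (8 * p * E₀) := by
    intro m₁ hm₁ m₂ hm₂ l hl
    rw [Finset.mem_Icc] at hm₁ hm₂ hl
    have hpj : 0 < p ^ j := pow_pos hp.pos j
    have hDN : p ^ j * l ≤ Y * N := by
      rw [mul_comm]
      exact (Nat.le_div_iff_mul_le hpj).1 hl.2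
    have hD1 : 1 ≤ p ^ j * l := Nat.mul_pos hpj hl.1
    have hk1 : 1 ≤ k := by
      rcases Nat.eq_zero_or_pos k with h | h
      · rw [h, pow_zero] at hN
        omega
      · exact h
    have h1 := tt_le hk1 ψ (fun n => (Phi μ Q R n - Phi μ Q R' n) / √(n : ℝ))
      (fun n => Phi μ Q R n / √(n : ℝ)) (fun n => Phi μ Q R' n / √(n : ℝ)) A N m₁ m₂ (p ^ j * l) B
      (8 * p * E₀) hA1 hm₁.1 hm₂.1 (by positivity) (fun n => sub_div _ _ _) ?_ ?_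
      (fun n hn => POff_u hQ R hA1 hBn n hn) (fun n hn => POff_u hQ R' hA1 hBn n hn) ?_
    · refine h1.trans ?_
      have h2 : (m₁ : ℝ) ≤ Y := by exact_mod_cast hm₁.2
      have h3 : 0 ≤ B ^ 2 := sq_nonneg _
      gcongr
    · intro n hn
      rcases Nat.eq_zero_or_pos n with rfl | hn0
      · simp
      · have h2 : n < ⌈R' * (Q : ℝ) ^ (49 / 100 : ℝ)⌉₊ := by
          rw [hA] at hn
          rcases lt_max_iff.1 hn with h | h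
          · omega
          · exact h
        have h3 : (n : ℝ) < R' * (Q : ℝ) ^ (49 / 100 : ℝ) := Nat.lt_ceil.1 h2
        have h4 : (n : ℝ) < R * (Q : ℝ) ^ (49 / 100 : ℝ) :=
          h3.trans_le (mul_le_mul_of_nonneg_right hRR (Real.rpow_nonneg hQ0.le _))
        rw [POff_Phi_one hμ hQ hR hn0 h4, POff_Phi_one hμ hQ hR' hn0 h3]
        simp
    · intro n hn
      have h2 : Phi μ Q R n = 0 := Maj_Phi_zero hμ hQ hR (by rw [hNd] at hn; exact hn)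
      have h3 : Phi μ Q R' n = 0 := by
        refine Maj_Phi_zero hμ hQ hR' (lt_of_le_of_lt ?_ hn)
        rw [hNd]
        unfold NN
        exact Nat.floor_mono (mul_le_mul_of_nonneg_right hRR (Real.rpow_nonneg hQ0.le _))
      rw [h2, h3]
      simp
    · intro hc1 hc2 x₀ S hS
      have h2 := corr3 hj hj1 hψ x₀ (m₁ * m₂) (p ^ j * l) S (Nat.Coprime.mul_left hc1 hc2) hD1
        (dvd_mul_right _ _) (lt_of_le_of_lt hDN hN)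
      refine h2.trans ?_
      rw [hE₀]
      have h3 : (S : ℝ) ≤ N + 1 := by exact_mod_cast hS
      have h4 : √(((p ^ j * l : ℕ) : ℝ) / (p : ℝ) ^ k) ≤ √(Y * N / (p : ℝ) ^ k) := by
        apply Real.sqrt_le_sqrt
        have h5 : ((p ^ j * l : ℕ) : ℝ) ≤ Y * N := by exact_mod_cast hDN
        gcongr
      have h5 : (S : ℝ) * √(((p ^ j * l : ℕ) : ℝ) / (p : ℝ) ^ k) ≤
          (N + 1) * √(Y * N / (p : ℝ) ^ k) :=
        mul_le_mul h3 h4 (Real.sqrt_nonneg _) (by positivity)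
      have h6 : 0 ≤ 8 * (p : ℝ) := by positivity
      exact mul_le_mul_of_nonneg_left (by linarith) h6
  -- the sum over l
  have hl : ∀ m₁ ∈ Icc 1 Y, ∀ m₂ ∈ Icc 1 Y, |lamq Q m₁ / √(m₁ : ℝ)| * |lamq Q m₂ / √(m₂ : ℝ)| *
      ∑ l ∈ Icc 1 (Y * N / p ^ j), ‖TT ψ (fun n => (Phi μ Q R n - Phi μ Q R' n) / √(n : ℝ)) N m₁ m₂
        (p ^ j * l)‖ ≤ (Y * N / (p : ℝ) ^ j) * (8 * Y * B ^ 2 * (8 * p * E₀)) := by
    intro m₁ hm₁ m₂ hm₂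
    have h1 : ∀ m ∈ Icc 1 Y, |lamq Q m / √(m : ℝ)| ≤ 1 := by
      intro m hm
      rw [Finset.mem_Icc] at hm
      have hm0 : (1 : ℝ) ≤ m := by exact_mod_cast hm.1
      have hs : 1 ≤ √(m : ℝ) := Real.one_le_sqrt.2 hm0
      rw [abs_div, abs_of_pos (by linarith : 0 < √(m : ℝ)), div_le_one (by linarith)]
      exact (SecA_abs_lamq (by omega) m).trans hs
    have h2 : ∑ l ∈ Icc 1 (Y * N / p ^ j), ‖TT ψ (fun n => (Phi μ Q R n - Phi μ Q R' n) /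
        √(n : ℝ)) N m₁ m₂ (p ^ j * l)‖ ≤
        (Y * N / (p : ℝ) ^ j) * (8 * Y * B ^ 2 * (8 * p * E₀)) := by
      refine (Finset.sum_le_sum fun l hl => hterm m₁ hm₁ m₂ hm₂ l hl).trans ?_
      rw [Finset.sum_const, Nat.card_Icc, Nat.add_sub_cancel, nsmul_eq_mul]
      have h3 : ((Y * N / p ^ j : ℕ) : ℝ) ≤ Y * N / (p : ℝ) ^ j := by
        refine Nat.cast_div_le.trans (le_of_eq ?_)
        push_cast
        rfl
      exact mul_le_mul_of_nonneg_right h3 (by positivity)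
    have h3 : 0 ≤ ∑ l ∈ Icc 1 (Y * N / p ^ j), ‖TT ψ (fun n => (Phi μ Q R n - Phi μ Q R' n) /
        √(n : ℝ)) N m₁ m₂ (p ^ j * l)‖ := Finset.sum_nonneg fun _ _ => norm_nonneg _
    calc |lamq Q m₁ / √(m₁ : ℝ)| * |lamq Q m₂ / √(m₂ : ℝ)| *
          ∑ l ∈ Icc 1 (Y * N / p ^ j), ‖TT ψ (fun n => (Phi μ Q R n - Phi μ Q R' n) / √(n : ℝ)) N
            m₁ m₂ (p ^ j * l)‖
        ≤ 1 * ∑ l ∈ Icc 1 (Y * N / p ^ j), ‖TT ψ (fun n => (Phi μ Q R n - Phi μ Q R' n) /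
            √(n : ℝ)) N m₁ m₂ (p ^ j * l)‖ := by
          refine mul_le_mul_of_nonneg_right ?_ h3
          exact mul_le_one₀ (h1 m₁ hm₁) (abs_nonneg _) (h1 m₂ hm₂)
      _ ≤ _ := by rw [one_mul]; exact h2
  refine (Finset.sum_le_sum fun m₁ hm₁ => Finset.sum_le_sum fun m₂ hm₂ => hl m₁ hm₁ m₂ hm₂).trans ?_
  rw [Finset.sum_const, Finset.sum_const, Nat.card_Icc, Nat.add_sub_cancel, nsmul_eq_mul,
    nsmul_eq_mul, hB2]
  -- N B^2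
  have hNR : (N : ℝ) ≤ R * (Q : ℝ) ^ (51 / 100 : ℝ) := by
    rw [hNd]
    exact Nat.floor_le (by positivity)
  have hfin : (N : ℝ) * (1 / (R' * (Q : ℝ) ^ (49 / 100 : ℝ))) ≤
      (R / R') * (Q : ℝ) ^ (1 / 50 : ℝ) := by
    have h1 : (Q : ℝ) ^ (51 / 100 : ℝ) = (Q : ℝ) ^ (49 / 100 : ℝ) * (Q : ℝ) ^ (1 / 50 : ℝ) := by
      rw [← Real.rpow_add hQ0]
      norm_num
    have h2 : 0 < (Q : ℝ) ^ (49 / 100 : ℝ) := Real.rpow_pos_of_pos hQ0 _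
    calc (N : ℝ) * (1 / (R' * (Q : ℝ) ^ (49 / 100 : ℝ)))
        ≤ (R * (Q : ℝ) ^ (51 / 100 : ℝ)) * (1 / (R' * (Q : ℝ) ^ (49 / 100 : ℝ))) :=
          mul_le_mul_of_nonneg_right hNR (by positivity)
      _ = (R / R') * (Q : ℝ) ^ (1 / 50 : ℝ) := by
          rw [h1]
          field_simp
  have hpj : (0 : ℝ) < (p : ℝ) ^ j := by positivity
  calc (Y : ℝ) * (Y * (Y * N / (p : ℝ) ^ j * (8 * Y * (1 / (R' * (Q : ℝ) ^ (49 / 100 : ℝ))) *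
        (8 * p * E₀))))
      = (64 * p * (Y : ℝ) ^ 4 / (p : ℝ) ^ j * E₀) *
          ((N : ℝ) * (1 / (R' * (Q : ℝ) ^ (49 / 100 : ℝ)))) := by ring
    _ ≤ (64 * p * (Y : ℝ) ^ 4 / (p : ℝ) ^ j * E₀) * ((R / R') * (Q : ℝ) ^ (1 / 50 : ℝ)) :=
        mul_le_mul_of_nonneg_left hfin (by positivity)
    _ = _ := by ring

end Pool.Agent.NP
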