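import Pool.Agent.Lib.MP_afd523_nt_P.POff
import Pool.Agent.Lib.MP_afd523_nt_P.PExp
import Pool.Agent.Lib.MP_afd523_nt_P.PDiag
import Pool.Agent.Lib.MP_afd523_nt_P.PNum

/-!
Project NP (MP_afd523_nt): the second moment of the smoothed sums over a coset.
-/

namespace Pool.Agent.NP

open Finset Complex MeasureTheory Pool.Agent.NV Pool.Agent.NVT Pool.Agent.NVW

private theorem PSec_MF (Q : ℕ) (f : ℕ → ℂ) :
    MF Q f = ∑ m ∈ Icc 1 (YY Q), ((lamq Q m / √(m : ℝ) : ℝ) : ℂ) * f m := by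
  unfold MF
  refine Finset.sum_congr rfl fun m _ => ?_
  push_cast
  ring

private theorem PSec_SF {μ : Measure ℝ} {C : ℝ} {K : ℕ} (hμ : Smooth μ C K) {Q : ℕ} (hQ : 3 ≤ Q)
    {R R' : ℝ} (hR' : 0 < R') (hRR : R' ≤ R) (f : ℕ → ℂ) :
    SF μ Q R f - SF μ Q R' f = ∑ n ∈ Icc 1 (NN Q R),
      (((Phi μ Q R n - Phi μ Q R' n) / √(n : ℝ) : ℝ) : ℂ) * f n := by
  have hQ0 : (0 : ℝ) ≤ Q := Nat.cast_nonneg _
  have hNN : NN Q R' ≤ NN Q R := by
    unfold NN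
    exact Nat.floor_mono (mul_le_mul_of_nonneg_right hRR (Real.rpow_nonneg hQ0 _))
  have h1 : SF μ Q R' f = ∑ n ∈ Icc 1 (NN Q R), (Phi μ Q R' n : ℂ) * f n / (√(n : ℝ) : ℂ) := by
    unfold SF
    refine Finset.sum_subset (Finset.Icc_subset_Icc_right hNN) fun n hn hn' => ?_
    rw [Finset.mem_Icc] at hn hn'
    rw [Maj_Phi_zero hμ hQ hR' (by unfold NN at hn'; omega)]
    simp
  rw [h1]
  unfold SF
  rw [← Finset.sum_sub_distrib]
  refine Finset.sum_congr rfl fun n _ => ?_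
  push_cast
  ring

/-- the second moment of a piece -/
private theorem PSec_piece {p k j : ℕ} [Fact p.Prime] (hj : k ≤ 3 * j) (hj1 : 1 ≤ j) (hjk : j ≤ k)
    {ψ : DirichletCharacter ℂ (p ^ k)} (hψ : ψ.IsPrimitive) {μ : Measure ℝ} {C : ℝ} {K : ℕ}
    (hμ : Smooth μ C K) {Q : ℕ} (hQ : 3 ≤ Q) {R R' : ℝ} (hR' : 0 < R') (hRR : R' ≤ R)
    (hN : YY Q * NN Q R < p ^ k) {C₁ : ℝ}
    (hD : ∑ N ∈ Icc 1 (YY Q * NN Q R), (CN μ Q R N) ^ 2 / N ≤ C₁)
    (hD' : ∑ N ∈ Icc 1 (YY Q * NN Q R), (CN μ Q R' N) ^ 2 / N ≤ C₁)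
    (hoff : 64 * p * (YY Q : ℝ) ^ 4 * (R / R') * (Q : ℝ) ^ (1 / 50 : ℝ) / (p : ℝ) ^ j *
        ((NN Q R + 1) * √(YY Q * NN Q R / (p : ℝ) ^ k) + 1 +
          √((p : ℝ) ^ k / (p : ℝ) ^ j) * (1 + Real.log ((p : ℝ) ^ k))) ≤ 1 / 2) :
    ∑ χ : DirichletCharacter ℂ (p ^ j), ‖MF Q (fun n => ψ n * χ n) *
      (SF μ Q R (fun n => ψ n * χ n) - SF μ Q R' (fun n => ψ n * χ n))‖ ^ 2 ≤
      (4 * C₁ + 1) * Nat.totient (p ^ j) := by
  have hp : p.Prime := Fact.out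
  have : NeZero (p ^ k) := ⟨(pow_pos hp.pos k).ne'⟩
  have : NeZero (p ^ j) := ⟨(pow_pos hp.pos j).ne'⟩
  have hR : 0 < R := lt_of_lt_of_le hR' hRR
  have hd : p ^ j ∣ p ^ k := pow_dvd_pow p hjk
  obtain ⟨lam, hlam⟩ : ∃ lam : ℕ → ℝ, lam = fun m => lamq Q m / √(m : ℝ) := ⟨_, rfl⟩
  obtain ⟨g, hg⟩ : ∃ g : ℕ → ℝ, g = fun n => (Phi μ Q R n - Phi μ Q R' n) / √(n : ℝ) := ⟨_, rfl⟩
  have h1 := expand hd ψ lam g (YY Q) (NN Q R)
  have h2 : ∀ χ : DirichletCharacter ℂ (p ^ j), MF Q (fun n => ψ n * χ n) *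
      (SF μ Q R (fun n => ψ n * χ n) - SF μ Q R' (fun n => ψ n * χ n)) =
      (∑ m ∈ Icc 1 (YY Q), (lam m : ℂ) * (ψ m * χ m)) *
        ∑ n ∈ Icc 1 (NN Q R), (g n : ℂ) * (ψ n * χ n) := by
    intro χ
    rw [PSec_MF, PSec_SF hμ hQ hR' hRR, hlam, hg]
  rw [Finset.sum_congr rfl fun χ _ => by rw [h2 χ]]
  refine h1.trans ?_
  rw [mul_comm]
  refine mul_le_mul_of_nonneg_right ?_ (Nat.cast_nonneg _)
  have h3 := off_le hj hj1 hψ hμ hQ hR' hRR hN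
  have h4 : ∑ m₁ ∈ Icc 1 (YY Q), ∑ m₂ ∈ Icc 1 (YY Q), |lam m₁| * |lam m₂| *
      ∑ l ∈ Icc 1 (YY Q * NN Q R / p ^ j), ‖TT ψ g (NN Q R) m₁ m₂ (p ^ j * l)‖ ≤ 1 / 2 := by
    rw [hlam, hg]
    exact h3.trans hoff
  have h5 : ∑ Z ∈ Icc 1 (YY Q * NN Q R), (∑ m ∈ Z.divisors.filter
      (fun m => m ≤ YY Q ∧ Z / m ≤ NN Q R), lam m * g (Z / m)) ^ 2 ≤ 4 * C₁ := by
    have h6 : ∀ Z ∈ Icc 1 (YY Q * NN Q R), (∑ m ∈ Z.divisors.filter
        (fun m => m ≤ YY Q ∧ Z / m ≤ NN Q R), lam m * g (Z / m)) ^ 2 ≤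
        2 * ((CN μ Q R Z) ^ 2 / Z) + 2 * ((CN μ Q R' Z) ^ 2 / Z) := by
      intro Z hZ
      rw [Finset.mem_Icc] at hZ
      have hZ0 : (0 : ℝ) < Z := by exact_mod_cast hZ.1
      have hs0 : 0 < √(Z : ℝ) := Real.sqrt_pos.2 hZ0
      have h7 : ∑ m ∈ Z.divisors.filter (fun m => m ≤ YY Q ∧ Z / m ≤ NN Q R), lam m * g (Z / m) =
          (CN μ Q R Z - CN μ Q R' Z) / √(Z : ℝ) := by
        have h8 : ∀ m ∈ Z.divisors, lam m * g (Z / m) =
            (lamq Q m * Phi μ Q R (Z / m) - lamq Q m * Phi μ Q R' (Z / m)) / √(Z : ℝ) := by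
          intro m hm
          have hdv := Nat.dvd_of_mem_divisors hm
          have h9 : (Z : ℝ) = (m : ℝ) * ((Z / m : ℕ) : ℝ) := by
            exact_mod_cast (Nat.mul_div_cancel' hdv).symm
          have h10 : √(Z : ℝ) = √(m : ℝ) * √((Z / m : ℕ) : ℝ) := by
            rw [← Real.sqrt_mul (Nat.cast_nonneg m), ← h9]
          rw [hlam, hg, h10]
          simp only
          rw [div_mul_div_comm]
          ring
        unfold CN
        rw [← Finset.sum_sub_distrib, Finset.sum_div]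
        rw [Finset.sum_filter_of_ne]
        · exact Finset.sum_congr rfl h8
        · intro m hm hne
          have hm0 := Nat.pos_of_mem_divisors hm
          rw [h8 m hm] at hne
          constructor
          · by_contra hlt
            apply hne
            have h9 : lamq Q m = 0 := by
              by_contra h10
              have h11 := SecA_lamq_ne (by omega) hm0.ne' h10
              unfold YY at hlt
              omega
            rw [h9]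
            simp
          · by_contra hlt
            apply hne
            unfold NN at hlt
            have h9 : Phi μ Q R (Z / m) = 0 := Maj_Phi_zero hμ hQ hR (by omega)
            have h10 : Phi μ Q R' (Z / m) = 0 := by
              refine Maj_Phi_zero hμ hQ hR' (lt_of_le_of_lt ?_ (by omega :
                ⌊R * (Q : ℝ) ^ (51 / 100 : ℝ)⌋₊ < Z / m))
              exact Nat.floor_mono (mul_le_mul_of_nonneg_right hRR
                (Real.rpow_nonneg (Nat.cast_nonneg _) _))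
            rw [h9, h10]
            simp
      rw [h7, div_pow, Real.sq_sqrt hZ0.le, ← mul_div_assoc, ← mul_div_assoc, ← add_div]
      apply div_le_div_of_nonneg_right _ hZ0.le
      nlinarith [sq_nonneg (CN μ Q R Z + CN μ Q R' Z)]
    refine (Finset.sum_le_sum h6).trans ?_
    rw [Finset.sum_add_distrib, ← Finset.mul_sum, ← Finset.mul_sum]
    linarith
  linarith

/-- the second moment of the smoothed sums over a coset -/
theorem second (C₇ : ℝ) (hC₇ : 1 ≤ C₇) (ε : ℝ) (hε : 0 < ε) (hε1 : ε ≤ 1 / 6) : ∃ C : ℝ, 1 ≤ C ∧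
    ∃ k₀ : ℕ, ∀ (p k j : ℕ) [Fact p.Prime], k₀ ≤ k → (1 / 3 + ε) * k ≤ j → 2 * j ≤ k →
    ∀ ψ : DirichletCharacter ℂ (p ^ k), ψ.IsPrimitive → ∀ (μ : Measure ℝ) (K : ℕ),
    10 * Real.log (QQ ε (p ^ k)) + 100 ≤ K → Smooth μ C₇ K → ∀ R : ℝ, 0 < R →
    R ≤ ((p : ℝ) ^ k) ^ (ε / 40) * √((p : ℝ) ^ k / QQ ε (p ^ k)) →
    ∑ χ : DirichletCharacter ℂ (p ^ j), ‖MF (QQ ε (p ^ k)) (fun n => ψ n * χ n) *
      SF μ (QQ ε (p ^ k)) R (fun n => ψ n * χ n)‖ ^ 2 ≤ C * Nat.totient (p ^ j) := by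
  obtain ⟨C₁, hC₁, q₀, hdiag⟩ := diagG C₇ hC₇ (40 / ε) (by
    rw [le_div_iff₀ hε]
    linarith)
  obtain ⟨q₁, hsmall⟩ := num_small (δ := ε / 20) (by linarith)
  obtain ⟨k₁, hk₁⟩ := num_Q hε (max q₀ 3)
  obtain ⟨J, hJ⟩ : ∃ J : ℕ, J = ⌈4 / ε⌉₊ + 1 := ⟨_, rfl⟩
  have hq₁ : ∃ k₂ : ℕ, ∀ k : ℕ, k₂ ≤ k → q₁ ≤ (2 : ℝ) ^ k :=
    Filter.eventually_atTop.1
      ((tendsto_pow_atTop_atTop_of_one_lt (by norm_num : (1 : ℝ) < 2)).eventually_ge_atTop q₁)
  obtain ⟨k₂, hk₂⟩ := hq₁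
  refine ⟨J * (J * (4 * C₁ + 1)), ?_, max (max k₁ k₂) 1, ?_⟩
  · have h1 : (1 : ℝ) ≤ J := by rw [hJ]; push_cast; linarith [Nat.cast_nonneg (α := ℝ) ⌈4 / ε⌉₊]
    have h2 : (1 : ℝ) ≤ J * (4 * C₁ + 1) := by nlinarith
    nlinarith
  intro p k j _ hk hjk hj2 ψ hψ μ K hK hμ R hR hRq
  have hp : p.Prime := Fact.out
  have hp2 : (2 : ℝ) ≤ p := by exact_mod_cast hp.two_le
  have hp0 : (0 : ℝ) < p := by linarith
  have hpμ := hμ.prob
  obtain ⟨hQ1, hQ2, hQ3, hQ4⟩ := hk₁ p k (le_trans (le_trans (le_max_left _ _) (le_max_left _ _)) hk)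
  have hk2 := hk₂ k (le_trans (le_trans (le_max_right _ _) (le_max_left _ _)) hk)
  have hk1 : 1 ≤ k := le_trans (le_max_right _ _) hk
  obtain ⟨Q, hQd⟩ : ∃ Q, Q = QQ ε (p ^ k) := ⟨_, rfl⟩
  rw [← hQd] at hQ1 hQ2 hQ3 hK hRq ⊢
  have hQq₀ : q₀ ≤ Q := le_trans (le_max_left _ _) hQ1
  have hQ3' : 3 ≤ Q := le_trans (le_max_right _ _) hQ1
  have hQ0 : (0 : ℝ) < Q := by exact_mod_cast (by omega : 0 < Q)
  have hQone : (1 : ℝ) ≤ Q := by exact_mod_cast (by omega : 1 ≤ Q)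
  obtain ⟨q, hq⟩ : ∃ q : ℝ, q = (p : ℝ) ^ k := ⟨_, rfl⟩
  rw [← hq] at hQ2 hQ3 hQ4 hRq
  have hq2k : (2 : ℝ) ^ k ≤ q := by rw [hq]; exact pow_le_pow_left₀ (by norm_num) hp2 k
  have hqq₁ : q₁ ≤ q := hk2.trans hq2k
  have hq2 : 2 ≤ q := by
    calc (2 : ℝ) = 2 ^ 1 := (pow_one _).symm
      _ ≤ 2 ^ k := pow_le_pow_right₀ (by norm_num) hk1
      _ ≤ q := hq2k
  have hqone : 1 ≤ q := by linarith
  have hqgt : 1 < q := by linarith
  have hq0 : 0 < q := by linarith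
  -- j
  have hkR : (0 : ℝ) < k := by exact_mod_cast hk1
  have hj3 : k ≤ 3 * j := by
    have h1 : (k : ℝ) ≤ 3 * j := by nlinarith
    exact_mod_cast h1
  have hj1 : 1 ≤ j := by omega
  have hdq : q ^ (1 / 3 + 20 * (ε / 20)) ≤ (p : ℝ) ^ j := by
    rw [hq, ← Real.rpow_natCast, ← Real.rpow_mul hp0.le, ← Real.rpow_natCast]
    apply Real.rpow_le_rpow_of_exponent_le (by linarith)
    have e1 : (1 / 3 : ℝ) + 20 * (ε / 20) = 1 / 3 + ε := by ring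
    rw [e1]
    linarith
  obtain ⟨ρ, hρ⟩ : ∃ ρ : ℝ, ρ = q ^ (10 * (ε / 20)) := ⟨_, rfl⟩
  have hρ1 : 1 ≤ ρ := by rw [hρ]; exact Real.one_le_rpow hqone (by linarith)
  have hρ0 : 0 < ρ := by linarith
  obtain ⟨S, hS⟩ : ∃ S : ℕ → ℝ, S = fun i => R / ρ ^ i := ⟨_, rfl⟩
  have hS0 : ∀ i, 0 < S i := fun i => by rw [hS]; positivity
  have hSle : ∀ i, S i ≤ R := fun i => by
    rw [hS]
    exact div_le_self hR.le (one_le_pow₀ hρ1)
  have hSS : ∀ i, S (i + 1) ≤ S i := fun i => by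
    rw [hS]
    simp only
    apply div_le_div_of_nonneg_left hR.le (by positivity)
    exact pow_le_pow_right₀ hρ1 (by omega)
  have hSR : ∀ i, S i / S (i + 1) = ρ := fun i => by
    rw [hS]
    simp only
    rw [pow_succ]
    field_simp
  -- the last one vanishes
  have hlast : ∀ f : ℕ → ℂ, SF μ Q (S J) f = 0 := by
    intro f
    have h1 : NN Q (S J) = 0 := by
      unfold NN
      rw [Nat.floor_eq_zero]
      obtain ⟨-, hRle⟩ := num_N hqone (by omega) hQ2 hε hR hRq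
      have h2 : q ^ (2 : ℝ) ≤ ρ ^ J := by
        rw [hρ, ← Real.rpow_natCast, ← Real.rpow_mul hq0.le]
        apply Real.rpow_le_rpow_of_exponent_le hqone
        have h3 : 4 / ε ≤ J := by
          rw [hJ]
          push_cast
          have := Nat.le_ceil (4 / ε)
          linarith
        rw [div_le_iff₀ hε] at h3
        linarith
      have h3 : (Q : ℝ) ^ (51 / 100 : ℝ) ≤ q ^ (1 / 4 : ℝ) := by
        calc (Q : ℝ) ^ (51 / 100 : ℝ) ≤ (q ^ (ε / 20)) ^ (51 / 100 : ℝ) :=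
              Real.rpow_le_rpow hQ0.le hQ2 (by norm_num)
          _ = q ^ (ε / 20 * (51 / 100)) := by rw [← Real.rpow_mul hq0.le]
          _ ≤ q ^ (1 / 4 : ℝ) := Real.rpow_le_rpow_of_exponent_le hqone (by linarith)
      have h4 : S J * (Q : ℝ) ^ (51 / 100 : ℝ) < 1 := by
        rw [hS]
        simp only
        rw [div_mul_eq_mul_div, div_lt_one (by positivity)]
        calc R * (Q : ℝ) ^ (51 / 100 : ℝ) ≤ q ^ (1 / 2 + ε / 20) * q ^ (1 / 4 : ℝ) :=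
              mul_le_mul hRle h3 (by positivity) (by positivity)
          _ = q ^ (1 / 2 + ε / 20 + 1 / 4) := by rw [← Real.rpow_add hq0]
          _ < q ^ (2 : ℝ) := Real.rpow_lt_rpow_of_exponent_lt hqgt (by linarith)
          _ ≤ ρ ^ J := h2
      exact h4
    unfold SF
    rw [h1]
    simp
  have htel : ∀ f : ℕ → ℂ, SF μ Q R f = ∑ i ∈ range J, (SF μ Q (S i) f - SF μ Q (S (i + 1)) f) := by
    intro f
    rw [Finset.sum_range_sub', hlast f, sub_zero]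
    have : S 0 = R := by rw [hS]; simp
    rw [this]
  -- the pieces
  have hpiece : ∀ i ∈ range J, ∑ χ : DirichletCharacter ℂ (p ^ j), ‖MF Q (fun n => ψ n * χ n) *
      (SF μ Q (S i) (fun n => ψ n * χ n) - SF μ Q (S (i + 1)) (fun n => ψ n * χ n))‖ ^ 2 ≤
      (4 * C₁ + 1) * Nat.totient (p ^ j) := by
    intro i _
    obtain ⟨hY1, hY2⟩ := num_Y (ε := ε) hqone (by omega : 1 ≤ Q) hQ2 hε
    obtain ⟨hN1, hR1⟩ := num_N hqone (by omega : 1 ≤ Q) hQ2 hε (hS0 i) ((hSle i).trans hRq)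
    have hYN : (YY Q : ℝ) * NN Q (S i) ≤ q ^ (3 / 4 : ℝ) := by
      calc (YY Q : ℝ) * NN Q (S i) ≤ q ^ (ε / 1000) * q ^ (1 / 2 + ε / 20) :=
            mul_le_mul hY1 hN1 (Nat.cast_nonneg _) (by positivity)
        _ = q ^ (ε / 1000 + (1 / 2 + ε / 20)) := by rw [← Real.rpow_add hq0]
        _ ≤ _ := Real.rpow_le_rpow_of_exponent_le hqone (by linarith)
    have hYNq : (YY Q : ℝ) * NN Q (S i) < q := by
      refine lt_of_le_of_lt hYN ?_
      nth_rewrite 2 [← Real.rpow_one q]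
      exact Real.rpow_lt_rpow_of_exponent_lt hqgt (by norm_num)
    have hN : YY Q * NN Q (S i) < p ^ k := by
      rw [hq] at hYNq
      exact_mod_cast hYNq
    have hX : ((YY Q * NN Q (S i) : ℕ) : ℝ) ≤ (Q : ℝ) ^ (40 / ε) := by
      push_cast
      linarith
    have hRq' : R ≤ (Q : ℝ) ^ (40 / ε) := by
      obtain ⟨-, hRle⟩ := num_N hqone (by omega) hQ2 hε hR hRq
      refine (hRle.trans ?_).trans hQ3
      nth_rewrite 2 [← Real.rpow_one q]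
      exact Real.rpow_le_rpow_of_exponent_le hqone (by linarith)
    refine PSec_piece hj3 hj1 (by omega) hψ hμ hQ3' (hS0 (i + 1)) (hSS i) hN
      (hdiag Q μ K hQq₀ hK hμ (S i) (hS0 i) ((hSle i).trans hRq') _ hX)
      (hdiag Q μ K hQq₀ hK hμ (S (i + 1)) (hS0 _) ((hSle _).trans hRq') _ hX) ?_
    rw [hSR i, ← hq]
    refine le_trans (num_off (δ := ε / 20) (by linarith) hqone hp0.le hQ4 (Nat.cast_nonneg _)
      (hY1.trans (Real.rpow_le_rpow_of_exponent_le hqone (by linarith))) hρ (by positivity)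
      (hY2.trans (Real.rpow_le_rpow_of_exponent_le hqone (by linarith))) hdq
      (Nat.cast_nonneg _) hN1) (hsmall q hqq₁)
  -- the sum of the pieces
  have hcs : ∀ χ : DirichletCharacter ℂ (p ^ j), ‖MF Q (fun n => ψ n * χ n) *
      SF μ Q R (fun n => ψ n * χ n)‖ ^ 2 ≤ J * ∑ i ∈ range J, ‖MF Q (fun n => ψ n * χ n) *
      (SF μ Q (S i) (fun n => ψ n * χ n) - SF μ Q (S (i + 1)) (fun n => ψ n * χ n))‖ ^ 2 := by
    intro χ
    rw [htel, Finset.mul_sum]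
    have h1 := norm_sum_le (range J) (fun i => MF Q (fun n => ψ n * χ n) *
      (SF μ Q (S i) (fun n => ψ n * χ n) - SF μ Q (S (i + 1)) (fun n => ψ n * χ n)))
    have h2 := sq_sum_le_card_mul_sum_sq (s := range J) (f := fun i => ‖MF Q (fun n => ψ n * χ n) *
      (SF μ Q (S i) (fun n => ψ n * χ n) - SF μ Q (S (i + 1)) (fun n => ψ n * χ n))‖)
    rw [Finset.card_range] at h2
    exact (pow_le_pow_left₀ (norm_nonneg _) h1 2).trans h2
  refine (Finset.sum_le_sum fun χ _ => hcs χ).trans ?_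
  rw [← Finset.mul_sum, Finset.sum_comm, mul_assoc]
  refine mul_le_mul_of_nonneg_left ?_ (Nat.cast_nonneg _)
  refine (Finset.sum_le_sum hpiece).trans (le_of_eq ?_)
  rw [Finset.sum_const, Finset.card_range, nsmul_eq_mul]
  ring

end Pool.Agent.NP
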