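import Pool.Agent.Lib.MP_afd523_nt_P.PMu
import Pool.Agent.Lib.MP_afd523_nt_P.PTT
import Pool.Agent.Lib.MP_afd523_nt.Diag
import Pool.Agent.Lib.MP_afd523_nt.SecA

/-!
Project NP (MP_afd523_nt): sums of the mollifier coefficients.
-/

namespace Pool.Agent.NP

open Finset Complex MeasureTheory Pool.Agent.NV

/-- the product of the primes up to `YY Q` that do not divide `K` -/
private noncomputable def PZed_P (Q K : ℕ) : ℕ :=
  ∏ l ∈ (Icc 1 (YY Q)).filter (fun l => l.Prime ∧ ¬ l ∣ K), l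

private theorem PZed_P_prime (Q K l : ℕ) (hl : l.Prime) :
    l ∣ PZed_P Q K ↔ l ≤ YY Q ∧ ¬ l ∣ K := by
  unfold PZed_P
  rw [Prime.dvd_finsetProd_iff (Nat.prime_iff.1 hl)]
  constructor
  · rintro ⟨a, ha, hla⟩
    rw [Finset.mem_filter, Finset.mem_Icc] at ha
    have := (Nat.prime_dvd_prime_iff_eq hl ha.2.1).1 hla
    rw [this]
    exact ⟨ha.1.2, ha.2.2⟩
  · rintro ⟨h1, h2⟩
    exact ⟨l, by rw [Finset.mem_filter, Finset.mem_Icc]; exact ⟨⟨hl.one_le, h1⟩, hl, h2⟩,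
      dvd_rfl⟩

private theorem PZed_P_sq (Q K : ℕ) : Squarefree (PZed_P Q K) := by
  unfold PZed_P
  apply Finset.squarefree_prod_of_pairwise_isCoprime
  · intro p hp p' hp' hne
    rw [Finset.mem_coe, Finset.mem_filter] at hp hp'
    exact Nat.coprime_iff_isRelPrime.1 ((Nat.coprime_primes hp.2.1 hp'.2.1).2 hne)
  · intro p hp
    rw [Finset.mem_filter] at hp
    exact hp.2.1.squarefree

/-- the sum as a product of two sums -/
private theorem PZed_eq {Q p m₀ : ℕ} (hQ : 3 ≤ Q) (hm₀ : 1 ≤ m₀) (hp : p ≠ 0) :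
    ((∑ t ∈ (Icc 1 (YY Q / m₀)).filter (fun t => t.Coprime p), lamq Q (t * m₀) / t : ℝ) : ℂ) =
      (ArithmeticFunction.moebius m₀ : ℂ) *
      ((∑ d ∈ (sm (ww Q) (PZed_P Q (p * m₀))).divisors,
        ((if ((d * sm (ww Q) m₀ : ℕ) : ℝ) ≤ yy Q then (ArithmeticFunction.moebius d : ℝ) / d
          else 0 : ℝ) : ℂ)) *
      ∑ r ∈ (ro (ww Q) (PZed_P Q (p * m₀))).divisors,
        (((ArithmeticFunction.moebius r : ℝ) / r * PP Q (r * ro (ww Q) m₀) : ℝ) : ℂ)) := by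
  classical
  obtain ⟨P, hP⟩ : ∃ P, P = PZed_P Q (p * m₀) := ⟨_, rfl⟩
  have hPsq : Squarefree P := hP ▸ PZed_P_sq _ _
  have hP0 : P ≠ 0 := hPsq.ne_zero
  have hPp : ∀ l : ℕ, l.Prime → (l ∣ P ↔ l ≤ YY Q ∧ ¬ l ∣ p * m₀) := fun l hl =>
    hP ▸ PZed_P_prime Q (p * m₀) l hl
  have hcopm : ∀ t, t ∣ P → t.Coprime m₀ := by
    intro t ht
    apply Nat.coprime_of_dvd
    intro l hl h2 h3
    exact ((hPp l hl).1 (h2.trans ht)).2 (h3.mul_left p)
  have hcopp : ∀ t, t ∣ P → t.Coprime p := by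
    intro t ht
    apply Nat.coprime_of_dvd
    intro l hl h2 h3
    exact ((hPp l hl).1 (h2.trans ht)).2 (h3.mul_right m₀)
  have hlam : ∀ t, t ≠ 0 → lamq Q (t * m₀) ≠ 0 → Squarefree t ∧ t.Coprime m₀ ∧
      t ≤ YY Q / m₀ := by
    intro t ht h
    have h1 : t * m₀ ≤ YY Q := SecA_lamq_ne (by omega) (Nat.mul_ne_zero ht (by omega)) h
    have h2 : ArithmeticFunction.moebius (t * m₀) ≠ 0 := by
      intro h0
      apply h
      unfold lamq lamf
      rw [h0]
      simp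
    have h3 : Squarefree (t * m₀) := ArithmeticFunction.moebius_ne_zero_iff_squarefree.1 h2
    refine ⟨h3.squarefree_of_dvd (dvd_mul_right _ _), ?_, ?_⟩
    · exact Nat.coprime_of_squarefree_mul h3
    · rw [Nat.le_div_iff_mul_le hm₀]
      exact h1
  have h1 : ∑ t ∈ (Icc 1 (YY Q / m₀)).filter (fun t => t.Coprime p), lamq Q (t * m₀) / t =
      ∑ t ∈ P.divisors, lamq Q (t * m₀) / t := by
    rw [← Finset.sum_filter_of_ne (s := P.divisors) (p := fun t => t ≤ YY Q / m₀),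
      ← Finset.sum_filter_of_ne (s := (Icc 1 (YY Q / m₀)).filter (fun t => t.Coprime p))
        (p := fun t => t ∣ P)]
    · refine Finset.sum_congr ?_ fun _ _ => rfl
      ext t
      rw [Finset.mem_filter, Finset.mem_filter, Finset.mem_Icc, Finset.mem_filter,
        Nat.mem_divisors]
      constructor
      · rintro ⟨⟨⟨h2, h3⟩, h4⟩, h5⟩
        exact ⟨⟨h5, hP0⟩, h3⟩
      · rintro ⟨⟨h5, _⟩, h3⟩
        exact ⟨⟨⟨Nat.pos_of_dvd_of_pos h5 (Nat.pos_of_ne_zero hP0), h3⟩, hcopp t h5⟩, h5⟩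
    · intro t ht h2
      rw [Finset.mem_filter, Finset.mem_Icc] at ht
      have h3 : lamq Q (t * m₀) ≠ 0 := fun h0 => h2 (by rw [h0, zero_div])
      obtain ⟨h4, h5, h6⟩ := hlam t (by omega) h3
      rw [← Nat.prod_primeFactors_of_squarefree h4, ← Nat.prod_primeFactors_of_squarefree hPsq]
      apply Finset.prod_dvd_prod_of_subset
      intro l hl
      have hlp := Nat.prime_of_mem_primeFactors hl
      have hln := Nat.dvd_of_mem_primeFactors hl
      rw [Nat.mem_primeFactors]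
      refine ⟨hlp, (hPp l hlp).2 ⟨?_, ?_⟩, hP0⟩
      · have h7 := Nat.le_of_dvd (by omega) hln
        have h8 := Nat.div_le_self (YY Q) m₀
        omega
      · intro h7
        rcases (Nat.Prime.dvd_mul hlp).1 h7 with h8 | h8
        · have h9 := Nat.dvd_gcd hln h8
          rw [Nat.coprime_iff_gcd_eq_one.1 ht.2] at h9
          exact hlp.one_lt.ne' (Nat.dvd_one.1 h9)
        · have h9 := Nat.dvd_gcd hln h8
          rw [Nat.coprime_iff_gcd_eq_one.1 h5] at h9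
          exact hlp.one_lt.ne' (Nat.dvd_one.1 h9)
    · intro t ht h2
      rw [Nat.mem_divisors] at ht
      have h3 : lamq Q (t * m₀) ≠ 0 := fun h0 => h2 (by rw [h0, zero_div])
      exact (hlam t (fun h0 => ht.2 (Nat.eq_zero_of_zero_dvd (h0 ▸ ht.1))) h3).2.2
  rw [h1, ← hP, ← divisors_split (ww Q) hP0
    (fun d => ((if ((d * sm (ww Q) m₀ : ℕ) : ℝ) ≤ yy Q then (ArithmeticFunction.moebius d : ℝ) / d
          else 0 : ℝ) : ℂ))
    (fun r => (((ArithmeticFunction.moebius r : ℝ) / r * PP Q (r * ro (ww Q) m₀) : ℝ) : ℂ)),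
    Complex.ofReal_sum, Finset.mul_sum]
  refine Finset.sum_congr rfl fun t ht => ?_
  rw [Nat.mem_divisors] at ht
  have ht0 : t ≠ 0 := fun h0 => ht.2 (Nat.eq_zero_of_zero_dvd (h0 ▸ ht.1))
  have hm0 : m₀ ≠ 0 := by omega
  have e1 : sm (ww Q) (t * m₀) = sm (ww Q) t * sm (ww Q) m₀ := sm_mul _ ht0 hm0
  have e2 : ro (ww Q) (t * m₀) = ro (ww Q) t * ro (ww Q) m₀ := ro_mul _ ht0 hm0
  have e3 : (ArithmeticFunction.moebius (t * m₀) : ℝ) =
      ArithmeticFunction.moebius t * ArithmeticFunction.moebius m₀ := by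
    exact_mod_cast ArithmeticFunction.isMultiplicative_moebius.map_mul_of_coprime (hcopm t ht.1)
  have e4 : (ArithmeticFunction.moebius t : ℝ) =
      ArithmeticFunction.moebius (sm (ww Q) t) * ArithmeticFunction.moebius (ro (ww Q) t) := by
    conv_lhs => rw [← sm_mul_ro (ww Q) ht0]
    exact_mod_cast ArithmeticFunction.isMultiplicative_moebius.map_mul_of_coprime
      (coprime_sm_ro (ww Q) t t)
  have e5 : (t : ℝ) = (sm (ww Q) t : ℝ) * (ro (ww Q) t : ℝ) := by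
    exact_mod_cast (sm_mul_ro (ww Q) ht0).symm
  have key : lamq Q (t * m₀) / t = (ArithmeticFunction.moebius m₀ : ℝ) *
      ((if ((sm (ww Q) t * sm (ww Q) m₀ : ℕ) : ℝ) ≤ yy Q then
        (ArithmeticFunction.moebius (sm (ww Q) t) : ℝ) / (sm (ww Q) t : ℕ) else 0) *
      ((ArithmeticFunction.moebius (ro (ww Q) t) : ℝ) / (ro (ww Q) t : ℕ) *
        PP Q (ro (ww Q) t * ro (ww Q) m₀))) := by
    unfold lamq lamf
    rw [e1, e2, e3, e4, e5]
    have hs : (sm (ww Q) t : ℝ) ≠ 0 := by exact_mod_cast sm_ne_zero _ _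
    have hr : (ro (ww Q) t : ℝ) ≠ 0 := by exact_mod_cast ro_ne_zero _ _
    split_ifs
    · field_simp
    · simp
  rw [key]
  push_cast
  ring

private theorem PZed_first {Q P s : ℕ} (hP : Squarefree P) (hs : 1 ≤ s) :
    |∑ d ∈ P.divisors, if ((d * s : ℕ) : ℝ) ≤ yy Q then
      (ArithmeticFunction.moebius d : ℝ) / d else 0| ≤ 1 := by
  rw [← Finset.sum_filter]
  have hs0 : (0 : ℝ) < s := by exact_mod_cast hs
  have hy : 0 ≤ yy Q / s := by
    unfold yy
    positivity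
  have h1 : P.divisors.filter (fun d => ((d * s : ℕ) : ℝ) ≤ yy Q) =
      P.divisors.filter (fun d => d ≤ ⌊yy Q / s⌋₊) := by
    refine Finset.filter_congr fun d _ => ?_
    rw [Nat.le_floor_iff hy, le_div_iff₀ hs0]
    push_cast
    rfl
  rw [h1]
  exact mu_pi P _ hP

private theorem PZed_PP_anti (Q : ℕ) (hQ : 3 ≤ Q) {b : ℕ} (hb : 1 ≤ b) (n : ℕ) :
    PP Q ((n + 1) * b) ≤ PP Q (n * b) := by
  unfold PP
  apply max_le_max le_rfl
  have h1 : Real.log ((n * b : ℕ) : ℝ) ≤ Real.log (((n + 1) * b : ℕ) : ℝ) := by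
    rcases Nat.eq_zero_or_pos n with rfl | hn
    · simp only [zero_mul, Nat.cast_zero, Real.log_zero, zero_add, one_mul]
      exact Real.log_natCast_nonneg b
    · apply Real.log_le_log
      · exact_mod_cast Nat.mul_pos hn hb
      · exact_mod_cast Nat.mul_le_mul_right b (Nat.le_succ n)
  have h2 : 0 ≤ Real.log (yy Q) := by
    apply Real.log_nonneg
    unfold yy
    exact Real.one_le_rpow (by exact_mod_cast (by omega : 1 ≤ Q)) (by norm_num)
  have h3 := div_le_div_of_nonneg_right h1 h2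
  linarith

private theorem PZed_second {Q P b : ℕ} (hQ : 3 ≤ Q) (hP : Squarefree P) (hb : 1 ≤ b) :
    |∑ r ∈ P.divisors, (ArithmeticFunction.moebius r : ℝ) / r * PP Q (r * b)| ≤ 1 := by
  classical
  have hP0 : P ≠ 0 := hP.ne_zero
  obtain ⟨a, ha⟩ : ∃ a : ℕ → ℝ, a = fun n => if n ∣ P then
    (ArithmeticFunction.moebius n : ℝ) / n else 0 := ⟨_, rfl⟩
  have h1 : ∑ r ∈ P.divisors, (ArithmeticFunction.moebius r : ℝ) / r * PP Q (r * b) =
      ∑ n ∈ range (P + 1), PP Q (n * b) * a n := by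
    have h2 : ∀ n ∈ P.divisors, (ArithmeticFunction.moebius n : ℝ) / n * PP Q (n * b) =
        PP Q (n * b) * a n := by
      intro n hn
      rw [ha]
      simp only
      rw [if_pos (Nat.dvd_of_mem_divisors hn), mul_comm]
    rw [Finset.sum_congr rfl h2]
    refine Finset.sum_subset (fun n hn => ?_) (fun n hn hn' => ?_)
    · rw [Finset.mem_range]
      have := Nat.divisor_le hn
      omega
    · rw [ha]
      simp only
      rw [if_neg, mul_zero]
      intro h3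
      exact hn' (Nat.mem_divisors.2 ⟨h3, hP0⟩)
  have hpart : ∀ m, |∑ n ∈ range m, a n| ≤ 1 := by
    intro m
    rcases Nat.eq_zero_or_pos m with rfl | hm
    · simp
    have h3 : ∑ n ∈ range m, a n = ∑ s ∈ P.divisors.filter (fun s => s ≤ m - 1),
        (ArithmeticFunction.moebius s : ℝ) / s := by
      rw [ha]
      rw [← Finset.sum_filter_of_ne (s := range m) (p := fun n => n ∣ P)]
      · have h4 : (range m).filter (fun n => n ∣ P) = P.divisors.filter (fun s => s ≤ m - 1) := by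
          ext n
          rw [Finset.mem_filter, Finset.mem_filter, Finset.mem_range, Nat.mem_divisors]
          constructor
          · rintro ⟨h5, h6⟩
            exact ⟨⟨h6, hP0⟩, by omega⟩
          · rintro ⟨⟨h6, _⟩, h5⟩
            exact ⟨by omega, h6⟩
        rw [h4]
        refine Finset.sum_congr rfl fun n hn => ?_
        rw [Finset.mem_filter] at hn
        rw [if_pos (Nat.dvd_of_mem_divisors hn.1)]
      · intro n _ h5
        by_contra h6
        exact h5 (if_neg h6)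
    rw [h3]
    exact mu_pi P (m - 1) hP
  have h4 := PTT_abel (w := fun n => PP Q (n * b)) (e := fun n => (a n : ℂ)) (F := 1) (n := P + 1)
    (fun t => (Diag_PP Q _).1) (fun t => PZed_PP_anti Q hQ hb t) (fun m _ => by
      rw [← Complex.ofReal_sum, Complex.norm_real, Real.norm_eq_abs]
      exact hpart m)
  have h5 : ∑ t ∈ range (P + 1), ((PP Q (t * b) : ℝ) : ℂ) * (a t : ℂ) =
      ((∑ n ∈ range (P + 1), PP Q (n * b) * a n : ℝ) : ℂ) := by
    push_cast
    rfl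
  rw [h5, Complex.norm_real, Real.norm_eq_abs, ← h1] at h4
  refine h4.trans ?_
  rw [mul_one]
  exact (Diag_PP Q _).2

/-- the trivial bound -/
theorem zed1 (Q p m₀ : ℕ) (hQ : 3 ≤ Q) (hm₀ : 1 ≤ m₀) (hp : p ≠ 0) :
    |∑ t ∈ (Icc 1 (YY Q / m₀)).filter (fun t => t.Coprime p), lamq Q (t * m₀) / t| ≤ 1 := by
  obtain ⟨P, hP⟩ : ∃ P, P = PZed_P Q (p * m₀) := ⟨_, rfl⟩
  have hPsq : Squarefree P := hP ▸ PZed_P_sq _ _
  have hP0 : P ≠ 0 := hPsq.ne_zero
  have h1 := PZed_eq hQ hm₀ hp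
  rw [← hP] at h1
  have hsm : Squarefree (sm (ww Q) P) := hPsq.squarefree_of_dvd ⟨_, (sm_mul_ro (ww Q) hP0).symm⟩
  have hro : Squarefree (ro (ww Q) P) :=
    hPsq.squarefree_of_dvd ⟨sm (ww Q) P, by rw [mul_comm]; exact (sm_mul_ro (ww Q) hP0).symm⟩
  have h2 := PZed_first (Q := Q) hsm (Nat.one_le_iff_ne_zero.2 (sm_ne_zero (ww Q) m₀))
  have h3 := PZed_second hQ hro (Nat.one_le_iff_ne_zero.2 (ro_ne_zero (ww Q) m₀))
  have h4 := congrArg norm h1
  rw [Complex.norm_real, Real.norm_eq_abs, norm_mul, norm_mul, ← Complex.ofReal_sum,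
    ← Complex.ofReal_sum, Complex.norm_real, Complex.norm_real, Real.norm_eq_abs,
    Real.norm_eq_abs] at h4
  rw [h4]
  have h5 : ‖(ArithmeticFunction.moebius m₀ : ℂ)‖ ≤ 1 := by
    rw [Complex.norm_intCast]
    exact_mod_cast ArithmeticFunction.abs_moebius_le_one
  exact mul_le_one₀ h5 (by positivity) (mul_le_one₀ h2 (abs_nonneg _) h3)

private theorem PZed_musum {n : ℕ} (hn : n ≠ 0) :
    ∑ d ∈ n.divisors, (ArithmeticFunction.moebius d : ℝ) / d =
      ∏ l ∈ n.primeFactors, (1 - 1 / (l : ℝ)) := by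
  have h1 := Diag_musum hn (-1)
  apply Complex.ofReal_injective
  push_cast
  have h2 : ∀ x : ℕ, (x : ℂ) ^ (-1 : ℂ) = (x : ℂ)⁻¹ := fun x => Complex.cpow_neg_one _
  simp only [h2] at h1
  push_cast at h1
  simp only [div_eq_mul_inv, one_mul]
  exact h1

private theorem PZed_prod {S T : Finset ℕ} (hS : ∀ l ∈ S, l.Prime) (hT : T ⊆ S) :
    0 ≤ ∏ l ∈ S, (1 - 1 / (l : ℝ)) ∧
      ∏ l ∈ S, (1 - 1 / (l : ℝ)) ≤ ∏ l ∈ T, (1 - 1 / (l : ℝ)) := by
  classical
  have h1 : ∀ l ∈ S, 0 ≤ 1 - 1 / (l : ℝ) ∧ 1 - 1 / (l : ℝ) ≤ 1 := by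
    intro l hl
    have h2 : (1 : ℝ) ≤ l := by exact_mod_cast (hS l hl).one_le
    have h3 : 1 / (l : ℝ) ≤ 1 := by
      rw [div_le_one (by linarith)]
      exact h2
    have h4 : 0 ≤ 1 / (l : ℝ) := by positivity
    exact ⟨by linarith, by linarith⟩
  refine ⟨Finset.prod_nonneg fun l hl => (h1 l hl).1, ?_⟩
  rw [← Finset.prod_sdiff hT]
  have h2 : ∏ l ∈ S \ T, (1 - 1 / (l : ℝ)) ≤ 1 :=
    Finset.prod_le_one (fun l hl => (h1 l (Finset.mem_sdiff.1 hl).1).1)
      (fun l hl => (h1 l (Finset.mem_sdiff.1 hl).1).2)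
  have h3 : 0 ≤ ∏ l ∈ T, (1 - 1 / (l : ℝ)) := Finset.prod_nonneg fun l hl => (h1 l (hT hl)).1
  nlinarith

private theorem PZed_tail {Q N : ℕ} (hQ : 1 ≤ Q) (hN : N ≠ 0)
    (hs : ∀ d, d ∣ N → sm (ww Q) d = d) :
    |∑ d ∈ N.divisors.filter (fun d : ℕ => yy Q < (d : ℝ)), (ArithmeticFunction.moebius d : ℝ) / d| ≤
      yy Q ^ (-(1 / 600) : ℝ) * Real.exp (96000 * (ww Q : ℝ) ^ (1 / 600 : ℝ)) := by
  have hQ0 : (0 : ℝ) < Q := by exact_mod_cast hQ
  have hy : 0 < yy Q := by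
    unfold yy
    positivity
  have h1 : ∀ d ∈ N.divisors.filter (fun d : ℕ => yy Q < (d : ℝ)),
      |(ArithmeticFunction.moebius d : ℝ) / d| ≤ yy Q ^ (-(1 / 600) : ℝ) * rankF d := by
    intro d hd
    rw [Finset.mem_filter, Nat.mem_divisors] at hd
    have hd0 : (0 : ℝ) < d := lt_trans hy hd.2
    have hdn : d ≠ 0 := by
      intro h
      rw [h] at hd0
      simp at hd0
    rw [abs_div, abs_of_pos hd0]
    have h2 : |(ArithmeticFunction.moebius d : ℝ)| ≤ 1 := by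
      exact_mod_cast ArithmeticFunction.abs_moebius_le_one
    have h3 : (1 : ℝ) ≤ yy Q ^ (-(1 / 600) : ℝ) * (d : ℝ) ^ (1 / 600 : ℝ) := by
      rw [Real.rpow_neg hy.le, inv_mul_eq_div, one_le_div (by positivity)]
      exact Real.rpow_le_rpow hy.le hd.2.le (by norm_num)
    have h4 : (d : ℝ) ^ (-(599 / 600) : ℝ) = (d : ℝ) ^ (1 / 600 : ℝ) / d := by
      rw [show (-(599 / 600) : ℝ) = 1 / 600 - 1 by norm_num, Real.rpow_sub_one hd0.ne']
    have h5 : (1 : ℝ) ≤ (d.divisors.card : ℝ) ^ 2 := by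
      have h6 : 1 ≤ d.divisors.card := Finset.card_pos.2 ⟨1, Nat.one_mem_divisors.2 hdn⟩
      have h7 : (1 : ℝ) ≤ d.divisors.card := by exact_mod_cast h6
      nlinarith
    unfold rankF
    rw [h4]
    have hx : 0 ≤ yy Q ^ (-(1 / 600) : ℝ) * (d : ℝ) ^ (1 / 600 : ℝ) := by positivity
    calc |(ArithmeticFunction.moebius d : ℝ)| / d ≤ 1 / d :=
          div_le_div_of_nonneg_right h2 hd0.le
      _ ≤ (yy Q ^ (-(1 / 600) : ℝ) * (d : ℝ) ^ (1 / 600 : ℝ)) / d :=
          div_le_div_of_nonneg_right h3 hd0.le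
      _ ≤ (d.divisors.card : ℝ) ^ 2 *
          ((yy Q ^ (-(1 / 600) : ℝ) * (d : ℝ) ^ (1 / 600 : ℝ)) / d) :=
          le_mul_of_one_le_left (by positivity) h5
      _ = yy Q ^ (-(1 / 600) : ℝ) * ((d.divisors.card : ℝ) ^ 2 *
          ((d : ℝ) ^ (1 / 600 : ℝ) / d)) := by ring
  refine (Finset.abs_sum_le_sum_abs _ _).trans ((Finset.sum_le_sum h1).trans ?_)
  rw [← Finset.mul_sum]
  refine mul_le_mul_of_nonneg_left ?_ (by positivity)
  refine le_trans (Finset.sum_le_sum_of_subset_of_nonneg ?_ fun _ _ _ => rankF_nonneg _)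
    (rank_smooth (ww Q) N)
  intro d hd
  rw [Finset.mem_filter, Nat.mem_divisors] at hd
  rw [Finset.mem_filter, Finset.mem_Icc]
  exact ⟨⟨Nat.pos_of_dvd_of_pos hd.1.1 (Nat.pos_of_ne_zero hN),
    Nat.le_of_dvd (Nat.pos_of_ne_zero hN) hd.1.1⟩, hs d hd.1.1⟩

private theorem PZed_num {L : ℝ} (hL : 10 ^ 20 ≤ L) :
    Real.exp (-(L / 60000) + 96000 * √L) ≤ 1 / 10 := by
  have hL0 : 0 ≤ L := le_trans (by positivity) hL
  have hs : (10 : ℝ) ^ 10 ≤ √L := by
    apply Real.le_sqrt_of_sq_le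
    calc ((10 : ℝ) ^ 10) ^ 2 = 10 ^ 20 := by norm_num
      _ ≤ L := hL
  have hsq : √L * √L = L := Real.mul_self_sqrt hL0
  have h1 : -(L / 60000) + 96000 * √L ≤ -9 := by
    have h2 : (10 : ℝ) ^ 10 * √L ≤ L := by
      calc (10 : ℝ) ^ 10 * √L ≤ √L * √L := by gcongr
        _ = L := hsq
    nlinarith
  refine (Real.exp_le_exp.2 h1).trans ?_
  rw [Real.exp_neg, one_div]
  apply inv_anti₀ (by norm_num)
  have := Real.add_one_le_exp (9 : ℝ)
  linarith

/-- the sum over all `t` -/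
theorem zed2 : ∃ Q₀ : ℕ, ∀ Q : ℕ, Q₀ ≤ Q → ∀ p : ℕ, p.Prime →
    |∑ t ∈ (Icc 1 (YY Q)).filter (fun t => t.Coprime p), lamq Q t / t| ≤ 3 / 5 := by
  refine ⟨⌈Real.exp (10 ^ 20)⌉₊, fun Q hQ p hp => ?_⟩
  have hqe : Real.exp (10 ^ 20) ≤ Q := (Nat.le_ceil _).trans (by exact_mod_cast hQ)
  have hQ0 : (0 : ℝ) < Q := lt_of_lt_of_le (Real.exp_pos _) hqe
  have hL : (10 : ℝ) ^ 20 ≤ Real.log Q := by
    rw [Real.le_log_iff_exp_le hQ0]
    exact hqe
  have hQ3 : 3 ≤ Q := by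
    have h1 := Real.add_one_le_exp ((10 : ℝ) ^ 20)
    have h2 : (3 : ℝ) ≤ Q := by
      have : (3 : ℝ) ≤ 10 ^ 20 + 1 := by norm_num
      linarith
    exact_mod_cast h2
  have hL0 : 0 ≤ Real.log Q := le_trans (by positivity) hL
  obtain ⟨P, hP⟩ : ∃ P, P = PZed_P Q (p * 1) := ⟨_, rfl⟩
  have hPsq : Squarefree P := hP ▸ PZed_P_sq _ _
  have hP0 : P ≠ 0 := hPsq.ne_zero
  have hPp : ∀ l : ℕ, l.Prime → (l ∣ P ↔ l ≤ YY Q ∧ ¬ l ∣ p) := fun l hl => by
    have h := PZed_P_prime Q (p * 1) l hl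
    rw [← hP, mul_one] at h
    exact h
  have h1 := PZed_eq hQ3 le_rfl hp.ne_zero
  rw [← hP] at h1
  have hsm : Squarefree (sm (ww Q) P) := hPsq.squarefree_of_dvd ⟨_, (sm_mul_ro (ww Q) hP0).symm⟩
  have hro : Squarefree (ro (ww Q) P) :=
    hPsq.squarefree_of_dvd ⟨sm (ww Q) P, by rw [mul_comm]; exact (sm_mul_ro (ww Q) hP0).symm⟩
  have hN0 : sm (ww Q) P ≠ 0 := sm_ne_zero _ _
  have h3 := PZed_second hQ3 hro (Nat.one_le_iff_ne_zero.2 (ro_ne_zero (ww Q) 1))
  -- the sizes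
  have hw7 : 7 ≤ ww Q := by
    unfold ww
    apply Nat.le_floor
    have h4 : (1 : ℝ) ≤ Real.log Q := le_trans (by norm_num) hL
    calc ((7 : ℕ) : ℝ) ≤ Real.log Q := le_trans (by norm_num) hL
      _ = Real.log Q ^ 1 := (pow_one _).symm
      _ ≤ Real.log Q ^ 300 := pow_le_pow_right₀ h4 (by norm_num)
  have hY7 : 7 ≤ YY Q := by
    unfold YY yy
    apply Nat.le_floor
    have h4 : ((Q : ℝ) ^ (1 / 100 : ℝ)) ^ 2 = Real.exp (Real.log Q * (1 / 50)) := by
      rw [← Real.rpow_natCast, ← Real.rpow_mul hQ0.le, Real.rpow_def_of_pos hQ0]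
      norm_num
    rw [h4]
    have h5 := Real.add_one_le_exp (Real.log Q * (1 / 50))
    have h6 : (7 : ℝ) ≤ Real.log Q * (1 / 50) + 1 := by
      have : (10 : ℝ) ^ 20 * (1 / 50) ≤ Real.log Q * (1 / 50) := by linarith
      have h7 : (7 : ℝ) ≤ 10 ^ 20 * (1 / 50) + 1 := by norm_num
      linarith
    push_cast
    linarith
  -- the product
  have hprod : 0 ≤ ∏ l ∈ (sm (ww Q) P).primeFactors, (1 - 1 / (l : ℝ)) ∧
      ∏ l ∈ (sm (ww Q) P).primeFactors, (1 - 1 / (l : ℝ)) ≤ 1 / 2 := by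
    have hmem : ∀ l : ℕ, l.Prime → l ≤ 7 → l ≠ p → l ∈ (sm (ww Q) P).primeFactors := by
      intro l hl hl7 hlp
      rw [primeFactors_sm, Finset.mem_filter, Nat.mem_primeFactors]
      refine ⟨⟨hl, (hPp l hl).2 ⟨by omega, ?_⟩, hP0⟩, by omega⟩
      intro h4
      exact hlp ((Nat.prime_dvd_prime_iff_eq hl hp).1 h4)
    have hpr : ∀ l ∈ (sm (ww Q) P).primeFactors, l.Prime := fun l hl =>
      Nat.prime_of_mem_primeFactors hl
    by_cases hp2 : p = 2
    · have h4 : ({3, 5, 7} : Finset ℕ) ⊆ (sm (ww Q) P).primeFactors := by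
        intro l hl
        simp only [Finset.mem_insert, Finset.mem_singleton] at hl
        rcases hl with rfl | rfl | rfl
        · exact hmem 3 (by norm_num) (by norm_num) (by omega)
        · exact hmem 5 (by norm_num) (by norm_num) (by omega)
        · exact hmem 7 (by norm_num) (by norm_num) (by omega)
      obtain ⟨h5, h6⟩ := PZed_prod hpr h4
      refine ⟨h5, h6.trans ?_⟩
      rw [Finset.prod_insert (by decide), Finset.prod_insert (by decide), Finset.prod_singleton]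
      norm_num
    · have h4 : ({2} : Finset ℕ) ⊆ (sm (ww Q) P).primeFactors := by
        intro l hl
        rw [Finset.mem_singleton] at hl
        rw [hl]
        exact hmem 2 Nat.prime_two (by norm_num) (fun h => hp2 h.symm)
      obtain ⟨h5, h6⟩ := PZed_prod hpr h4
      refine ⟨h5, h6.trans ?_⟩
      rw [Finset.prod_singleton]
      norm_num
  -- the tail
  have htail := PZed_tail (Q := Q) (N := sm (ww Q) P) (by omega) hN0
    (fun d hd => (Parts_sm_dvd hd).1)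
  have hnum : yy Q ^ (-(1 / 600) : ℝ) * Real.exp (96000 * (ww Q : ℝ) ^ (1 / 600 : ℝ)) ≤ 1 / 10 := by
    have hw : ((ww Q : ℕ) : ℝ) ^ (1 / 600 : ℝ) ≤ √(Real.log Q) := by
      have hw1 : ((ww Q : ℕ) : ℝ) ≤ Real.log Q ^ 300 := Nat.floor_le (by positivity)
      calc ((ww Q : ℕ) : ℝ) ^ (1 / 600 : ℝ) ≤ (Real.log Q ^ 300) ^ (1 / 600 : ℝ) :=
            Real.rpow_le_rpow (by positivity) hw1 (by norm_num)
        _ = √(Real.log Q) := by
            rw [← Real.rpow_natCast, ← Real.rpow_mul hL0, Real.sqrt_eq_rpow]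
            norm_num
    have hy : yy Q ^ (-(1 / 600) : ℝ) = Real.exp (-(Real.log Q / 60000)) := by
      unfold yy
      rw [← Real.rpow_mul hQ0.le, Real.rpow_def_of_pos hQ0]
      congr 1
      ring
    rw [hy, ← Real.exp_add]
    refine le_trans (Real.exp_le_exp.2 ?_) (PZed_num hL)
    linarith
  have hfirst : |∑ d ∈ (sm (ww Q) P).divisors, if ((d * sm (ww Q) 1 : ℕ) : ℝ) ≤ yy Q then
      (ArithmeticFunction.moebius d : ℝ) / d else 0| ≤ 3 / 5 := by
    have e1 : sm (ww Q) 1 = 1 := by simp [sm]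
    rw [e1]
    simp only [mul_one]
    rw [← Finset.sum_filter]
    have h4 := Finset.sum_filter_add_sum_filter_not (sm (ww Q) P).divisors
      (fun d : ℕ => (d : ℝ) ≤ yy Q) (fun d => (ArithmeticFunction.moebius d : ℝ) / d)
    rw [PZed_musum hN0] at h4
    have h5 : (sm (ww Q) P).divisors.filter (fun d : ℕ => ¬ (d : ℝ) ≤ yy Q) =
        (sm (ww Q) P).divisors.filter (fun d : ℕ => yy Q < (d : ℝ)) :=
      Finset.filter_congr fun d _ => not_le
    rw [h5] at h4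
    have h6 := htail.trans hnum
    rw [abs_le] at h6 ⊢
    constructor
    · linarith [hprod.1, h6.2]
    · linarith [hprod.2, h6.1]
  have h4 := congrArg norm h1
  rw [Complex.norm_real, Real.norm_eq_abs, norm_mul, norm_mul, ← Complex.ofReal_sum,
    ← Complex.ofReal_sum, Complex.norm_real, Complex.norm_real, Real.norm_eq_abs,
    Real.norm_eq_abs] at h4
  simp only [Nat.div_one, mul_one] at h4
  rw [h4]
  have h5 : ‖((ArithmeticFunction.moebius 1 : ℤ) : ℂ)‖ = 1 := by simp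
  rw [h5, one_mul]
  calc _ ≤ 3 / 5 * 1 := mul_le_mul hfirst h3 (abs_nonneg _) (by norm_num)
    _ = 3 / 5 := mul_one _

end Pool.Agent.NP
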